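import Pool.Agent.Helper96_GN.FieldUp
import Pool.Agent.F5S.Defs

/-!
# The lattice sums on `(ℝ × ℝ) × (ℝ × ℝ) × (ℝ × ℝ)`
-/

set_option autoImplicit false

set_option linter.unusedSectionVars false

open MeasureTheory Filter Topology Set Function Matrix

open scoped BigOperators ENNReal

noncomputable section

namespace Pool.Agent.Helper96_GN

open Pool.Agent.F5S

/-- the index type -/
abbrev I6 : Type := Fin 2 ⊕ (Fin 2 ⊕ Fin 2)

/-- a vector with six entries as a triple of points -/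
def of6 : (I6 → ℝ) →ₗ[ℝ] R6 where
  toFun v := ((v (Sum.inl 0), v (Sum.inl 1)), (v (Sum.inr (Sum.inl 0)), v (Sum.inr (Sum.inl 1))),
    (v (Sum.inr (Sum.inr 0)), v (Sum.inr (Sum.inr 1))))
  map_add' _ _ := rfl
  map_smul' _ _ := rfl

/-- the inverse -/
def to6 (x : R6) : I6 → ℝ :=
  Sum.elim ![x.1.1, x.1.2] (Sum.elim ![x.2.1.1, x.2.1.2] ![x.2.2.1, x.2.2.2])

theorem to6_of6 (v : I6 → ℝ) : to6 (of6 v) = v := by
  funext i
  rcases i with i | i | i <;> fin_cases i <;> rfl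

theorem of6_to6 (x : R6) : of6 (to6 x) = x := rfl

theorem of6_inj : Function.Injective of6 := by
  intro v w h
  rw [← to6_of6 v, h, to6_of6]

theorem measurePreserving_of6 : MeasurePreserving (of6 : (I6 → ℝ) → R6) volume volume := by
  have h1 := volume_measurePreserving_sumPiEquivProdPi (ι := Fin 2) (ι' := Fin 2 ⊕ Fin 2)
    (fun _ => ℝ)
  have h2 := volume_measurePreserving_sumPiEquivProdPi (ι := Fin 2) (ι' := Fin 2)
    (fun _ => ℝ)
  have h3 := volume_preserving_finTwoArrow ℝ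
  have h4 := (h3.prod (h3.prod h3)).comp ((MeasurePreserving.id volume).prod h2 |>.comp h1)
  exact h4

/-- an integer vector with six entries as a triple of integer points -/
def ez : (I6 → ℤ) ≃ Z6 where
  toFun k := ((k (Sum.inl 0), k (Sum.inl 1)), (k (Sum.inr (Sum.inl 0)), k (Sum.inr (Sum.inl 1))),
    (k (Sum.inr (Sum.inr 0)), k (Sum.inr (Sum.inr 1))))
  invFun t := Sum.elim ![t.1.1, t.1.2] (Sum.elim ![t.2.1.1, t.2.1.2] ![t.2.2.1, t.2.2.2])
  left_inv k := by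
    funext i
    rcases i with i | i | i <;> fin_cases i <;> rfl
  right_inv t := rfl

theorem of6_zr (k : I6 → ℤ) : of6 (zr k) = r3 (ez k) := rfl

/-- the scalar product -/
def dot6 (k : Z6) (v : R6) : ℝ :=
  (k.1.1 : ℝ) * v.1.1 + (k.1.2 : ℝ) * v.1.2 + ((k.2.1.1 : ℝ) * v.2.1.1 + (k.2.1.2 : ℝ) * v.2.1.2) +
    ((k.2.2.1 : ℝ) * v.2.2.1 + (k.2.2.2 : ℝ) * v.2.2.2)

theorem dotz_ez (k : I6 → ℤ) (v : I6 → ℝ) : dotz k v = dot6 (ez k) (of6 v) := by
  have h : dot6 (ez k) (of6 v) = (k (Sum.inl 0) : ℝ) * v (Sum.inl 0) +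
      (k (Sum.inl 1) : ℝ) * v (Sum.inl 1) +
      ((k (Sum.inr (Sum.inl 0)) : ℝ) * v (Sum.inr (Sum.inl 0)) +
        (k (Sum.inr (Sum.inl 1)) : ℝ) * v (Sum.inr (Sum.inl 1))) +
      ((k (Sum.inr (Sum.inr 0)) : ℝ) * v (Sum.inr (Sum.inr 0)) +
        (k (Sum.inr (Sum.inr 1)) : ℝ) * v (Sum.inr (Sum.inr 1))) := rfl
  rw [h]
  simp only [dotz, Fintype.sum_sum_type, Fin.sum_univ_two]
  ring

/-- non zero integer vectors of dual norm at most `ρ` -/
def dq6 (q : R6 → ℝ) (ρ : ℝ) : Set Z6 := {k | k ≠ 0 ∧ ∀ v : R6, (dot6 k v) ^ 2 ≤ ρ ^ 2 * q v}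

variable {J : Type*} [Fintype J]

/-- the quadratic form of a family of linear forms -/
def q6 (l : J → R6 →ₗ[ℝ] ℝ) (v : R6) : ℝ := ∑ j, (l j v) ^ 2

/-- transport of the field -/
def lt (l : R6 → J → R6 →ₗ[ℝ] ℝ) (m : I6 → ℝ) (j : J) : (I6 → ℝ) →ₗ[ℝ] ℝ :=
  (l (of6 m) j).comp of6

theorem ql_lt (l : R6 → J → R6 →ₗ[ℝ] ℝ) (m v : I6 → ℝ) :
    ql (lt l m) v = q6 (l (of6 m)) (of6 v) := rfl

theorem dq_lt (l : R6 → J → R6 →ₗ[ℝ] ℝ) (m : I6 → ℝ) (ρ : ℝ) :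
    ez '' (dq (ql (lt l m)) ρ) = dq6 (q6 (l (of6 m))) ρ := by
  ext t
  constructor
  · rintro ⟨k, ⟨hk, hk2⟩, rfl⟩
    refine ⟨fun h => hk (ez.injective (h.trans ?_)), fun v => ?_⟩
    · rfl
    · have := hk2 (to6 v)
      rw [dotz_ez, of6_to6, ql_lt, of6_to6] at this
      exact this
  · rintro ⟨ht, ht2⟩
    refine ⟨ez.symm t, ⟨fun h => ht ?_, fun v => ?_⟩, ez.apply_symm_apply t⟩
    · rw [← ez.apply_symm_apply t, h]
      rfl
    · rw [dotz_ez, ez.apply_symm_apply, ql_lt]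
      exact ht2 _

theorem ncard_dq_lt (l : R6 → J → R6 →ₗ[ℝ] ℝ) (m : I6 → ℝ) (ρ : ℝ) :
    (dq (ql (lt l m)) ρ).ncard = (dq6 (q6 (l (of6 m))) ρ).ncard := by
  rw [← dq_lt, Set.ncard_image_of_injective _ ez.injective]

theorem measurable_lt {l : R6 → J → R6 →ₗ[ℝ] ℝ} (hl : ∀ j v, Measurable fun m => l m j v)
    (j : J) (v : I6 → ℝ) : Measurable fun m => lt l m j v :=
  (hl j (of6 v)).comp measurePreserving_of6.measurable

theorem pos_lt {l : R6 → J → R6 →ₗ[ℝ] ℝ} (hpos : ∀ m v, v ≠ 0 → 0 < q6 (l m) v)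
    (m v : I6 → ℝ) (hv : v ≠ 0) : 0 < ql (lt l m) v := by
  rw [ql_lt]
  refine hpos _ _ fun h => hv (of6_inj ?_)
  rw [h]
  rfl

theorem emb_of6 : MeasurableEmbedding (of6 : (I6 → ℝ) → R6) :=
  measurePreserving_of6.measurable.measurableEmbedding of6_inj

theorem lintegral6 (F : R6 → ℝ≥0∞) : ∫⁻ m : I6 → ℝ, F (of6 m) = ∫⁻ m, F m :=
  measurePreserving_of6.lintegral_comp_emb emb_of6 F

theorem integral6 (F : R6 → ℝ) : ∫ m : I6 → ℝ, F (of6 m) = ∫ m, F m :=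
  measurePreserving_of6.integral_comp emb_of6 F

theorem dq6_mono {l : J → R6 →ₗ[ℝ] ℝ} (hpos : ∀ v, v ≠ 0 → 0 < q6 l v) {ρ ρ' : ℝ} (h0 : 0 ≤ ρ)
    (h : ρ ≤ ρ') : (dq6 (q6 l) ρ).ncard ≤ (dq6 (q6 l) ρ').ncard := by
  have hq : ∀ v, 0 ≤ q6 l v := fun v => Finset.sum_nonneg fun _ _ => sq_nonneg _
  refine Set.ncard_le_ncard ?_ ?_
  · rintro k ⟨hk, hk2⟩
    refine ⟨hk, fun v => (hk2 v).trans ?_⟩
    exact mul_le_mul_of_nonneg_right (pow_le_pow_left₀ h0 h 2) (hq v)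
  · rw [← dq_lt (fun _ => l) 0]
    refine Set.Finite.image _ ?_
    obtain ⟨g, hg, hgq, -⟩ := exists_root (l := lt (fun _ => l) 0)
      (fun v hv => pos_lt (l := fun _ => l) (fun _ => hpos) 0 v hv)
    have e : ql (lt (fun _ => l) 0) = qf g := funext fun v => (hgq v).symm
    rw [e]
    exact dq_finite hg (h0.trans h)

theorem sqrt_six_le : Real.sqrt (Fintype.card I6 : ℝ) ≤ 3 := by
  have : (Fintype.card I6 : ℝ) = 6 := by
    simp only [Fintype.card_sum, Fintype.card_fin]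
    norm_num
  rw [this]
  rw [Real.sqrt_le_left (by norm_num)]
  norm_num

/-- THE LATTICE SUM on `R6` -/
theorem lattice_sum6 {l : R6 → J → R6 →ₗ[ℝ] ℝ}
    (hl : ∀ j v, Measurable fun m => l m j v) (hpos : ∀ m v, v ≠ 0 → 0 < q6 (l m) v)
    {δ L R : ℝ} (hδ0 : 0 ≤ δ) (hδ : δ ≤ 1 / 200) (hL : 6 ≤ L) (hR : 0 ≤ R)
    {S : Set R6} {f F1 F2 : R6 → ℝ} (hf : Measurable f) (hF2 : Measurable F2)
    (slow : ∀ x ∈ S, ∀ m, (q6 (l m) (x - m) ≤ L ∨ q6 (l x) (x - m) ≤ L) →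
      ∀ v, (1 - δ) * q6 (l x) v ≤ q6 (l m) v ∧ q6 (l m) v ≤ (1 + δ) * q6 (l x) v)
    (hS : ∀ x, x ∉ S → F1 x = 0) (hfF : ∀ x, |f x| ≤ F1 x)
    (lip : ∀ x m, q6 (l m) (x - m) ≤ L → |f m - f x| ≤ δ * F1 x)
    (dom : ∀ x m, q6 (l m) (x - m) ≤ L → F1 x ≤ F2 m) :
    ENNReal.ofReal |(∑' t : Z6, f (r3 t)) - ∫ x, f x| ≤
      ENNReal.ofReal (10 ^ 9 * (δ + Real.exp (-L) + Real.exp (-R ^ 2))) *
        (∫⁻ m, ENNReal.ofReal (F2 m) * (1 + (dq6 (q6 (l m)) 3).ncard)) +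
      (∫⁻ m, ENNReal.ofReal |f m| * (dq6 (q6 (l m)) (3 * R)).ncard) := by
  have hcard : (Fintype.card I6 : ℝ) = 6 := by
    simp only [Fintype.card_sum, Fintype.card_fin]
    norm_num
  have hcard' : Fintype.card I6 = 6 := by
    simp only [Fintype.card_sum, Fintype.card_fin]
  have hexp : Real.exp (-(Real.pi * L / 2)) ≤ 1 / 512 := by
    have h1 : Real.exp (-(Real.pi * L / 2)) ≤ Real.exp (-9) := by
      apply Real.exp_le_exp.2
      nlinarith [Real.pi_gt_three]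
    have h2 : Real.exp (-9) = (Real.exp 9)⁻¹ := Real.exp_neg 9
    have h3 : (512 : ℝ) ≤ Real.exp 9 := by
      have e : Real.exp 9 = Real.exp 1 ^ 9 := by
        rw [← Real.exp_nat_mul]
        norm_num
      rw [e]
      have h4 : (2 : ℝ) ≤ Real.exp 1 := by
        have := Real.add_one_le_exp (1 : ℝ)
        linarith
      calc (512 : ℝ) = 2 ^ 9 := by norm_num
        _ ≤ Real.exp 1 ^ 9 := pow_le_pow_left₀ (by norm_num) h4 9
    rw [h2] at h1
    refine h1.trans ?_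
    rw [one_div]
    exact inv_anti₀ (by norm_num) h3
  have h := lattice_sum (l := lt l) (measurable_lt hl) (pos_lt hpos) (δ := δ) (L := L) (R := R)
    hδ0 hR (by
      rw [hcard, hcard']
      norm_num
      linarith)
    (S := of6 ⁻¹' S) (f := fun v => f (of6 v)) (F1 := fun v => F1 (of6 v))
    (F2 := fun v => F2 (of6 v)) (hf.comp measurePreserving_of6.measurable)
    (hF2.comp measurePreserving_of6.measurable)
    (fun x hx m hm v => by
      have := slow (of6 x) hx (of6 m) (by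
        simpa only [ql_lt, map_sub] using hm) (of6 v)
      simpa only [ql_lt] using this)
    (fun x hx => hS _ hx) (fun x => hfF _)
    (fun x m hm => lip _ _ (by simpa only [ql_lt, map_sub] using hm))
    (fun x m hm => dom _ _ (by simpa only [ql_lt, map_sub] using hm))
  have e1 : ∑' x : I6 → ℤ, f (of6 (zr x)) = ∑' t : Z6, f (r3 t) := by
    rw [← ez.tsum_eq fun t => f (r3 t)]
    rfl
  rw [e1, integral6] at h
  simp only [ncard_dq_lt] at h
  rw [lintegral6 fun m => ENNReal.ofReal (F2 m) *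
      (1 + ((dq6 (q6 (l m)) (Real.sqrt (Fintype.card I6))).ncard : ℝ≥0∞)),
    lintegral6 fun m => ENNReal.ofReal |f m| *
      ((dq6 (q6 (l m)) (Real.sqrt (Fintype.card I6) * R)).ncard : ℝ≥0∞)] at h
  refine h.trans (add_le_add (mul_le_mul' (ENNReal.ofReal_le_ofReal ?_)
    (lintegral_mono fun m => ?_)) (lintegral_mono fun m => ?_))
  · rw [hcard, hcard']
    refine mul_le_mul_of_nonneg_right (by norm_num) (by positivity)
  · refine mul_le_mul' le_rfl (add_le_add le_rfl ?_)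
    exact_mod_cast dq6_mono (hpos m) (Real.sqrt_nonneg _) sqrt_six_le
  · refine mul_le_mul' le_rfl ?_
    exact_mod_cast dq6_mono (hpos m) (mul_nonneg (Real.sqrt_nonneg _) hR)
      (mul_le_mul_of_nonneg_right sqrt_six_le hR)

theorem exp_pi_le : Real.exp Real.pi ≤ 25 := by
  have h1 : Real.exp Real.pi ≤ Real.exp 3.15 := Real.exp_le_exp.2 (by linarith [Real.pi_lt_d2])
  have h2 : Real.exp 3.15 = Real.exp 1 ^ 3 * Real.exp 0.15 := by
    rw [← Real.exp_nat_mul, ← Real.exp_add]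
    norm_num
  have h3 : Real.exp 1 ≤ 2.7183 := by linarith [Real.exp_one_lt_d9]
  have h4 : Real.exp 0.15 ≤ 1.18 := by
    have h5 : Real.exp 0.15 * (1 - 0.15) ≤ 1 := by
      have h6 := Real.add_one_le_exp (-0.15 : ℝ)
      calc Real.exp 0.15 * (1 - 0.15) ≤ Real.exp 0.15 * Real.exp (-0.15) :=
            mul_le_mul_of_nonneg_left (by linarith) (Real.exp_pos _).le
        _ = 1 := by rw [← Real.exp_add]; norm_num
    linarith
  have h5 : Real.exp 1 ^ 3 ≤ 2.7183 ^ 3 := pow_le_pow_left₀ (Real.exp_pos _).le h3 3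
  rw [h2] at h1
  refine h1.trans ((mul_le_mul h5 h4 (Real.exp_pos _).le (by norm_num)).trans ?_)
  norm_num

/-- THE UPPER BOUND on `R6` -/
theorem lattice_upper6 {l : R6 → J → R6 →ₗ[ℝ] ℝ}
    (hl : ∀ j v, Measurable fun m => l m j v) (hpos : ∀ m v, v ≠ 0 → 0 < q6 (l m) v)
    {a : ℝ} (ha : 1 ≤ a) {S : Set R6} {F1 F2 : R6 → ℝ} (hF2 : Measurable F2)
    (slow : ∀ x ∈ S, ∀ m, q6 (l x) (x - m) ≤ 1 →
      ∀ v, q6 (l x) v ≤ a * q6 (l m) v ∧ q6 (l m) v ≤ a * q6 (l x) v)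
    (hS : ∀ x, x ∉ S → F1 x ≤ 0)
    (dom : ∀ x ∈ S, ∀ m, q6 (l x) (x - m) ≤ 1 → F1 x ≤ F2 m) :
    ∑' t : Z6, ENNReal.ofReal (F1 (r3 t)) ≤
      ENNReal.ofReal ((1600 * a ^ 2) ^ 6) *
        (∫⁻ m, ENNReal.ofReal (F2 m) * (1 + (dq6 (q6 (l m)) 3).ncard)) := by
  have hcard : (Fintype.card I6 : ℝ) = 6 := by
    simp only [Fintype.card_sum, Fintype.card_fin]
    norm_num
  have hcard' : Fintype.card I6 = 6 := by
    simp only [Fintype.card_sum, Fintype.card_fin]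
  have h := lattice_upper (l := lt l) (measurable_lt hl) (pos_lt hpos) ha
    (S := of6 ⁻¹' S) (F1 := fun v => F1 (of6 v)) (F2 := fun v => F2 (of6 v))
    (fun x hx m hm v => by
      have := slow (of6 x) hx (of6 m) (by
        simpa only [ql_lt, map_sub] using hm) (of6 v)
      simpa only [ql_lt] using this)
    (fun x hx => hS _ hx)
    (fun x hx m hm => dom _ hx _ (by simpa only [ql_lt, map_sub] using hm))
    (hF2.comp measurePreserving_of6.measurable)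
  have e1 : ∑' x : I6 → ℤ, ENNReal.ofReal (F1 (of6 (zr x))) =
      ∑' t : Z6, ENNReal.ofReal (F1 (r3 t)) := by
    rw [← ez.tsum_eq fun t => ENNReal.ofReal (F1 (r3 t))]
    rfl
  rw [e1] at h
  simp only [ncard_dq_lt] at h
  rw [lintegral6 fun m => ENNReal.ofReal (F2 m) *
      (1 + ((dq6 (q6 (l m)) (Real.sqrt (Fintype.card I6))).ncard : ℝ≥0∞))] at h
  refine h.trans (mul_le_mul' (ENNReal.ofReal_le_ofReal ?_) (lintegral_mono fun m => ?_))
  · rw [hcard, hcard']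
    refine pow_le_pow_left₀ (by positivity) ?_ 6
    have h1 := exp_pi_le
    have h2 : 0 < Real.exp Real.pi := Real.exp_pos _
    have h3 : ((6 : ℝ) + 1) * a * (2 * a + 1) ≤ 21 * a ^ 2 := by nlinarith
    calc ((6 : ℝ) + 1) * a * (2 * a + 1) * (3 * Real.exp Real.pi)
        ≤ 21 * a ^ 2 * (3 * 25) := by
          refine mul_le_mul h3 (by linarith) (by positivity) (by positivity)
      _ ≤ 1600 * a ^ 2 := by nlinarith
  · refine mul_le_mul' le_rfl (add_le_add le_rfl ?_)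
    exact_mod_cast dq6_mono (hpos m) (Real.sqrt_nonneg _) sqrt_six_le

end Pool.Agent.Helper96_GN
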