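import Pool.Agent.Helper96_GN.FieldQ

/-!
# Upper bound for sums over the lattice with a field of quadratic forms

Only comparability up to a constant factor is used.
-/

set_option autoImplicit false

set_option linter.unusedSectionVars false

open MeasureTheory Filter Topology Set Function Matrix

open scoped BigOperators ENNReal

noncomputable section

namespace Pool.Agent.Helper96_GN

variable {ι : Type*} [Fintype ι] [DecidableEq ι] {J : Type*} [Fintype J]

/-- the volume of an ellipsoid -/
theorem volume_ellipsoid_ge {g : Matrix ι ι ℝ} (hg : g.det ≠ 0) (x : ι → ℝ) :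
    ENNReal.ofReal (|g.det|⁻¹ * (2 / ((Fintype.card ι : ℝ) + 1)) ^ Fintype.card ι) ≤
      volume {m : ι → ℝ | qf g (x - m) ≤ 1} := by
  obtain ⟨c, hc⟩ : ∃ c : ℝ, c = 1 / ((Fintype.card ι : ℝ) + 1) := ⟨_, rfl⟩
  have hn0 : (0 : ℝ) < (Fintype.card ι : ℝ) + 1 := by positivity
  have hc0 : 0 < c := by rw [hc]; positivity
  obtain ⟨A, hA⟩ : ∃ A : Set (ι → ℝ), A = Icc (fun _ => -c) (fun _ => c) := ⟨_, rfl⟩
  have hAm : MeasurableSet A := by
    rw [hA]
    exact measurableSet_Icc
  have hAv : volume A = ENNReal.ofReal ((2 / ((Fintype.card ι : ℝ) + 1)) ^ Fintype.card ι) := by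
    rw [hA, Real.volume_Icc_pi, Finset.prod_const, Finset.card_univ,
      ENNReal.ofReal_pow (by positivity)]
    congr 2
    rw [hc]
    ring
  have h1 := Real.map_matrix_volume_pi_eq_smul_volume_pi hg
  have hcont : Continuous (Matrix.toLin' g) := LinearMap.continuous_of_finiteDimensional _
  have h2 : volume ((Matrix.toLin' g) ⁻¹' A) = ENNReal.ofReal (|g.det|⁻¹) * volume A := by
    rw [← Measure.map_apply hcont.measurable hAm, h1, Measure.smul_apply, smul_eq_mul, abs_inv]
  have hcq := continuous_qf g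
  have hEm : MeasurableSet {m : ι → ℝ | qf g m ≤ 1} :=
    measurableSet_le hcq.measurable measurable_const
  have h3 : volume {m : ι → ℝ | qf g (x - m) ≤ 1} = volume {m : ι → ℝ | qf g m ≤ 1} := by
    have e1 := lintegral_sub_left_eq_self (μ := (volume : Measure (ι → ℝ)))
      ({m : ι → ℝ | qf g m ≤ 1}.indicator 1) x
    have e2 : (fun m => {m : ι → ℝ | qf g m ≤ 1}.indicator (1 : (ι → ℝ) → ℝ≥0∞) (x - m)) =
        {m : ι → ℝ | qf g (x - m) ≤ 1}.indicator 1 := by
      funext m
      by_cases h : qf g (x - m) ≤ 1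
      · rw [Set.indicator_of_mem (show x - m ∈ {m : ι → ℝ | qf g m ≤ 1} from h),
          Set.indicator_of_mem (show m ∈ {m : ι → ℝ | qf g (x - m) ≤ 1} from h)]
        rfl
      · rw [Set.indicator_of_notMem (show x - m ∉ {m : ι → ℝ | qf g m ≤ 1} from h),
          Set.indicator_of_notMem (show m ∉ {m : ι → ℝ | qf g (x - m) ≤ 1} from h)]
    rw [e2, lintegral_indicator_one hEm, lintegral_indicator_one (by
      refine measurableSet_le (Continuous.measurable ?_) measurable_const
      fun_prop)] at e1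
    exact e1
  have h4 : (Matrix.toLin' g) ⁻¹' A ⊆ {m : ι → ℝ | qf g m ≤ 1} := by
    intro m hm
    rw [hA] at hm
    have h5 : ∀ i, (g.mulVec m i) ^ 2 ≤ c ^ 2 := by
      intro i
      have e1 := hm.1 i
      have e2 := hm.2 i
      simp only [Matrix.toLin'_apply] at e1 e2
      exact sq_le_sq' e1 e2
    change qf g m ≤ 1
    rw [qf]
    calc ∑ i, (g.mulVec m i) ^ 2 ≤ ∑ _i : ι, c ^ 2 := Finset.sum_le_sum fun i _ => h5 i
      _ = Fintype.card ι * c ^ 2 := by simp
      _ ≤ 1 := by
          rw [hc, div_pow, one_pow, mul_one_div, div_le_one (by positivity)]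
          have : (0 : ℝ) ≤ (Fintype.card ι : ℝ) := by positivity
          nlinarith
  rw [h3]
  refine le_trans (le_of_eq ?_) (measure_mono h4)
  rw [h2, hAv, ← ENNReal.ofReal_mul (by positivity)]

/-- the kernel of the upper bound -/
def kap (g : (ι → ℝ) → Matrix ι ι ℝ) (a : ℝ) (x m : ι → ℝ) : ℝ≥0∞ :=
  if qf (g m) (x - m) ≤ a then ENNReal.ofReal |(g m).det| else 0

theorem measurable_kap {g : (ι → ℝ) → Matrix ι ι ℝ} (hg : MF g) (a : ℝ) (x : ι → ℝ) :
    Measurable fun m => kap g a x m := by
  unfold kap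
  exact Measurable.ite (measurableSet_le (hg.q x) measurable_const) hg.d.ennreal_ofReal
    measurable_const

theorem tsum_kap_le {g : (ι → ℝ) → Matrix ι ι ℝ} (hdet : ∀ m, (g m).det ≠ 0) {a : ℝ} (ha : 1 ≤ a)
    (m : ι → ℝ) : ∑' x : ι → ℤ, kap g a (zr x) m ≤
      ENNReal.ofReal ((2 * a + 1) ^ Fintype.card ι *
        (3 * Real.exp Real.pi) ^ Fintype.card ι * (nb (dl (g m)) 0 1).ncard) := by
  obtain ⟨A, hA⟩ : ∃ A : Set (ι → ℤ), A = {x | qf (g m) (zr x - m) ≤ a} := ⟨_, rfl⟩
  have ha0 : 0 ≤ a := by linarith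
  have h1 : A ⊆ nb (g m) ((g m).mulVec m) a := by
    intro x hx i
    rw [hA] at hx
    have h2 : ((g m).mulVec (zr x - m) i) ^ 2 ≤ a := le_trans (Finset.single_le_sum
      (f := fun i => ((g m).mulVec (zr x - m) i) ^ 2) (fun _ _ => sq_nonneg _)
      (Finset.mem_univ i)) hx
    have h3 : ((g m).mulVec (zr x - m) i) ^ 2 ≤ a ^ 2 := h2.trans (by nlinarith)
    have h4 := abs_le_of_sq_le_sq h3 ha0
    rw [Matrix.mulVec_sub] at h4
    exact h4
  have hAf : A.Finite := (nb_finite (hdet m) _ _).subset h1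
  have h2 : (A.ncard : ℝ) ≤ (2 * a + 1) ^ Fintype.card ι *
      ((3 * Real.exp Real.pi) ^ Fintype.card ι * |(g m).det|⁻¹ * (nb (dl (g m)) 0 1).ncard) := by
    have e1 : (A.ncard : ℝ) ≤ (nb (g m) ((g m).mulVec m) a).ncard := by
      exact_mod_cast Set.ncard_le_ncard h1 (nb_finite (hdet m) _ _)
    have e2 := cover (hdet m) ((g m).mulVec m) ha0
    have e3 := duality (hdet m)
    exact (e1.trans e2).trans (mul_le_mul_of_nonneg_left e3 (by positivity))
  have h3 : ∑' x : ι → ℤ, kap g a (zr x) m = A.encard * ENNReal.ofReal |(g m).det| := by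
    rw [← ENNReal.tsum_set_const, tsum_subtype A fun _ => ENNReal.ofReal |(g m).det|]
    refine tsum_congr fun x => ?_
    unfold kap
    by_cases h : qf (g m) (zr x - m) ≤ a
    · rw [if_pos h, Set.indicator_of_mem (by rw [hA]; exact h)]
    · rw [if_neg h, Set.indicator_of_notMem (by rw [hA]; exact h)]
  rw [h3, ← hAf.cast_ncard_eq]
  have h4 : ((A.ncard : ℕ∞) : ℝ≥0∞) = ENNReal.ofReal (A.ncard : ℝ) := by
    rw [ENNReal.ofReal_natCast]
    rfl
  rw [h4, ← ENNReal.ofReal_mul (by positivity)]
  apply ENNReal.ofReal_le_ofReal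
  have hD : 0 < |(g m).det| := abs_pos.2 (hdet m)
  calc (A.ncard : ℝ) * |(g m).det| ≤ ((2 * a + 1) ^ Fintype.card ι *
      ((3 * Real.exp Real.pi) ^ Fintype.card ι * |(g m).det|⁻¹ *
        (nb (dl (g m)) 0 1).ncard)) * |(g m).det| :=
        mul_le_mul_of_nonneg_right h2 hD.le
    _ = _ := by
        field_simp

/-- THE UPPER BOUND: a field of quadratic forms which varies by a bounded factor, a function which
is dominated on the ellipsoids. -/
theorem lattice_upper {l : (ι → ℝ) → J → (ι → ℝ) →ₗ[ℝ] ℝ}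
    (hl : ∀ j v, Measurable fun m => l m j v) (hpos : ∀ m v, v ≠ 0 → 0 < ql (l m) v)
    {a : ℝ} (ha : 1 ≤ a) {S : Set (ι → ℝ)} {F1 F2 : (ι → ℝ) → ℝ}
    (slow : ∀ x ∈ S, ∀ m, ql (l x) (x - m) ≤ 1 →
      ∀ v, ql (l x) v ≤ a * ql (l m) v ∧ ql (l m) v ≤ a * ql (l x) v)
    (hS : ∀ x, x ∉ S → F1 x ≤ 0)
    (dom : ∀ x ∈ S, ∀ m, ql (l x) (x - m) ≤ 1 → F1 x ≤ F2 m) (hF2 : Measurable F2) :
    ∑' x : ι → ℤ, ENNReal.ofReal (F1 (zr x)) ≤
      ENNReal.ofReal ((((Fintype.card ι : ℝ) + 1) * a * (2 * a + 1) *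
        (3 * Real.exp Real.pi)) ^ Fintype.card ι) *
        (∫⁻ m, ENNReal.ofReal (F2 m) *
          (1 + (dq (ql (l m)) (Real.sqrt (Fintype.card ι))).ncard)) := by
  obtain ⟨g, hdet, hq, hM⟩ := exists_field hl hpos
  obtain ⟨n, hn⟩ : ∃ n : ℕ, n = Fintype.card ι := ⟨_, rfl⟩
  have ha0 : 0 < a := by linarith
  have hn0 : (0 : ℝ) < (n : ℝ) + 1 := by positivity
  have hkm := fun x => measurable_kap hM a x
  -- pointwise
  have h1 : ∀ x : ι → ℝ, ENNReal.ofReal (F1 x) ≤
      ENNReal.ofReal ((((n : ℝ) + 1) * a) ^ n) *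
        ∫⁻ m, ENNReal.ofReal (F2 m) * kap g a x m := by
    intro x
    by_cases hx : x ∈ S
    · obtain ⟨E, hE⟩ : ∃ E : Set (ι → ℝ), E = {m : ι → ℝ | qf (g x) (x - m) ≤ 1} := ⟨_, rfl⟩
      have hEm : MeasurableSet E := by
        rw [hE]
        have := continuous_qf (g x)
        refine measurableSet_le (Continuous.measurable ?_) measurable_const
        fun_prop
      have hvol := volume_ellipsoid_ge (hdet x) x
      rw [← hE, ← hn] at hvol
      have hD : 0 < |(g x).det| := abs_pos.2 (hdet x)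
      have e1 : ENNReal.ofReal (F1 x) * volume E * ENNReal.ofReal |(g x).det| ≤
          ENNReal.ofReal (a ^ n) * ∫⁻ m, ENNReal.ofReal (F2 m) * kap g a x m := by
        have e2 : ENNReal.ofReal (F1 x) * volume E = ∫⁻ m, E.indicator
            (fun _ => ENNReal.ofReal (F1 x)) m := by
          rw [lintegral_indicator_const hEm]
        rw [e2, ← lintegral_mul_const' _ _ ENNReal.ofReal_ne_top,
          ← lintegral_const_mul' _ _ ENNReal.ofReal_ne_top]
        refine lintegral_mono fun m => ?_
        simp only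
        by_cases hm : m ∈ E
        · have hm' : ql (l x) (x - m) ≤ 1 := by
            rw [hE] at hm
            rw [← hq]
            exact hm
          have e3 := slow x hx m hm'
          have e4 : qf (g m) (x - m) ≤ a := by
            rw [hq]
            refine ((e3 _).2).trans ?_
            calc a * ql (l x) (x - m) ≤ a * 1 := mul_le_mul_of_nonneg_left hm' ha0.le
              _ = a := mul_one a
          have e5 : |(g x).det| ≤ a ^ n * |(g m).det| := by
            have e6 : (a • g m).det ≠ 0 := by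
              rw [det_smul']
              exact mul_ne_zero (pow_ne_zero _ ha0.ne') (hdet m)
            have e7 := det_mono (hdet x) e6 fun v => by
              rw [qf_smul, hq, hq]
              refine ((e3 v).1).trans ?_
              have e8 : 0 ≤ ql (l m) v := by
                rw [← hq]
                exact qf_nonneg _ _
              have : a ≤ a ^ 2 := by nlinarith
              exact mul_le_mul_of_nonneg_right this e8
            rw [det_smul', abs_mul, abs_of_pos (pow_pos ha0 _), ← hn] at e7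
            exact e7
          rw [Set.indicator_of_mem hm, kap, if_pos e4]
          calc ENNReal.ofReal (F1 x) * ENNReal.ofReal |(g x).det|
              ≤ ENNReal.ofReal (F2 m) * ENNReal.ofReal (a ^ n * |(g m).det|) :=
                mul_le_mul' (ENNReal.ofReal_le_ofReal (dom x hx m hm'))
                  (ENNReal.ofReal_le_ofReal e5)
            _ = ENNReal.ofReal (a ^ n) * (ENNReal.ofReal (F2 m) *
                  ENNReal.ofReal |(g m).det|) := by
                rw [ENNReal.ofReal_mul (by positivity)]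
                ring
        · rw [Set.indicator_of_notMem hm, zero_mul]
          exact bot_le
      have e9 : ENNReal.ofReal ((2 / ((n : ℝ) + 1)) ^ n) ≤
          volume E * ENNReal.ofReal |(g x).det| := by
        refine le_trans (le_of_eq ?_) (mul_le_mul' hvol le_rfl)
        rw [← ENNReal.ofReal_mul (by positivity)]
        congr 1
        field_simp
      calc ENNReal.ofReal (F1 x)
          = ENNReal.ofReal ((((n : ℝ) + 1) / 2) ^ n) * (ENNReal.ofReal (F1 x) *
              ENNReal.ofReal ((2 / ((n : ℝ) + 1)) ^ n)) := by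
            rw [mul_comm (ENNReal.ofReal (F1 x)), ← mul_assoc, ← ENNReal.ofReal_mul (by positivity),
              ← mul_pow]
            have : ((n : ℝ) + 1) / 2 * (2 / ((n : ℝ) + 1)) = 1 := by field_simp
            rw [this, one_pow, ENNReal.ofReal_one, one_mul]
        _ ≤ ENNReal.ofReal ((((n : ℝ) + 1) / 2) ^ n) * (ENNReal.ofReal (F1 x) *
              (volume E * ENNReal.ofReal |(g x).det|)) := by gcongr
        _ ≤ ENNReal.ofReal ((((n : ℝ) + 1) / 2) ^ n) * (ENNReal.ofReal (a ^ n) *
              ∫⁻ m, ENNReal.ofReal (F2 m) * kap g a x m) := by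
            rw [← mul_assoc (ENNReal.ofReal (F1 x))]
            gcongr
        _ ≤ _ := by
            rw [← mul_assoc, ← ENNReal.ofReal_mul (by positivity), ← mul_pow]
            refine mul_le_mul' (ENNReal.ofReal_le_ofReal ?_) le_rfl
            refine pow_le_pow_left₀ (by positivity) ?_ n
            exact mul_le_mul_of_nonneg_right (by linarith) ha0.le
    · rw [ENNReal.ofReal_of_nonpos (hS x hx)]
      exact bot_le
  have hNn : ∀ m, ((nb (dl (g m)) 0 1).ncard : ℝ) ≤ 1 +
      ((dq (ql (l m)) (Real.sqrt (Fintype.card ι))).ncard : ℝ) := by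
    intro m
    have h := nb_le_dq (hdet m) (R := 1) (ρ := Real.sqrt (Fintype.card ι)) (Real.sqrt_nonneg _)
      (by rw [Real.sq_sqrt (by positivity)]; simp)
    rw [hq] at h
    exact h
  calc ∑' x : ι → ℤ, ENNReal.ofReal (F1 (zr x))
      ≤ ∑' x : ι → ℤ, ENNReal.ofReal ((((n : ℝ) + 1) * a) ^ n) *
          ∫⁻ m, ENNReal.ofReal (F2 m) * kap g a (zr x) m := ENNReal.tsum_le_tsum fun x => h1 _
    _ = ENNReal.ofReal ((((n : ℝ) + 1) * a) ^ n) *
          ∫⁻ m, ∑' x : ι → ℤ, ENNReal.ofReal (F2 m) * kap g a (zr x) m := by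
        have hme : ∀ x : ι → ℤ, AEMeasurable (fun m => ENNReal.ofReal (F2 m) *
            kap g a (zr x) m) volume := fun x => (hF2.ennreal_ofReal.mul (hkm _)).aemeasurable
        rw [ENNReal.tsum_mul_left, ← lintegral_tsum hme]
    _ ≤ ENNReal.ofReal ((((n : ℝ) + 1) * a) ^ n) *
          ∫⁻ m, ENNReal.ofReal (((2 * a + 1) * (3 * Real.exp Real.pi)) ^ n) *
            (ENNReal.ofReal (F2 m) *
              (1 + ((dq (ql (l m)) (Real.sqrt (Fintype.card ι))).ncard : ℝ≥0∞))) := by
        refine mul_le_mul' le_rfl (lintegral_mono fun m => ?_)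
        simp only
        rw [ENNReal.tsum_mul_left]
        have h2 := tsum_kap_le hdet ha m
        have h3 : ENNReal.ofReal ((2 * a + 1) ^ Fintype.card ι *
            (3 * Real.exp Real.pi) ^ Fintype.card ι * (nb (dl (g m)) 0 1).ncard) ≤
            ENNReal.ofReal (((2 * a + 1) * (3 * Real.exp Real.pi)) ^ n) *
              (1 + ((dq (ql (l m)) (Real.sqrt (Fintype.card ι))).ncard : ℝ≥0∞)) := by
          have h4 : (1 : ℝ≥0∞) + ((dq (ql (l m)) (Real.sqrt (Fintype.card ι))).ncard : ℝ≥0∞) =
              ENNReal.ofReal (1 + ((dq (ql (l m)) (Real.sqrt (Fintype.card ι))).ncard : ℝ)) := by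
            rw [ENNReal.ofReal_add (by norm_num) (by positivity), ENNReal.ofReal_one,
              ENNReal.ofReal_natCast]
          rw [h4, ← ENNReal.ofReal_mul (by positivity)]
          apply ENNReal.ofReal_le_ofReal
          rw [← mul_pow]
          have h5 := mul_le_mul_of_nonneg_left (hNn m) (show (0 : ℝ) ≤ ((2 * a + 1) *
            (3 * Real.exp Real.pi)) ^ Fintype.card ι by positivity)
          rw [hn]
          exact h5
        calc ENNReal.ofReal (F2 m) * ∑' x : ι → ℤ, kap g a (zr x) m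
            ≤ ENNReal.ofReal (F2 m) * (ENNReal.ofReal (((2 * a + 1) *
              (3 * Real.exp Real.pi)) ^ n) *
              (1 + ((dq (ql (l m)) (Real.sqrt (Fintype.card ι))).ncard : ℝ≥0∞))) :=
              mul_le_mul' le_rfl (h2.trans h3)
          _ = _ := by ring
    _ = _ := by
        rw [lintegral_const_mul' _ _ ENNReal.ofReal_ne_top, ← mul_assoc,
          ← ENNReal.ofReal_mul (by positivity), ← mul_pow, hn]
        congr 3
        ring

end Pool.Agent.Helper96_GN
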