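import Pool.Agent.Helper96_GN.Gauss

/-!
# Lattice points in boxes: covering and duality
-/

set_option autoImplicit false

set_option linter.unusedSectionVars false

open MeasureTheory Filter Topology Set Function Matrix

open scoped BigOperators ENNReal

noncomputable section

namespace Pool.Agent.Helper96_GN

variable {ι : Type*} [Fintype ι] [DecidableEq ι]

/-- integer points `m` with `|g m - v| ≤ R` in the maximum norm -/
def nb (g : Matrix ι ι ℝ) (v : ι → ℝ) (R : ℝ) : Set (ι → ℤ) :=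
  {m | ∀ i, |g.mulVec (zr m) i - v i| ≤ R}

theorem mem_nb {g : Matrix ι ι ℝ} {v : ι → ℝ} {R : ℝ} {m : ι → ℤ} :
    m ∈ nb g v R ↔ ∀ i, |g.mulVec (zr m) i - v i| ≤ R := Iff.rfl

theorem mulVec_sub_inv {g : Matrix ι ι ℝ} (hg : g.det ≠ 0) (m : ι → ℤ) (v : ι → ℝ) (i : ι) :
    g.mulVec (zr m - g⁻¹.mulVec v) i = g.mulVec (zr m) i - v i := by
  rw [Matrix.mulVec_sub, Matrix.mulVec_mulVec,
    Matrix.mul_nonsing_inv g (isUnit_iff_ne_zero.2 hg), Matrix.one_mulVec]
  rfl

theorem exp_le_of_mem {g : Matrix ι ι ℝ} (hg : g.det ≠ 0) {v : ι → ℝ} {R : ℝ} {m : ι → ℤ}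
    (h : m ∈ nb g v R) : Real.exp (-(Real.pi * (Fintype.card ι * R ^ 2))) ≤
      Real.exp (-(Real.pi * qf g (zr m - g⁻¹.mulVec v))) := by
  apply Real.exp_le_exp.2
  apply neg_le_neg
  refine mul_le_mul_of_nonneg_left ?_ Real.pi_pos.le
  rw [qf]
  calc ∑ i, (g.mulVec (zr m - g⁻¹.mulVec v) i) ^ 2 ≤ ∑ _i : ι, R ^ 2 := by
        refine Finset.sum_le_sum fun i _ => ?_
        rw [mulVec_sub_inv hg, ← sq_abs]
        exact pow_le_pow_left₀ (abs_nonneg _) (h i) 2
    _ = Fintype.card ι * R ^ 2 := by simp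

theorem nb_finite {g : Matrix ι ι ℝ} (hg : g.det ≠ 0) (v : ι → ℝ) (R : ℝ) :
    (nb g v R).Finite := by
  have h1 := (summable_gauss hg (g⁻¹.mulVec v)).tendsto_cofinite_zero
  have h2 : ∀ᶠ m : ι → ℤ in cofinite, Real.exp (-(Real.pi * qf g (zr m - g⁻¹.mulVec v))) <
      Real.exp (-(Real.pi * (Fintype.card ι * R ^ 2))) :=
    h1.eventually_lt_const (Real.exp_pos _)
  rw [Filter.eventually_cofinite] at h2
  refine h2.subset fun m hm => ?_
  rw [Set.mem_ofPred_eq, not_lt]
  exact exp_le_of_mem hg hm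

theorem sub_mem_nb {g : Matrix ι ι ℝ} {m m' : ι → ℤ}
    (h : ∀ i, |g.mulVec (zr m) i - g.mulVec (zr m') i| ≤ 1) : m - m' ∈ nb g 0 1 := by
  intro i
  rw [zr_sub, Matrix.mulVec_sub]
  simpa using h i

/-- a set with differences in the box -/
theorem ncard_le_of_close {g : Matrix ι ι ℝ} (hg : g.det ≠ 0) {S : Set (ι → ℤ)}
    (h : ∀ m ∈ S, ∀ m' ∈ S, ∀ i, |g.mulVec (zr m) i - g.mulVec (zr m') i| ≤ 1) :
    S.Finite ∧ S.ncard ≤ (nb g 0 1).ncard := by
  rcases S.eq_empty_or_nonempty with h0 | ⟨m₀, h0⟩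
  · subst h0
    simp
  · have h1 : Set.MapsTo (fun m => m - m₀) S (nb g 0 1) := fun m hm => sub_mem_nb (h m hm m₀ h0)
    have h2 : Set.InjOn (fun m => m - m₀) S := fun a _ b _ hab => sub_left_injective hab
    exact ⟨(nb_finite hg 0 1).of_injOn h1 h2,
      Set.ncard_le_ncard_of_injOn _ h1 h2 (nb_finite hg 0 1)⟩

/-- covering -/
theorem cover {g : Matrix ι ι ℝ} (hg : g.det ≠ 0) (v : ι → ℝ) {R : ℝ} (hR : 0 ≤ R) :
    ((nb g v R).ncard : ℝ) ≤ (2 * R + 1) ^ Fintype.card ι * (nb g 0 1).ncard := by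
  classical
  obtain ⟨S, hS⟩ : ∃ S : Finset (ι → ℤ), S = (nb_finite hg v R).toFinset := ⟨_, rfl⟩
  have hSm : ∀ m, m ∈ S ↔ m ∈ nb g v R := by
    intro m
    rw [hS, Set.Finite.mem_toFinset]
  have hc : (nb g v R).ncard = S.card := by
    rw [hS, Set.ncard_eq_toFinset_card _ (nb_finite hg v R)]
  obtain ⟨T, hT⟩ : ∃ T : Finset (ι → ℤ), T = Fintype.piFinset fun _ =>
    Finset.Icc (0 : ℤ) ⌊2 * R⌋ := ⟨_, rfl⟩
  have h1 : ∀ m ∈ S, (fun i => ⌊g.mulVec (zr m) i - v i + R⌋) ∈ T := by
    intro m hm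
    rw [hT, Fintype.mem_piFinset]
    intro i
    have h2 := abs_le.1 ((hSm m).1 hm i)
    rw [Finset.mem_Icc]
    constructor
    · rw [Int.floor_nonneg]
      linarith
    · exact Int.floor_le_floor (by linarith)
  have h2 := Finset.card_le_mul_card_image_of_maps_to h1 (nb g 0 1).ncard (by
    intro j _
    have h3 : ∀ m ∈ (↑(S.filter fun m => (fun i => ⌊g.mulVec (zr m) i - v i + R⌋) = j) :
        Set (ι → ℤ)), ∀ m' ∈ (↑(S.filter fun m => (fun i =>
        ⌊g.mulVec (zr m) i - v i + R⌋) = j) : Set (ι → ℤ)), ∀ i,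
        |g.mulVec (zr m) i - g.mulVec (zr m') i| ≤ 1 := by
      intro m hm m' hm' i
      rw [Finset.mem_coe, Finset.mem_filter] at hm hm'
      have e1 : ⌊g.mulVec (zr m) i - v i + R⌋ = j i := congrFun hm.2 i
      have e2 : ⌊g.mulVec (zr m') i - v i + R⌋ = j i := congrFun hm'.2 i
      have e3 := Int.floor_le (g.mulVec (zr m) i - v i + R)
      have e4 := Int.lt_floor_add_one (g.mulVec (zr m) i - v i + R)
      have e5 := Int.floor_le (g.mulVec (zr m') i - v i + R)
      have e6 := Int.lt_floor_add_one (g.mulVec (zr m') i - v i + R)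
      rw [e1] at e3 e4
      rw [e2] at e5 e6
      rw [abs_le]
      constructor <;> linarith
    have h4 := (ncard_le_of_close hg h3).2
    rwa [Set.ncard_coe_finset] at h4)
  rw [hc]
  have h3 : (T.card : ℝ) ≤ (2 * R + 1) ^ Fintype.card ι := by
    rw [hT, Fintype.card_piFinset]
    simp only [Int.card_Icc, sub_zero, Finset.prod_const, Finset.card_univ]
    push_cast
    refine pow_le_pow_left₀ (by positivity) ?_ _
    have h4 : (0 : ℤ) ≤ ⌊2 * R⌋ := Int.floor_nonneg.2 (by linarith)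
    have h5 : (((⌊2 * R⌋ + 1).toNat : ℤ) : ℝ) = (⌊2 * R⌋ : ℝ) + 1 := by
      rw [Int.toNat_of_nonneg (by omega)]
      push_cast
      ring
    have h6 : (((⌊2 * R⌋ + 1).toNat : ℕ) : ℝ) = (⌊2 * R⌋ : ℝ) + 1 := by exact_mod_cast h5
    rw [h6]
    linarith [Int.floor_le (2 * R)]
  calc (S.card : ℝ) ≤ (nb g 0 1).ncard * T.card := by exact_mod_cast h2
    _ ≤ (nb g 0 1).ncard * (2 * R + 1) ^ Fintype.card ι :=
        mul_le_mul_of_nonneg_left h3 (by positivity)
    _ = _ := by ring

/-- lower bound of the theta series by the number of points -/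
theorem ncard_le_th {g : Matrix ι ι ℝ} (hg : g.det ≠ 0) :
    ((nb g 0 1).ncard : ℝ) ≤ Real.exp (Real.pi * Fintype.card ι) * th g := by
  classical
  obtain ⟨S, hS⟩ : ∃ S : Finset (ι → ℤ), S = (nb_finite hg 0 1).toFinset := ⟨_, rfl⟩
  have hc : (nb g 0 1).ncard = S.card := by
    rw [hS, Set.ncard_eq_toFinset_card _ (nb_finite hg 0 1)]
  have h1 : (S.card : ℝ) * Real.exp (-(Real.pi * Fintype.card ι)) ≤ th g := by
    calc (S.card : ℝ) * Real.exp (-(Real.pi * Fintype.card ι))
        = ∑ m ∈ S, Real.exp (-(Real.pi * Fintype.card ι)) := by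
          rw [Finset.sum_const, nsmul_eq_mul]
      _ ≤ ∑ m ∈ S, Real.exp (-(Real.pi * qf g (zr m))) := by
          refine Finset.sum_le_sum fun m hm => ?_
          have h2 : m ∈ nb g 0 1 := by
            rw [hS, Set.Finite.mem_toFinset] at hm
            exact hm
          have h3 := exp_le_of_mem hg h2
          simpa using h3
      _ ≤ th g := (summable_gauss_zero hg).sum_le_tsum _ fun m _ => (Real.exp_pos _).le
  rw [hc]
  have h2 : Real.exp (Real.pi * Fintype.card ι) * Real.exp (-(Real.pi * Fintype.card ι)) = 1 := by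
    rw [← Real.exp_add, add_neg_cancel, Real.exp_zero]
  calc (S.card : ℝ) = Real.exp (Real.pi * Fintype.card ι) *
        ((S.card : ℝ) * Real.exp (-(Real.pi * Fintype.card ι))) := by
        linear_combination (-(S.card : ℝ)) * h2
    _ ≤ _ := mul_le_mul_of_nonneg_left h1 (Real.exp_pos _).le

/-- the distance of the unit interval at `z` from `0` -/
def dz (z : ℤ) : ℝ := if 0 ≤ z then (z : ℝ) else -((z : ℝ) + 1)

theorem dz_nonneg (z : ℤ) : 0 ≤ dz z := by
  unfold dz
  split_ifs with h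
  · exact_mod_cast h
  · have : z + 1 ≤ 0 := by omega
    have : (z : ℝ) + 1 ≤ 0 := by exact_mod_cast this
    linarith

theorem dz_sq_le (x : ℝ) : dz ⌊x⌋ ^ 2 ≤ x ^ 2 := by
  have h1 := Int.floor_le x
  have h2 := Int.lt_floor_add_one x
  have h3 := dz_nonneg ⌊x⌋
  unfold dz at *
  split_ifs at * with h
  · nlinarith
  · nlinarith

theorem exp_neg_pi_le : Real.exp (-Real.pi) ≤ 1 / 3 := by
  rw [Real.exp_neg, one_div]
  apply inv_anti₀ (by norm_num)
  have := Real.add_one_le_exp Real.pi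
  linarith [Real.pi_gt_three]

theorem tsum_nat_exp_le : ∑' n : ℕ, ENNReal.ofReal (Real.exp (-(Real.pi * (n : ℝ) ^ 2))) ≤
    ENNReal.ofReal (3 / 2) := by
  calc ∑' n : ℕ, ENNReal.ofReal (Real.exp (-(Real.pi * (n : ℝ) ^ 2)))
      ≤ ∑' n : ℕ, (ENNReal.ofReal (1 / 3)) ^ n := by
        refine ENNReal.tsum_le_tsum fun n => ?_
        rw [← ENNReal.ofReal_pow (by norm_num)]
        apply ENNReal.ofReal_le_ofReal
        calc Real.exp (-(Real.pi * (n : ℝ) ^ 2)) ≤ Real.exp (n * (-Real.pi)) := by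
              apply Real.exp_le_exp.2
              have h3 : (n : ℝ) ≤ (n : ℝ) ^ 2 := by
                have : n ≤ n ^ 2 := Nat.le_self_pow two_ne_zero n
                exact_mod_cast this
              nlinarith [Real.pi_pos]
          _ = Real.exp (-Real.pi) ^ n := Real.exp_nat_mul _ _
          _ ≤ (1 / 3) ^ n := pow_le_pow_left₀ (Real.exp_pos _).le exp_neg_pi_le n
    _ = (1 - ENNReal.ofReal (1 / 3))⁻¹ := ENNReal.tsum_geometric _
    _ ≤ ENNReal.ofReal (3 / 2) := by
        rw [← ENNReal.ofReal_one, ← ENNReal.ofReal_sub _ (by norm_num),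
          ← ENNReal.ofReal_inv_of_pos (by norm_num)]
        exact ENNReal.ofReal_le_ofReal (by norm_num)

theorem tsum_dz_le : ∑' z : ℤ, ENNReal.ofReal (Real.exp (-(Real.pi * dz z ^ 2))) ≤ 3 := by
  have h1 := HasSum.of_nat_of_neg_add_one
    (f := fun z : ℤ => ENNReal.ofReal (Real.exp (-(Real.pi * dz z ^ 2))))
    ENNReal.summable.hasSum ENNReal.summable.hasSum
  rw [h1.tsum_eq]
  have e1 : ∀ n : ℕ, dz (n : ℤ) = n := by
    intro n
    rw [dz, if_pos (by positivity)]
    push_cast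
    rfl
  have e2 : ∀ n : ℕ, dz (-((n : ℤ) + 1)) = n := by
    intro n
    rw [dz, if_neg (by omega)]
    push_cast
    ring
  simp only [e1, e2]
  calc _ ≤ ENNReal.ofReal (3 / 2) + ENNReal.ofReal (3 / 2) :=
        add_le_add tsum_nat_exp_le tsum_nat_exp_le
    _ = 3 := by
        rw [← ENNReal.ofReal_add (by norm_num) (by norm_num)]
        norm_num

/-- upper bound of the theta series by the number of points -/
theorem th_le_ncard {g : Matrix ι ι ℝ} (hg : g.det ≠ 0) :
    th g ≤ 3 ^ Fintype.card ι * (nb g 0 1).ncard := by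
  have h1 : ENNReal.ofReal (th g) ≤
      ENNReal.ofReal (3 ^ Fintype.card ι * (nb g 0 1).ncard) := by
    rw [th, ENNReal.ofReal_tsum_of_nonneg (fun _ => (Real.exp_pos _).le) (summable_gauss_zero hg),
      ← ENNReal.tsum_fiberwise _ fun m : ι → ℤ => fun i => ⌊g.mulVec (zr m) i⌋]
    calc ∑' j : ι → ℤ, ∑' m : (fun m : ι → ℤ => fun i => ⌊g.mulVec (zr m) i⌋) ⁻¹' {j},
          ENNReal.ofReal (Real.exp (-(Real.pi * qf g (zr (m : ι → ℤ)))))
        ≤ ∑' j : ι → ℤ, (((nb g 0 1).ncard : ℕ) : ℝ≥0∞) *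
            ∏ i, ENNReal.ofReal (Real.exp (-(Real.pi * dz (j i) ^ 2))) := by
          refine ENNReal.tsum_le_tsum fun j => ?_
          have h3 := ncard_le_of_close hg
            (S := (fun m : ι → ℤ => fun i => ⌊g.mulVec (zr m) i⌋) ⁻¹' {j}) (by
            intro m hm m' hm' i
            have e1 : ⌊g.mulVec (zr m) i⌋ = j i := congrFun hm i
            have e2 : ⌊g.mulVec (zr m') i⌋ = j i := congrFun hm' i
            have e3 := Int.floor_le (g.mulVec (zr m) i)
            have e4 := Int.lt_floor_add_one (g.mulVec (zr m) i)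
            have e5 := Int.floor_le (g.mulVec (zr m') i)
            have e6 := Int.lt_floor_add_one (g.mulVec (zr m') i)
            rw [e1] at e3 e4
            rw [e2] at e5 e6
            rw [abs_le]
            constructor <;> linarith)
          calc ∑' m : (fun m : ι → ℤ => fun i => ⌊g.mulVec (zr m) i⌋) ⁻¹' {j},
                ENNReal.ofReal (Real.exp (-(Real.pi * qf g (zr (m : ι → ℤ)))))
              ≤ ∑' _m : (fun m : ι → ℤ => fun i => ⌊g.mulVec (zr m) i⌋) ⁻¹' {j},
                  ∏ i, ENNReal.ofReal (Real.exp (-(Real.pi * dz (j i) ^ 2))) := by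
                refine ENNReal.tsum_le_tsum fun m => ?_
                rw [← ENNReal.ofReal_prod_of_nonneg fun i _ => (Real.exp_pos _).le,
                  ← Real.exp_sum]
                apply ENNReal.ofReal_le_ofReal
                apply Real.exp_le_exp.2
                rw [Finset.sum_neg_distrib, ← Finset.mul_sum]
                apply neg_le_neg
                refine mul_le_mul_of_nonneg_left ?_ Real.pi_pos.le
                rw [qf]
                refine Finset.sum_le_sum fun i _ => ?_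
                have e1 : ⌊g.mulVec (zr (m : ι → ℤ)) i⌋ = j i := congrFun m.2 i
                rw [← e1]
                exact dz_sq_le _
            _ = ((fun m : ι → ℤ => fun i => ⌊g.mulVec (zr m) i⌋) ⁻¹' {j}).encard *
                  ∏ i, ENNReal.ofReal (Real.exp (-(Real.pi * dz (j i) ^ 2))) :=
                ENNReal.tsum_set_const _ _
            _ ≤ _ := by
                refine mul_le_mul' ?_ le_rfl
                rw [← h3.1.cast_ncard_eq]
                exact_mod_cast h3.2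
      _ = (((nb g 0 1).ncard : ℕ) : ℝ≥0∞) *
            ∑' j : ι → ℤ, ∏ i, ENNReal.ofReal (Real.exp (-(Real.pi * dz (j i) ^ 2))) :=
          ENNReal.tsum_mul_left
      _ ≤ (((nb g 0 1).ncard : ℕ) : ℝ≥0∞) * 3 ^ Fintype.card ι := by
          refine mul_le_mul' le_rfl ?_
          refine (tsum_pi_le fun _ z => ENNReal.ofReal (Real.exp (-(Real.pi * dz z ^ 2)))).trans ?_
          rw [Finset.prod_const, Finset.card_univ]
          exact pow_le_pow_left' tsum_dz_le _
      _ = ENNReal.ofReal (3 ^ Fintype.card ι * (nb g 0 1).ncard) := by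
          rw [ENNReal.ofReal_mul (by positivity), ENNReal.ofReal_natCast,
            ENNReal.ofReal_pow (by norm_num), mul_comm]
          norm_num
  exact (ENNReal.ofReal_le_ofReal_iff (by positivity)).1 h1

/-- duality -/
theorem duality {g : Matrix ι ι ℝ} (hg : g.det ≠ 0) :
    ((nb g 0 1).ncard : ℝ) ≤ (3 * Real.exp Real.pi) ^ Fintype.card ι * |g.det|⁻¹ *
      (nb (dl g) 0 1).ncard := by
  have h1 := ncard_le_th hg
  have h2 := th_inv hg
  have h3 := th_le_ncard (det_dl_ne hg)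
  have h4 : Real.exp (Real.pi * Fintype.card ι) = Real.exp Real.pi ^ Fintype.card ι := by
    rw [mul_comm, Real.exp_nat_mul]
  calc ((nb g 0 1).ncard : ℝ) ≤ Real.exp (Real.pi * Fintype.card ι) * th g := h1
    _ = Real.exp Real.pi ^ Fintype.card ι * (|g.det|⁻¹ * th (dl g)) := by rw [h2, h4]
    _ ≤ Real.exp Real.pi ^ Fintype.card ι *
        (|g.det|⁻¹ * (3 ^ Fintype.card ι * (nb (dl g) 0 1).ncard)) := by gcongr
    _ = _ := by
        rw [mul_pow]
        ring

end Pool.Agent.Helper96_GN
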