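import Pool.Agent.Helper96_GN.R6

/-!
# Duality of lattice point counts on `R6`
-/

set_option autoImplicit false

set_option linter.unusedSectionVars false

open MeasureTheory Filter Topology Set Function Matrix

open scoped BigOperators ENNReal

noncomputable section

namespace Pool.Agent.Helper96_GN

open Pool.Agent.F5S

section general

variable {ι : Type*} [Fintype ι] [DecidableEq ι]

/-- a box with sides `P i ≥ 1` is covered by `∏ (4 P i)` translates of the unit box -/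
theorem ncard_box_le {g : Matrix ι ι ℝ} (hg : g.det ≠ 0) {P : ι → ℝ} (hP : ∀ i, 1 ≤ P i) :
    ({m : ι → ℤ | ∀ i, |g.mulVec (zr m) i| ≤ P i}.ncard : ℝ) ≤
      (∏ i, (4 * P i)) * (nb g 0 1).ncard := by
  classical
  set S : Set (ι → ℤ) := {m : ι → ℤ | ∀ i, |g.mulVec (zr m) i| ≤ P i} with hS
  set I : Finset (ι → ℤ) := Fintype.piFinset fun i => Finset.Icc (-⌊P i⌋ - 1) ⌊P i⌋ with hI
  set fl : (ι → ℤ) → (ι → ℤ) := fun m i => ⌊g.mulVec (zr m) i⌋ with hfl
  have hSfin : S.Finite := by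
    obtain ⟨B, hB⟩ : ∃ B : ℝ, ∀ i, P i ≤ B := by
      by_cases h : Nonempty ι
      · obtain ⟨i, hi⟩ := Finite.exists_max P
        exact ⟨P i, hi⟩
      · exact ⟨0, fun i => (h ⟨i⟩).elim⟩
    refine (nb_finite hg 0 B).subset fun m hm i => ?_
    simpa using (hm i).trans (hB i)
  have hmap : ∀ m ∈ S, fl m ∈ I := by
    intro m hm
    rw [hI, Fintype.mem_piFinset]
    intro i
    have h1 := abs_le.1 (hm i)
    rw [Finset.mem_Icc]
    constructor
    · rw [Int.le_floor]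
      push_cast
      have := Int.lt_floor_add_one (P i)
      linarith
    · exact Int.floor_le_floor h1.2
  have hcov : S ⊆ ⋃ c ∈ I, (S ∩ {m | fl m = c}) := by
    intro m hm
    simp only [Set.mem_iUnion]
    exact ⟨fl m, hmap m hm, hm, rfl⟩
  have hone : ∀ c ∈ I, (S ∩ {m | fl m = c}).ncard ≤ (nb g 0 1).ncard := by
    intro c _
    refine (ncard_le_of_close hg fun m hm m' hm' i => ?_).2
    have e1 : fl m i = c i := congrFun hm.2 i
    have e2 : fl m' i = c i := congrFun hm'.2 i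
    have h1 := Int.floor_le (g.mulVec (zr m) i)
    have h2 := Int.lt_floor_add_one (g.mulVec (zr m) i)
    have h3 := Int.floor_le (g.mulVec (zr m') i)
    have h4 := Int.lt_floor_add_one (g.mulVec (zr m') i)
    have e1' : (⌊g.mulVec (zr m) i⌋ : ℝ) = c i := by exact_mod_cast e1
    have e2' : (⌊g.mulVec (zr m') i⌋ : ℝ) = c i := by exact_mod_cast e2
    rw [abs_le]
    constructor <;> linarith
  have hcard : (S.ncard : ℝ) ≤ (I.card : ℝ) * (nb g 0 1).ncard := by
    have h1 : S.ncard ≤ ∑ c ∈ I, (S ∩ {m | fl m = c}).ncard := by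
      calc S.ncard ≤ (⋃ c ∈ I, (S ∩ {m | fl m = c})).ncard :=
            Set.ncard_le_ncard hcov (Set.Finite.biUnion I.finite_toSet
              fun c _ => hSfin.subset Set.inter_subset_left)
        _ ≤ ∑ c ∈ I, (S ∩ {m | fl m = c}).ncard := Finset.set_ncard_biUnion_le _ _
    have h2 : ∑ c ∈ I, (S ∩ {m | fl m = c}).ncard ≤ I.card * (nb g 0 1).ncard := by
      rw [← smul_eq_mul, ← Finset.sum_const]
      exact Finset.sum_le_sum hone
    exact_mod_cast h1.trans h2
  refine hcard.trans (mul_le_mul_of_nonneg_right ?_ (Nat.cast_nonneg _))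
  rw [hI, Fintype.card_piFinset]
  push_cast
  refine Finset.prod_le_prod (fun i _ => Nat.cast_nonneg _) fun i _ => ?_
  have hf : 0 ≤ ⌊P i⌋ := Int.floor_nonneg.2 (le_trans zero_le_one (hP i))
  rw [Int.card_Icc]
  have e : ((⌊P i⌋ + 1 - (-⌊P i⌋ - 1)).toNat : ℝ) = 2 * (⌊P i⌋ : ℝ) + 2 := by
    have h : (0 : ℤ) ≤ ⌊P i⌋ + 1 - (-⌊P i⌋ - 1) := by linarith
    have h' : (((⌊P i⌋ + 1 - (-⌊P i⌋ - 1)).toNat : ℤ) : ℝ) =
        ((⌊P i⌋ + 1 - (-⌊P i⌋ - 1) : ℤ) : ℝ) := by rw [Int.toNat_of_nonneg h]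
    rw [Int.cast_natCast] at h'
    rw [h']
    push_cast
    ring
  rw [e]
  have := Int.floor_le (P i)
  have := hP i
  linarith

/-- duality for a dual pair of bases: `g` and `w` inverse matrices -/
theorem duality_inv {g w : Matrix ι ι ℝ} (hgw : g * w = 1) :
    ({k : ι → ℤ | ∀ i, |∑ j, w j i * (k j : ℝ)| ≤ 1}.ncard : ℝ) ≤
      (3 * Real.exp Real.pi) ^ Fintype.card ι * |g.det| *
        ({m : ι → ℤ | ∀ i, |g.mulVec (zr m) i| ≤ 1}.ncard : ℝ) := by
  have hd : g.det * w.det = 1 := by rw [← Matrix.det_mul, hgw, Matrix.det_one]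
  have hg : g.det ≠ 0 := left_ne_zero_of_mul_eq_one hd
  have hinv : g⁻¹ = w := Matrix.inv_eq_right_inv hgw
  have h := duality (det_dl_ne hg)
  have e1 : {k : ι → ℤ | ∀ i, |∑ j, w j i * (k j : ℝ)| ≤ 1} = nb (dl g) 0 1 := by
    ext k
    rw [mem_nb]
    refine forall_congr' fun i => ?_
    have : (dl g).mulVec (zr k) i = ∑ j, w j i * (k j : ℝ) := by
      rw [dl, hinv]
      rfl
    rw [this]
    simp
  have e2 : {m : ι → ℤ | ∀ i, |g.mulVec (zr m) i| ≤ 1} = nb (dl (dl g)) 0 1 := by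
    ext k
    rw [mem_nb]
    refine forall_congr' fun i => ?_
    have : dl (dl g) = g := by
      rw [dl, dl, Matrix.transpose_nonsing_inv, Matrix.transpose_transpose,
        Matrix.nonsing_inv_nonsing_inv _ (isUnit_iff_ne_zero.2 hg)]
    rw [this]
    simp
  have e3 : |(dl g).det|⁻¹ = |g.det| := by
    rw [det_dl, abs_inv, inv_inv]
  rw [e1, e2]
  rw [e3] at h
  exact h

end general

/-! ## Linear forms on `R6` -/

section six

variable {J : Type*} [Fintype J] [DecidableEq J]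

/-- the integer points of the box of a family of forms -/
def bx6 (l : J → R6 →ₗ[ℝ] ℝ) (a : J → ℝ) : Set Z6 := {t | ∀ j, |l j (r3 t)| ≤ a j}

/-- the integer points of the dual box -/
def kb6 (v : J → R6) (a : J → ℝ) : Set Z6 := {k | ∀ j, |dot6 k (v j)| ≤ a j}

/-- the matrix of six forms -/
def mt6 (l : I6 → R6 →ₗ[ℝ] ℝ) : Matrix I6 I6 ℝ := Matrix.of fun i j => l i (of6 (Pi.single j 1))

theorem mt6_mulVec (l : I6 → R6 →ₗ[ℝ] ℝ) (x : I6 → ℝ) (i : I6) :
    (mt6 l).mulVec x i = l i (of6 x) := by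
  have h : x = ∑ j, x j • (Pi.single j (1 : ℝ) : I6 → ℝ) := by
    funext k
    simp [Finset.sum_apply, Pi.single_apply]
  conv_rhs => rw [h]
  rw [map_sum, map_sum]
  simp only [mt6, Matrix.mulVec, dotProduct, Matrix.of_apply, map_smul, smul_eq_mul]
  exact Finset.sum_congr rfl fun j _ => mul_comm _ _

/-- **Duality.** `l` six linear forms, `v` the dual basis. -/
theorem dual6 (l : I6 → R6 →ₗ[ℝ] ℝ) (v : I6 → R6)
    (hlv : ∀ i j, l i (v j) = if i = j then 1 else 0) {P : I6 → ℝ} (hP : ∀ i, 1 ≤ P i) :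
    (kb6 v P).Finite ∧ (bx6 l fun _ => 1).Finite ∧ (mt6 l).det ≠ 0 ∧
    ((kb6 v P).ncard : ℝ) ≤
      (∏ i, (4 * P i)) * ((3 * Real.exp Real.pi) ^ 6 * |(mt6 l).det|) *
        ((bx6 l fun _ => 1).ncard : ℝ) := by
  set w : Matrix I6 I6 ℝ := Matrix.of fun j i => to6 (v i) j with hw
  have hgw : mt6 l * w = 1 := by
    ext i j
    have h1 : (mt6 l * w) i j = (mt6 l).mulVec (to6 (v j)) i := rfl
    rw [h1, mt6_mulVec, of6_to6, hlv, Matrix.one_apply]
  have hd : (mt6 l).det * w.det = 1 := by rw [← Matrix.det_mul, hgw, Matrix.det_one]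
  have hg : (mt6 l).det ≠ 0 := left_ne_zero_of_mul_eq_one hd
  have hdl : ∀ k : I6 → ℤ, ∀ i, (dl (mt6 l)).mulVec (zr k) i = dot6 (ez k) (v i) := by
    intro k i
    have h1 : (dl (mt6 l)).mulVec (zr k) i = ∑ j, w j i * (k j : ℝ) := by
      rw [dl, Matrix.inv_eq_right_inv hgw]
      rfl
    have h2 := dotz_ez k (to6 (v i))
    rw [of6_to6] at h2
    rw [h1, ← h2, dotz]
    exact Finset.sum_congr rfl fun j _ => mul_comm _ _
  have hkb : ∀ Q : I6 → ℝ, kb6 v Q = ez '' {k | ∀ i, |(dl (mt6 l)).mulVec (zr k) i| ≤ Q i} := by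
    intro Q
    ext t
    constructor
    · intro ht
      refine ⟨ez.symm t, fun i => ?_, ez.apply_symm_apply t⟩
      rw [hdl, ez.apply_symm_apply]
      exact ht i
    · rintro ⟨k, hk, rfl⟩ i
      have := hk i
      rwa [hdl] at this
  have hbx : (bx6 l fun _ => 1) = ez '' {m | ∀ i, |(mt6 l).mulVec (zr m) i| ≤ 1} := by
    ext t
    constructor
    · intro ht
      refine ⟨ez.symm t, fun i => ?_, ez.apply_symm_apply t⟩
      rw [mt6_mulVec, of6_zr, ez.apply_symm_apply]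
      exact ht i
    · rintro ⟨k, hk, rfl⟩ i
      have := hk i
      rwa [mt6_mulVec, of6_zr] at this
  have hfin : ∀ (g : Matrix I6 I6 ℝ), g.det ≠ 0 → ∀ Q : I6 → ℝ,
      {k : I6 → ℤ | ∀ i, |g.mulVec (zr k) i| ≤ Q i}.Finite := by
    intro g hg Q
    obtain ⟨i₀, hi₀⟩ := Finite.exists_max Q
    refine (nb_finite hg 0 (Q i₀)).subset fun m hm i => ?_
    simpa using (hm i).trans (hi₀ i)
  refine ⟨?_, ?_, hg, ?_⟩
  · rw [hkb]
    exact (hfin _ (det_dl_ne hg) P).image _
  · rw [hbx]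
    exact (hfin _ hg fun _ => 1).image _
  · have h1 := ncard_box_le (det_dl_ne hg) hP
    have h2 := duality_inv hgw
    have e1 : {k : I6 → ℤ | ∀ i, |∑ j, w j i * (k j : ℝ)| ≤ 1} = nb (dl (mt6 l)) 0 1 := by
      ext k
      rw [mem_nb]
      refine forall_congr' fun i => ?_
      have : (dl (mt6 l)).mulVec (zr k) i = ∑ j, w j i * (k j : ℝ) := by
        rw [dl, Matrix.inv_eq_right_inv hgw]
        rfl
      rw [this]
      simp
    rw [e1] at h2
    rw [hkb, hbx, Set.ncard_image_of_injective _ ez.injective,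
      Set.ncard_image_of_injective _ ez.injective]
    have hcard : Fintype.card I6 = 6 := rfl
    rw [hcard] at h2
    calc _ ≤ _ := h1
      _ ≤ _ := mul_le_mul_of_nonneg_left h2 (Finset.prod_nonneg fun i _ => by
          have := hP i
          linarith)
      _ = _ := by ring

/-- the determinant of the forms in another basis -/
theorem det_basis (l : I6 → R6 →ₗ[ℝ] ℝ) (b : I6 → R6) :
    (Matrix.of fun i j => l i (b j)).det =
      (mt6 l).det * (Matrix.of fun i j => to6 (b j) i).det := by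
  rw [← Matrix.det_mul]
  congr 1
  ext i j
  have h1 : (mt6 l * Matrix.of fun i j => to6 (b j) i) i j = (mt6 l).mulVec (to6 (b j)) i := rfl
  rw [h1, mt6_mulVec, of6_to6]
  rfl

/-- volume of the box of six forms -/
theorem vol6 (l : I6 → R6 →ₗ[ℝ] ℝ) (hd : (mt6 l).det ≠ 0) :
    volume {w : R6 | ∀ j, |l j w| ≤ 1} = ENNReal.ofReal (64 / |(mt6 l).det|) := by
  have h1 : volume {w : R6 | ∀ j, |l j w| ≤ 1} =
      volume ((of6 : (I6 → ℝ) → R6) ⁻¹' {w : R6 | ∀ j, |l j w| ≤ 1}) := by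
    have := measurePreserving_of6.measure_preimage_emb emb_of6 {w : R6 | ∀ j, |l j w| ≤ 1}
    exact this.symm
  have h2 : (of6 : (I6 → ℝ) → R6) ⁻¹' {w : R6 | ∀ j, |l j w| ≤ 1} =
      (Matrix.toLin' (mt6 l)) ⁻¹' (Set.Icc (-1) 1) := by
    ext x
    simp only [Set.mem_preimage, Set.mem_ofPred_eq, Matrix.toLin'_apply, Set.mem_Icc, Pi.le_def,
      ← forall_and]
    refine forall_congr' fun i => ?_
    rw [mt6_mulVec, abs_le]
    rfl
  have h3 : LinearMap.det (Matrix.toLin' (mt6 l)) ≠ 0 := by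
    rw [LinearMap.det_toLin']
    exact hd
  rw [h1, h2, Measure.addHaar_preimage_linearMap _ h3, LinearMap.det_toLin', Real.volume_Icc_pi]
  have h4 : (∏ i : I6, ENNReal.ofReal ((1 : I6 → ℝ) i - (-1 : I6 → ℝ) i)) =
      ENNReal.ofReal 64 := by
    have : ∀ i : I6, ENNReal.ofReal ((1 : I6 → ℝ) i - (-1 : I6 → ℝ) i) = ENNReal.ofReal 2 := by
      intro i
      congr 1
      simp only [Pi.one_apply, Pi.neg_apply]
      norm_num
    simp only [this, Finset.prod_const]
    have hc : (Finset.univ : Finset I6).card = 6 := rfl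
    rw [hc, ← ENNReal.ofReal_pow (by norm_num)]
    norm_num
  rw [h4, ← ENNReal.ofReal_mul (abs_nonneg _), abs_inv]
  congr 1
  ring

/-- **Duality, volume form**, any six forms and the dual basis. -/
theorem dual6_vol {J : Type*} [Fintype J] [DecidableEq J] (hJ : Fintype.card J = 6)
    (l : J → R6 →ₗ[ℝ] ℝ) (v : J → R6) (hlv : ∀ i j, l i (v j) = if i = j then 1 else 0)
    {P : J → ℝ} (hP : ∀ i, 1 ≤ P i) :
    (kb6 v P).Finite ∧ (bx6 l fun _ => 1).Finite ∧
    ((kb6 v P).ncard : ℝ≥0∞) * volume {w : R6 | ∀ j, |l j w| ≤ 1} ≤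
      ENNReal.ofReal ((∏ i, (4 * P i)) * (64 * (3 * Real.exp Real.pi) ^ 6) *
        ((bx6 l fun _ => 1).ncard : ℝ)) := by
  obtain ⟨e⟩ : Nonempty (I6 ≃ J) := ⟨Fintype.equivOfCardEq (by rw [hJ]; rfl)⟩
  have h := dual6 (fun i => l (e i)) (fun i => v (e i))
    (by intro i j; rw [hlv]; simp [e.injective.eq_iff]) (P := fun i => P (e i)) fun i => hP _
  obtain ⟨h1, h2, h3, h4⟩ := h
  have ek : kb6 (fun i => v (e i)) (fun i => P (e i)) = kb6 v P := by
    ext k
    exact ⟨fun hk j => by simpa using hk (e.symm j), fun hk i => hk (e i)⟩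
  have eb : (bx6 (fun i => l (e i)) fun _ => 1) = bx6 l fun _ => 1 := by
    ext k
    exact ⟨fun hk j => by simpa using hk (e.symm j), fun hk i => hk (e i)⟩
  have ev : {w : R6 | ∀ j, |l j w| ≤ 1} = {w : R6 | ∀ i, |l (e i) w| ≤ 1} := by
    ext w
    exact ⟨fun hk i => hk (e i), fun hk j => by simpa using hk (e.symm j)⟩
  rw [ek] at h1 h4
  rw [eb] at h2 h4
  refine ⟨h1, h2, ?_⟩
  rw [ev, vol6 _ h3, ← ENNReal.ofReal_natCast, ← ENNReal.ofReal_mul (Nat.cast_nonneg _)]
  refine ENNReal.ofReal_le_ofReal ?_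
  have hprod : (∏ i, (4 * P (e i))) = ∏ j, (4 * P j) := e.prod_comp fun j => 4 * P j
  rw [hprod] at h4
  have hpos : 0 < |(mt6 fun i => l (e i)).det| := abs_pos.2 h3
  calc ((kb6 v P).ncard : ℝ) * (64 / |(mt6 fun i => l (e i)).det|) ≤ _ :=
        mul_le_mul_of_nonneg_right h4 (by positivity)
    _ = _ := by
        field_simp

end six

end Pool.Agent.Helper96_GN
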