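import Pool.Agent.Helper96_GN.Count

/-!
# Summation over the lattice with a slowly varying field of boxes

`field_sum`: if `f` varies little on the ellipsoids `qf (g m) (x - m) ≤ L` and the quadratic
forms `qf (g m)` vary slowly, then the sum of `f` over the integer points is the integral, up to
`∫ |f| (th (dl (g m)) - 1)`.
-/

set_option autoImplicit false

set_option linter.unusedSectionVars false

open MeasureTheory Filter Topology Set Function Matrix

open scoped BigOperators ENNReal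

noncomputable section

namespace Pool.Agent.Helper96_GN

variable {ι : Type*} [Fintype ι] [DecidableEq ι]

theorem det_smul' (c : ℝ) (g : Matrix ι ι ℝ) : (c • g).det = c ^ Fintype.card ι * g.det := by
  rw [Matrix.det_smul]

/-- the Gaussian integral, as a lower integral -/
theorem lintegral_gauss {g : Matrix ι ι ℝ} (hg : g.det ≠ 0) (x : ι → ℝ) :
    ∫⁻ m : ι → ℝ, ENNReal.ofReal (Real.exp (-(Real.pi * qf g (x - m)))) =
      ENNReal.ofReal (|g.det|⁻¹) := by
  have h1 : ∀ x : ι → ℝ, ∫⁻ m : ι → ℝ, ENNReal.ofReal (Real.exp (-(Real.pi * qf g (x - m)))) =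
      ∫⁻ m : ι → ℝ, ENNReal.ofReal (Real.exp (-(Real.pi * qf g m))) := by
    intro x
    exact lintegral_sub_left_eq_self
      (fun m : ι → ℝ => ENNReal.ofReal (Real.exp (-(Real.pi * qf g m)))) x
  rw [h1]
  have h2 := ftz_gauss hg 0 0
  rw [ftz] at h2
  have h3 : ∀ x : ι → ℝ, chr (-0) x * ((Real.exp (-(Real.pi * qf g (x - 0))) : ℝ) : ℂ) =
      ((Real.exp (-(Real.pi * qf g x)) : ℝ) : ℂ) := by
    intro x
    rw [neg_zero, sub_zero, chr]
    have : dotz (0 : ι → ℤ) x = 0 := by simp [dotz]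
    rw [this]
    simp
  have e0 : qf (dl g) (zr (0 : ι → ℤ)) = 0 := by
    rw [zr_zero]
    simp [qf]
  have e1 : chr (-0 : ι → ℤ) (0 : ι → ℝ) = 1 := by
    have := chr_zr (-0 : ι → ℤ) 0
    rwa [zr_zero] at this
  simp only [h3] at h2
  rw [integral_complex_ofReal, e0, e1, mul_one, mul_zero, neg_zero, Real.exp_zero, mul_one] at h2
  have h4 : ∫ x : ι → ℝ, Real.exp (-(Real.pi * qf g x)) = |g.det|⁻¹ := by exact_mod_cast h2
  have hint : Integrable fun x : ι → ℝ => Real.exp (-(Real.pi * qf g x)) := by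
    by_contra hc
    rw [integral_undef hc] at h4
    have := inv_pos.2 (abs_pos.2 hg)
    linarith
  rw [← h4, ofReal_integral_eq_lintegral_ofReal hint
    (Eventually.of_forall fun x => (Real.exp_pos _).le)]

/-- monotonicity of the determinant -/
theorem det_mono {g h : Matrix ι ι ℝ} (hg : g.det ≠ 0) (hh : h.det ≠ 0)
    (hle : ∀ v, qf g v ≤ qf h v) : |g.det| ≤ |h.det| := by
  have h1 := lintegral_gauss hg 0
  have h2 := lintegral_gauss hh 0
  have h3 : ENNReal.ofReal (|h.det|⁻¹) ≤ ENNReal.ofReal (|g.det|⁻¹) := by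
    rw [← h1, ← h2]
    refine lintegral_mono fun m => ENNReal.ofReal_le_ofReal (Real.exp_le_exp.2 ?_)
    apply neg_le_neg
    exact mul_le_mul_of_nonneg_left (hle _) Real.pi_pos.le
  rw [ENNReal.ofReal_le_ofReal_iff (by positivity)] at h3
  exact (inv_le_inv₀ (abs_pos.2 hh) (abs_pos.2 hg)).1 h3

theorem measurable_qf {g : (ι → ℝ) → Matrix ι ι ℝ} (hg : ∀ i j, Measurable fun m => g m i j)
    (x : ι → ℝ) : Measurable fun m => qf (g m) (x - m) := by
  unfold qf Matrix.mulVec dotProduct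
  refine Finset.measurable_sum _ fun i _ => ?_
  refine Measurable.pow_const ?_ 2
  refine Finset.measurable_sum _ fun j _ => ?_
  refine (hg i j).mul ?_
  simp only [Pi.sub_apply]
  exact measurable_const.sub (measurable_pi_apply j)

theorem measurable_det {g : (ι → ℝ) → Matrix ι ι ℝ} (hg : ∀ i j, Measurable fun m => g m i j) :
    Measurable fun m => (g m).det := by
  simp only [Matrix.det_apply]
  refine Finset.measurable_sum _ fun σ _ => ?_
  refine Measurable.const_smul ?_ _
  exact Finset.measurable_prod _ fun i _ => hg _ _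

/-- the kernel `γ_m(x)`, cut off -/
def gam (g : (ι → ℝ) → Matrix ι ι ℝ) (L : ℝ) (x m : ι → ℝ) : ℝ :=
  if qf (g m) (x - m) ≤ L then |(g m).det| * Real.exp (-(Real.pi * qf (g m) (x - m))) else 0

theorem gam_nonneg (g : (ι → ℝ) → Matrix ι ι ℝ) (L : ℝ) (x m : ι → ℝ) : 0 ≤ gam g L x m := by
  unfold gam
  split_ifs <;> positivity

theorem measurable_gam {g : (ι → ℝ) → Matrix ι ι ℝ} (hg : ∀ i j, Measurable fun m => g m i j)
    (L : ℝ) (x : ι → ℝ) : Measurable fun m => gam g L x m := by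
  unfold gam
  have h1 := measurable_qf hg x
  refine Measurable.ite (measurableSet_le h1 measurable_const) ?_ measurable_const
  exact (measurable_det hg).abs.mul (Real.measurable_exp.comp (h1.const_mul _).neg)

/-- the mass of the kernel, upper bound -/
theorem mass_le {g : (ι → ℝ) → Matrix ι ι ℝ} (hdet : ∀ m, (g m).det ≠ 0) {δ L : ℝ}
    (hδ0 : 0 ≤ δ) (hδ : δ ≤ 1 / 2) (x : ι → ℝ)
    (slow : ∀ m, qf (g m) (x - m) ≤ L → ∀ v, (1 - δ) * qf (g x) v ≤ qf (g m) v ∧
      qf (g m) v ≤ (1 + δ) * qf (g x) v) :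
    ∫⁻ m, ENNReal.ofReal (gam g L x m) ≤
      ENNReal.ofReal (((1 + δ) / (1 - δ)) ^ Fintype.card ι) := by
  obtain ⟨p, hp⟩ : ∃ p, p = Real.sqrt (1 + δ) := ⟨_, rfl⟩
  obtain ⟨r, hr⟩ : ∃ r, r = Real.sqrt (1 - δ) := ⟨_, rfl⟩
  have hp2 : p ^ 2 = 1 + δ := by rw [hp, Real.sq_sqrt (by linarith)]
  have hr2 : r ^ 2 = 1 - δ := by rw [hr, Real.sq_sqrt (by linarith)]
  have hp0 : 0 < p := by rw [hp]; exact Real.sqrt_pos.2 (by linarith)
  have hr0 : 0 < r := by rw [hr]; exact Real.sqrt_pos.2 (by linarith)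
  have hdp : (p • g x).det ≠ 0 := by
    rw [det_smul']
    exact mul_ne_zero (pow_ne_zero _ hp0.ne') (hdet x)
  have hdr : (r • g x).det ≠ 0 := by
    rw [det_smul']
    exact mul_ne_zero (pow_ne_zero _ hr0.ne') (hdet x)
  have h1 : ∀ m, ENNReal.ofReal (gam g L x m) ≤ ENNReal.ofReal (|(p • g x).det|) *
      ENNReal.ofReal (Real.exp (-(Real.pi * qf (r • g x) (x - m)))) := by
    intro m
    rw [← ENNReal.ofReal_mul (abs_nonneg _)]
    apply ENNReal.ofReal_le_ofReal
    unfold gam
    split_ifs with h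
    · have h2 := slow m h
      have h3 : |(g m).det| ≤ |(p • g x).det| := by
        refine det_mono (hdet m) hdp fun v => ?_
        rw [qf_smul, hp2]
        exact (h2 v).2
      refine mul_le_mul h3 ?_ (Real.exp_pos _).le (abs_nonneg _)
      apply Real.exp_le_exp.2
      apply neg_le_neg
      refine mul_le_mul_of_nonneg_left ?_ Real.pi_pos.le
      rw [qf_smul, hr2]
      exact (h2 _).1
    · positivity
  calc ∫⁻ m, ENNReal.ofReal (gam g L x m)
      ≤ ∫⁻ m, ENNReal.ofReal (|(p • g x).det|) *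
          ENNReal.ofReal (Real.exp (-(Real.pi * qf (r • g x) (x - m)))) := lintegral_mono h1
    _ = ENNReal.ofReal (|(p • g x).det|) * ENNReal.ofReal (|(r • g x).det|⁻¹) := by
        rw [lintegral_const_mul' _ _ ENNReal.ofReal_ne_top, lintegral_gauss hdr]
    _ ≤ _ := by
        rw [← ENNReal.ofReal_mul (abs_nonneg _)]
        apply ENNReal.ofReal_le_ofReal
        rw [det_smul', det_smul', abs_mul, abs_mul, abs_of_pos (pow_pos hp0 _),
          abs_of_pos (pow_pos hr0 _)]
        have h4 : 0 < |(g x).det| := abs_pos.2 (hdet x)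
        have h5 : p ^ Fintype.card ι * |(g x).det| * (r ^ Fintype.card ι * |(g x).det|)⁻¹ =
            (p / r) ^ Fintype.card ι := by
          rw [div_pow]
          field_simp
        rw [h5]
        refine pow_le_pow_left₀ (by positivity) ?_ _
        have h6 : 1 ≤ p / r := by
          rw [one_le_div hr0, hp, hr]
          exact Real.sqrt_le_sqrt (by linarith)
        calc p / r ≤ (p / r) ^ 2 := by nlinarith
          _ = (1 + δ) / (1 - δ) := by rw [div_pow, hp2, hr2]

/-- the mass of the kernel, lower bound -/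
theorem le_mass {g : (ι → ℝ) → Matrix ι ι ℝ} (hdet : ∀ m, (g m).det ≠ 0) {δ L : ℝ}
    (hδ0 : 0 ≤ δ) (hδ : δ ≤ 1 / 2) (x : ι → ℝ)
    (slow : ∀ m, qf (g x) (x - m) ≤ L → ∀ v, (1 - δ) * qf (g x) v ≤ qf (g m) v ∧
      qf (g m) v ≤ (1 + δ) * qf (g x) v) :
    ENNReal.ofReal (((1 - δ) / (1 + δ)) ^ Fintype.card ι *
      (1 - 2 ^ Fintype.card ι * Real.exp (-(Real.pi * L / 2)))) ≤
      ∫⁻ m, ENNReal.ofReal (gam g L x m) := by
  rcases le_total (1 - 2 ^ Fintype.card ι * Real.exp (-(Real.pi * L / 2))) 0 with hneg | hnn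
  · have h0 : (((1 - δ) / (1 + δ)) ^ Fintype.card ι *
        (1 - 2 ^ Fintype.card ι * Real.exp (-(Real.pi * L / 2)))) ≤ 0 := by
      refine mul_nonpos_of_nonneg_of_nonpos ?_ hneg
      have : 0 ≤ (1 - δ) / (1 + δ) := div_nonneg (by linarith) (by linarith)
      positivity
    rw [ENNReal.ofReal_of_nonpos h0]
    exact bot_le
  obtain ⟨p, hp⟩ : ∃ p, p = Real.sqrt (1 + δ) := ⟨_, rfl⟩
  obtain ⟨r, hr⟩ : ∃ r, r = Real.sqrt (1 - δ) := ⟨_, rfl⟩
  obtain ⟨t, ht⟩ : ∃ t : ℝ, t = Real.sqrt 2 := ⟨_, rfl⟩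
  have hp2 : p ^ 2 = 1 + δ := by rw [hp, Real.sq_sqrt (by linarith)]
  have hr2 : r ^ 2 = 1 - δ := by rw [hr, Real.sq_sqrt (by linarith)]
  have ht2 : t ^ 2 = 2 := by rw [ht, Real.sq_sqrt (by norm_num)]
  have hp0 : 0 < p := by rw [hp]; exact Real.sqrt_pos.2 (by linarith)
  have hr0 : 0 < r := by rw [hr]; exact Real.sqrt_pos.2 (by linarith)
  have ht0 : 0 < t := by rw [ht]; exact Real.sqrt_pos.2 (by norm_num)
  have hdp : (p • g x).det ≠ 0 := by
    rw [det_smul']
    exact mul_ne_zero (pow_ne_zero _ hp0.ne') (hdet x)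
  have hdr : (r • g x).det ≠ 0 := by
    rw [det_smul']
    exact mul_ne_zero (pow_ne_zero _ hr0.ne') (hdet x)
  have hdt : ((p / t) • g x).det ≠ 0 := by
    rw [det_smul']
    exact mul_ne_zero (pow_ne_zero _ (div_pos hp0 ht0).ne') (hdet x)
  have hL : 0 ≤ L := by
    by_contra hL
    rw [not_le] at hL
    have h1 : 1 < Real.exp (-(Real.pi * L / 2)) := by
      rw [Real.one_lt_exp_iff]
      nlinarith [Real.pi_pos]
    have h2 : (1 : ℝ) ≤ 2 ^ Fintype.card ι := one_le_pow₀ (by norm_num)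
    nlinarith
  have h1 : ∀ m, ENNReal.ofReal (|(r • g x).det|) *
      ENNReal.ofReal (Real.exp (-(Real.pi * qf (p • g x) (x - m)))) ≤
      ENNReal.ofReal (gam g L x m) +
        ENNReal.ofReal (|(r • g x).det| * Real.exp (-(Real.pi * L / 2))) *
          ENNReal.ofReal (Real.exp (-(Real.pi * qf ((p / t) • g x) (x - m)))) := by
    intro m
    rcases le_or_gt (qf (g x) (x - m)) (L / (1 + δ)) with h | h
    · have h2 : qf (g x) (x - m) ≤ L := h.trans (div_le_self hL (by linarith))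
      have h3 := slow m h2
      have h4 : qf (g m) (x - m) ≤ L := by
        refine (h3 _).2.trans ?_
        rw [le_div_iff₀ (by linarith)] at h
        linarith
      refine le_trans ?_ (le_add_of_nonneg_right bot_le)
      rw [← ENNReal.ofReal_mul (abs_nonneg _)]
      apply ENNReal.ofReal_le_ofReal
      rw [gam, if_pos h4]
      have h5 : |(r • g x).det| ≤ |(g m).det| := by
        refine det_mono hdr (hdet m) fun v => ?_
        rw [qf_smul, hr2]
        exact (h3 v).1
      refine mul_le_mul h5 ?_ (Real.exp_pos _).le (abs_nonneg _)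
      apply Real.exp_le_exp.2
      apply neg_le_neg
      refine mul_le_mul_of_nonneg_left ?_ Real.pi_pos.le
      rw [qf_smul, hp2]
      exact (h3 _).2
    · refine le_trans ?_ (le_add_of_nonneg_left bot_le)
      rw [← ENNReal.ofReal_mul (abs_nonneg _), ← ENNReal.ofReal_mul (by positivity)]
      apply ENNReal.ofReal_le_ofReal
      rw [mul_assoc]
      refine mul_le_mul_of_nonneg_left ?_ (abs_nonneg _)
      rw [← Real.exp_add]
      apply Real.exp_le_exp.2
      rw [qf_smul, qf_smul, div_pow, hp2, ht2]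
      rw [div_lt_iff₀ (by linarith)] at h
      nlinarith [Real.pi_pos]
  have h2 := lintegral_mono (μ := (volume : Measure (ι → ℝ))) h1
  rw [lintegral_const_mul' _ _ ENNReal.ofReal_ne_top, lintegral_gauss hdp,
    lintegral_add_right' _ (by
      refine AEMeasurable.const_mul ?_ _
      have := (continuous_qf ((p / t) • g x))
      refine Measurable.aemeasurable ?_
      refine ENNReal.measurable_ofReal.comp (Continuous.measurable ?_)
      fun_prop), lintegral_const_mul' _ _ ENNReal.ofReal_ne_top, lintegral_gauss hdt,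
    ← ENNReal.ofReal_mul (abs_nonneg _), ← ENNReal.ofReal_mul (by positivity)] at h2
  have h4 : 0 < |(g x).det| := abs_pos.2 (hdet x)
  have e1 : |(r • g x).det| * |(p • g x).det|⁻¹ = (r / p) ^ Fintype.card ι := by
    rw [det_smul', det_smul', abs_mul, abs_mul, abs_of_pos (pow_pos hp0 _),
      abs_of_pos (pow_pos hr0 _), div_pow]
    field_simp
  have e2 : |(r • g x).det| * Real.exp (-(Real.pi * L / 2)) * |((p / t) • g x).det|⁻¹ =
      (r / p) ^ Fintype.card ι * (t ^ Fintype.card ι * Real.exp (-(Real.pi * L / 2))) := by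
    rw [det_smul', det_smul', abs_mul, abs_mul, abs_of_pos (pow_pos (div_pos hp0 ht0) _),
      abs_of_pos (pow_pos hr0 _), div_pow, div_pow]
    field_simp
  rw [e1, e2] at h2
  have h5 : ENNReal.ofReal ((r / p) ^ Fintype.card ι -
      (r / p) ^ Fintype.card ι * (t ^ Fintype.card ι * Real.exp (-(Real.pi * L / 2)))) ≤
      ∫⁻ m, ENNReal.ofReal (gam g L x m) := by
    rw [ENNReal.ofReal_sub _ (by positivity)]
    exact tsub_le_iff_right.2 h2
  refine le_trans (ENNReal.ofReal_le_ofReal ?_) h5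
  have e3 : (r / p) ^ Fintype.card ι -
      (r / p) ^ Fintype.card ι * (t ^ Fintype.card ι * Real.exp (-(Real.pi * L / 2))) =
      (r / p) ^ Fintype.card ι * (1 - t ^ Fintype.card ι * Real.exp (-(Real.pi * L / 2))) := by
    ring
  rw [e3]
  have h6 : t ≤ 2 := by nlinarith
  have h7 : t ^ Fintype.card ι ≤ 2 ^ Fintype.card ι := pow_le_pow_left₀ ht0.le h6 _
  refine mul_le_mul (pow_le_pow_left₀ (div_nonneg (by linarith) (by linarith)) ?_ _) ?_ hnn
    (by positivity)
  · have h8 : r / p ≤ 1 := by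
      rw [div_le_one hp0, hp, hr]
      exact Real.sqrt_le_sqrt (by linarith)
    have h9 : 0 ≤ r / p := by positivity
    calc (1 - δ) / (1 + δ) = (r / p) ^ 2 := by rw [div_pow, hp2, hr2]
      _ ≤ r / p := by nlinarith
  · have := mul_le_mul_of_nonneg_right h7 (Real.exp_pos (-(Real.pi * L / 2))).le
    linarith

/-- the sum of the kernel over the integer points -/
theorem summable_gam {g : (ι → ℝ) → Matrix ι ι ℝ} (hdet : ∀ m, (g m).det ≠ 0) (L : ℝ)
    (m : ι → ℝ) : Summable fun x : ι → ℤ => gam g L (zr x) m := by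
  refine Summable.of_nonneg_of_le (fun x => gam_nonneg _ _ _ _) (fun x => ?_)
    ((summable_gauss (hdet m) m).mul_left |(g m).det|)
  unfold gam
  split_ifs
  · exact le_rfl
  · positivity

theorem th_nonneg (g : Matrix ι ι ℝ) : 0 ≤ th g := tsum_nonneg fun _ => (Real.exp_pos _).le

theorem one_le_th {g : Matrix ι ι ℝ} (hg : g.det ≠ 0) : 1 ≤ th g := by
  have h := (summable_gauss_zero hg).le_tsum (0 : ι → ℤ) fun m _ => (Real.exp_pos _).le
  have e0 : qf g (zr (0 : ι → ℤ)) = 0 := by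
    rw [zr_zero]
    simp [qf]
  rw [e0, mul_zero, neg_zero, Real.exp_zero] at h
  exact h

theorem tsum_gam_le {g : (ι → ℝ) → Matrix ι ι ℝ} (hdet : ∀ m, (g m).det ≠ 0) (L : ℝ)
    (m : ι → ℝ) : ∑' x : ι → ℤ, gam g L (zr x) m ≤ th (dl (g m)) := by
  have h1 := (summable_gauss (hdet m) m).mul_left |(g m).det|
  calc ∑' x : ι → ℤ, gam g L (zr x) m
      ≤ ∑' x : ι → ℤ, |(g m).det| * Real.exp (-(Real.pi * qf (g m) (zr x - m))) := by
        refine (summable_gam hdet L m).tsum_le_tsum (fun x => ?_) h1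
        unfold gam
        split_ifs
        · exact le_rfl
        · positivity
    _ = |(g m).det| * ∑' x : ι → ℤ, Real.exp (-(Real.pi * qf (g m) (zr x - m))) := tsum_mul_left
    _ ≤ |(g m).det| * th (g m) :=
        mul_le_mul_of_nonneg_left (theta_shift_le (hdet m) m) (abs_nonneg _)
    _ = th (dl (g m)) := by
        rw [th_inv (hdet m), ← mul_assoc, mul_inv_cancel₀ (abs_ne_zero.2 (hdet m)), one_mul]

theorem th_smul_le {g : Matrix ι ι ℝ} (hg : g.det ≠ 0) {t : ℝ} (ht : 1 ≤ t) :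
    th (t • g) ≤ th g := by
  have hd : (t • g).det ≠ 0 := by
    rw [det_smul']
    exact mul_ne_zero (pow_ne_zero _ (by positivity)) hg
  refine (summable_gauss_zero hd).tsum_le_tsum (fun m => ?_) (summable_gauss_zero hg)
  apply Real.exp_le_exp.2
  apply neg_le_neg
  refine mul_le_mul_of_nonneg_left ?_ Real.pi_pos.le
  rw [qf_smul]
  exact le_mul_of_one_le_left (qf_nonneg g (zr m)) (one_le_pow₀ ht)

theorem dl_smul {c : ℝ} (hc : c ≠ 0) (g : Matrix ι ι ℝ) : dl (c • g) = c⁻¹ • dl g := by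
  rcases eq_or_ne g.det 0 with h0 | h0
  · have h1 : (c • g).det = 0 := by rw [det_smul', h0, mul_zero]
    have e1 : g⁻¹ = 0 := by
      rw [Matrix.inv_def, h0]
      simp
    have e2 : (c • g)⁻¹ = 0 := by
      rw [Matrix.inv_def, h1]
      simp
    rw [dl, dl, e1, e2]
    simp
  · rw [dl, dl]
    have e : (c • g)⁻¹ = c⁻¹ • g⁻¹ := by
      refine Matrix.inv_eq_left_inv ?_
      rw [Matrix.smul_mul, Matrix.mul_smul, smul_smul, inv_mul_cancel₀ hc, one_smul,
        Matrix.nonsing_inv_mul g (isUnit_iff_ne_zero.2 h0)]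
    rw [e, Matrix.transpose_smul]

theorem abs_tsum_gam {g : (ι → ℝ) → Matrix ι ι ℝ} (hdet : ∀ m, (g m).det ≠ 0) (L : ℝ)
    (m : ι → ℝ) : |(∑' x : ι → ℤ, gam g L (zr x) m) - 1| ≤
      (th (dl (g m)) - 1) + 2 ^ Fintype.card ι * Real.exp (-(Real.pi * L / 2)) *
        th (dl (g m)) := by
  obtain ⟨t, ht⟩ : ∃ t : ℝ, t = Real.sqrt 2 := ⟨_, rfl⟩
  have ht2 : t ^ 2 = 2 := by rw [ht, Real.sq_sqrt (by norm_num)]
  have ht0 : 0 < t := by rw [ht]; exact Real.sqrt_pos.2 (by norm_num)
  have ht1 : 1 ≤ t := by nlinarith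
  have hD : 0 < |(g m).det| := abs_pos.2 (hdet m)
  have h1 := (summable_gauss (hdet m) m).mul_left |(g m).det|
  have hdt : (t⁻¹ • g m).det ≠ 0 := by
    rw [det_smul']
    exact mul_ne_zero (pow_ne_zero _ (inv_ne_zero ht0.ne')) (hdet m)
  have h2 := (summable_gauss hdt m).mul_left (|(g m).det| * Real.exp (-(Real.pi * L / 2)))
  have h3 : ∀ x : ι → ℤ, |(g m).det| * Real.exp (-(Real.pi * qf (g m) (zr x - m))) ≤
      gam g L (zr x) m + |(g m).det| * Real.exp (-(Real.pi * L / 2)) *
        Real.exp (-(Real.pi * qf (t⁻¹ • g m) (zr x - m))) := by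
    intro x
    unfold gam
    split_ifs with h
    · exact le_add_of_nonneg_right (by positivity)
    · rw [zero_add, mul_assoc]
      refine mul_le_mul_of_nonneg_left ?_ (abs_nonneg _)
      rw [← Real.exp_add]
      apply Real.exp_le_exp.2
      rw [qf_smul, inv_pow, ht2]
      rw [not_le] at h
      nlinarith [Real.pi_pos]
  have h4 := h1.tsum_le_tsum h3 ((summable_gam hdet L m).add h2)
  rw [(summable_gam hdet L m).tsum_add h2, tsum_mul_left, tsum_mul_left] at h4
  have h5 := theta_sub_le (hdet m) m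
  have h6 : |(|(g m).det| * (∑' x : ι → ℤ, Real.exp (-(Real.pi * qf (g m) (zr x - m)))) - 1)| ≤
      th (dl (g m)) - 1 := by
    have e : |(g m).det| * (∑' x : ι → ℤ, Real.exp (-(Real.pi * qf (g m) (zr x - m)))) - 1 =
        |(g m).det| * ((∑' x : ι → ℤ, Real.exp (-(Real.pi * qf (g m) (zr x - m)))) -
          |(g m).det|⁻¹) := by
      rw [mul_sub, mul_inv_cancel₀ hD.ne']
    rw [e, abs_mul, abs_abs]
    refine (mul_le_mul_of_nonneg_left h5 (abs_nonneg _)).trans (le_of_eq ?_)
    rw [← mul_assoc, mul_inv_cancel₀ hD.ne', one_mul]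
  have h7 : |(g m).det| * Real.exp (-(Real.pi * L / 2)) *
      ∑' x : ι → ℤ, Real.exp (-(Real.pi * qf (t⁻¹ • g m) (zr x - m))) ≤
      2 ^ Fintype.card ι * Real.exp (-(Real.pi * L / 2)) * th (dl (g m)) := by
    calc _ ≤ |(g m).det| * Real.exp (-(Real.pi * L / 2)) * th (t⁻¹ • g m) :=
          mul_le_mul_of_nonneg_left (theta_shift_le hdt m) (by positivity)
      _ = t ^ Fintype.card ι * Real.exp (-(Real.pi * L / 2)) * th (t • dl (g m)) := by
          rw [th_inv hdt, dl_smul (inv_ne_zero ht0.ne'), inv_inv, det_smul', abs_mul,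
            abs_of_pos (pow_pos (inv_pos.2 ht0) _), inv_pow]
          field_simp
      _ ≤ _ := by
          refine mul_le_mul (mul_le_mul_of_nonneg_right (pow_le_pow_left₀ ht0.le
            (by nlinarith) _) (Real.exp_pos _).le) (th_smul_le (det_dl_ne (hdet m)) ht1)
            (th_nonneg _) (by positivity)
  have h8 : ∑' x : ι → ℤ, gam g L (zr x) m ≤
      |(g m).det| * ∑' x : ι → ℤ, Real.exp (-(Real.pi * qf (g m) (zr x - m))) := by
    rw [← tsum_mul_left]
    refine (summable_gam hdet L m).tsum_le_tsum (fun x => ?_) h1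
    unfold gam
    split_ifs
    · exact le_rfl
    · positivity
  have h9 := abs_le.1 h6
  have h10 : 0 ≤ 2 ^ Fintype.card ι * Real.exp (-(Real.pi * L / 2)) * th (dl (g m)) := by
    have := th_nonneg (dl (g m))
    positivity
  rw [abs_le]
  constructor <;> linarith [h9.1, h9.2]

end Pool.Agent.Helper96_GN
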