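import Pool.Agent.Helper96_GN.FieldSum

/-!
# Summation over the lattice with a slowly varying field of boxes, explicit constants
-/

set_option autoImplicit false

set_option linter.unusedSectionVars false

open MeasureTheory Filter Topology Set Function Matrix

open scoped BigOperators ENNReal

noncomputable section

namespace Pool.Agent.Helper96_GN

variable {ι : Type*} [Fintype ι] [DecidableEq ι]

theorem zero_mem_nb (g : Matrix ι ι ℝ) {R : ℝ} (hR : 0 ≤ R) : (0 : ι → ℤ) ∈ nb g 0 R := by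
  intro i
  rw [zr_zero]
  simpa using hR

/-- the theta series minus one, by the number of non zero points -/
theorem th_sub_one_le {h : Matrix ι ι ℝ} (hh : h.det ≠ 0) {R : ℝ} (hR : 0 ≤ R) :
    th h - 1 ≤ (((nb h 0 R).ncard : ℝ) - 1) +
      12 ^ Fintype.card ι * Real.exp (-(Real.pi * R ^ 2 / 2)) * (nb h 0 1).ncard := by
  classical
  obtain ⟨t, ht⟩ : ∃ t : ℝ, t = Real.sqrt 2 := ⟨_, rfl⟩
  have ht2 : t ^ 2 = 2 := by rw [ht, Real.sq_sqrt (by norm_num)]
  have ht0 : 0 < t := by rw [ht]; exact Real.sqrt_pos.2 (by norm_num)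
  have hdt : (t⁻¹ • h).det ≠ 0 := by
    rw [det_smul']
    exact mul_ne_zero (pow_ne_zero _ (inv_ne_zero ht0.ne')) hh
  obtain ⟨S, hS⟩ : ∃ S : Finset (ι → ℤ), S = (nb_finite hh 0 R).toFinset := ⟨_, rfl⟩
  have hSm : ∀ m, m ∈ S ↔ m ∈ nb h 0 R := by
    intro m
    rw [hS, Set.Finite.mem_toFinset]
  have hc : (nb h 0 R).ncard = S.card := by
    rw [hS, Set.ncard_eq_toFinset_card _ (nb_finite hh 0 R)]
  have h1 := summable_gauss_zero hh
  have h2 := (summable_gauss_zero hdt).mul_left (Real.exp (-(Real.pi * R ^ 2 / 2)))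
  have h3 : ∀ m : ι → ℤ, Real.exp (-(Real.pi * qf h (zr m))) ≤ (if m ∈ S then 1 else 0) +
      Real.exp (-(Real.pi * R ^ 2 / 2)) * Real.exp (-(Real.pi * qf (t⁻¹ • h) (zr m))) := by
    intro m
    split_ifs with hm
    · have : Real.exp (-(Real.pi * qf h (zr m))) ≤ 1 := by
        rw [Real.exp_le_one_iff]
        have := mul_nonneg Real.pi_pos.le (qf_nonneg h (zr m))
        linarith
      exact le_add_of_le_of_nonneg this (by positivity)
    · rw [zero_add, ← Real.exp_add]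
      apply Real.exp_le_exp.2
      rw [hSm, mem_nb, not_forall] at hm
      obtain ⟨i, hi⟩ := hm
      rw [not_le] at hi
      simp only [Pi.zero_apply, sub_zero] at hi
      have h4 : R ^ 2 ≤ qf h (zr m) := by
        calc R ^ 2 ≤ |h.mulVec (zr m) i| ^ 2 := pow_le_pow_left₀ hR hi.le 2
          _ = (h.mulVec (zr m) i) ^ 2 := sq_abs _
          _ ≤ qf h (zr m) := Finset.single_le_sum
              (f := fun i => (h.mulVec (zr m) i) ^ 2) (fun _ _ => sq_nonneg _) (Finset.mem_univ i)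
      rw [qf_smul, inv_pow, ht2]
      nlinarith [Real.pi_pos]
  have h5 : Summable fun m : ι → ℤ => (if m ∈ S then (1 : ℝ) else 0) :=
    summable_of_ne_finset_zero (s := S) fun m hm => by rw [if_neg hm]
  have h6 := h1.tsum_le_tsum h3 (h5.add h2)
  rw [h5.tsum_add h2, tsum_mul_left] at h6
  have h7 : ∑' m : ι → ℤ, (if m ∈ S then (1 : ℝ) else 0) = S.card := by
    rw [tsum_eq_sum (s := S) fun m hm => by rw [if_neg hm], Finset.sum_ite_mem,
      Finset.inter_self, Finset.sum_const, nsmul_eq_mul, mul_one]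
  rw [h7] at h6
  have h8 : ∑' m : ι → ℤ, Real.exp (-(Real.pi * qf (t⁻¹ • h) (zr m))) ≤
      12 ^ Fintype.card ι * (nb h 0 1).ncard := by
    have e1 : nb (t⁻¹ • h) 0 1 ⊆ nb h 0 t := by
      intro m hm i
      have := hm i
      rw [Matrix.smul_mulVec, Pi.smul_apply, smul_eq_mul, Pi.zero_apply, sub_zero, abs_mul,
        abs_of_pos (inv_pos.2 ht0), inv_mul_le_iff₀ ht0, mul_one] at this
      simpa using this
    have e2 : ((nb (t⁻¹ • h) 0 1).ncard : ℝ) ≤ (nb h 0 t).ncard := by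
      exact_mod_cast Set.ncard_le_ncard e1 (nb_finite hh 0 t)
    have e3 := cover hh 0 ht0.le
    have e4 := th_le_ncard hdt
    rw [th] at e4
    have e5 : 2 * t + 1 ≤ 4 := by nlinarith
    calc _ ≤ 3 ^ Fintype.card ι * ((nb (t⁻¹ • h) 0 1).ncard : ℝ) := e4
      _ ≤ 3 ^ Fintype.card ι * ((2 * t + 1) ^ Fintype.card ι * (nb h 0 1).ncard) := by
          exact mul_le_mul_of_nonneg_left (e2.trans e3) (by positivity)
      _ ≤ 3 ^ Fintype.card ι * (4 ^ Fintype.card ι * (nb h 0 1).ncard) := by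
          gcongr
      _ = _ := by
          rw [← mul_assoc, ← mul_pow]
          norm_num
  rw [hc]
  have h9 := mul_le_mul_of_nonneg_left h8 (Real.exp_pos (-(Real.pi * R ^ 2 / 2))).le
  rw [th]
  linarith

/-- the power estimates -/
theorem pow_est (n : ℕ) {δ ε : ℝ} (hδ0 : 0 ≤ δ) (hε : 0 ≤ ε) (h : (8 * n + 1) * δ + ε ≤ 1 / 2) :
    ((1 + δ) / (1 - δ)) ^ n ≤ 1 + ((8 * n + 1) * δ + ε) ∧
    1 - ((8 * n + 1) * δ + ε) ≤ ((1 - δ) / (1 + δ)) ^ n * (1 - ε) := by
  have hn : (0 : ℝ) ≤ n := by positivity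
  have hδ : δ ≤ 1 / 2 := by nlinarith
  have hnd : 4 * n * δ ≤ 1 / 2 := by nlinarith
  have h1 : (1 + δ) / (1 - δ) ≤ Real.exp (4 * δ) := by
    refine le_trans ?_ (Real.add_one_le_exp (4 * δ))
    rw [div_le_iff₀ (by linarith)]
    nlinarith
  have h2 : ((1 + δ) / (1 - δ)) ^ n ≤ Real.exp (4 * n * δ) := by
    refine (pow_le_pow_left₀ (div_nonneg (by linarith) (by linarith)) h1 n).trans (le_of_eq ?_)
    rw [← Real.exp_nat_mul]
    congr 1
    ring
  have h3 : Real.exp (4 * n * δ) ≤ 1 + 8 * n * δ := by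
    have h4 : Real.exp (4 * n * δ) * (1 - 4 * n * δ) ≤ 1 := by
      have h5 : 1 - 4 * n * δ ≤ Real.exp (-(4 * n * δ)) := by
        have := Real.add_one_le_exp (-(4 * n * δ))
        linarith
      calc Real.exp (4 * n * δ) * (1 - 4 * n * δ)
          ≤ Real.exp (4 * n * δ) * Real.exp (-(4 * n * δ)) :=
            mul_le_mul_of_nonneg_left h5 (Real.exp_pos _).le
        _ = 1 := by rw [← Real.exp_add, add_neg_cancel, Real.exp_zero]
    have h6 : 0 ≤ 4 * n * δ := by positivity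
    have h7 : 1 ≤ (1 + 8 * n * δ) * (1 - 4 * n * δ) := by nlinarith
    have h8 : 0 < 1 - 4 * n * δ := by linarith
    nlinarith
  constructor
  · have : 0 ≤ δ := hδ0
    nlinarith
  · have h4 : ((1 - δ) / (1 + δ)) ^ n = (((1 + δ) / (1 - δ)) ^ n)⁻¹ := by
      rw [← inv_pow, inv_div]
    have h5 : 1 - 4 * n * δ ≤ ((1 - δ) / (1 + δ)) ^ n := by
      rw [h4]
      have h6 : 1 - 4 * n * δ ≤ Real.exp (-(4 * n * δ)) := by
        have := Real.add_one_le_exp (-(4 * n * δ))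
        linarith
      refine h6.trans ?_
      rw [Real.exp_neg]
      refine inv_anti₀ ?_ h2
      have : 0 < (1 + δ) / (1 - δ) := div_pos (by linarith) (by linarith)
      positivity
    have hε1 : ε ≤ 1 := by nlinarith
    calc 1 - ((8 * n + 1) * δ + ε) ≤ (1 - 4 * n * δ) * (1 - ε) := by
          have : 0 ≤ 4 * n * δ * ε := by positivity
          nlinarith
      _ ≤ _ := mul_le_mul_of_nonneg_right h5 (by linarith)

/-- summation over the lattice with a slowly varying field of boxes, explicit constants -/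
theorem field_sumM' {g : (ι → ℝ) → Matrix ι ι ℝ} (hg : MF g)
    (hdet : ∀ m, (g m).det ≠ 0) {δ L η : ℝ} (hδ0 : 0 ≤ δ)
    (hηdef : η = (8 * Fintype.card ι + 1) * δ +
      2 ^ Fintype.card ι * Real.exp (-(Real.pi * L / 2))) (hη : η ≤ 1 / 2)
    {S : Set (ι → ℝ)} {f F1 F2 : (ι → ℝ) → ℝ} (hf : Measurable f) (hF2 : Measurable F2)
    (slow : ∀ x ∈ S, ∀ m, (qf (g m) (x - m) ≤ L ∨ qf (g x) (x - m) ≤ L) →
      ∀ v, (1 - δ) * qf (g x) v ≤ qf (g m) v ∧ qf (g m) v ≤ (1 + δ) * qf (g x) v)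
    (hS : ∀ x, x ∉ S → F1 x = 0) (hfF : ∀ x, |f x| ≤ F1 x)
    (lip : ∀ x m, qf (g m) (x - m) ≤ L → |f m - f x| ≤ δ * F1 x)
    (dom : ∀ x m, qf (g m) (x - m) ≤ L → F1 x ≤ F2 m) :
    ENNReal.ofReal |(∑' x : ι → ℤ, f (zr x)) - ∫ x, f x| ≤
      ENNReal.ofReal (6 * η) *
        (∫⁻ m, ENNReal.ofReal (F2 m) * ENNReal.ofReal (th (dl (g m)))) +
      (∫⁻ m, ENNReal.ofReal |f m| * ENNReal.ofReal (th (dl (g m)) - 1)) := by
  have hε : 0 ≤ 2 ^ Fintype.card ι * Real.exp (-(Real.pi * L / 2)) := by positivity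
  have hn : (0 : ℝ) ≤ (Fintype.card ι : ℝ) := by positivity
  have h := pow_est (Fintype.card ι) hδ0 hε (by rw [← hηdef]; exact hη)
  rw [← hηdef] at h
  have hn' : 0 ≤ 8 * (Fintype.card ι : ℝ) * δ := by positivity
  refine field_sumM hg hdet hδ0 (by linarith) (by linarith) hη h.1 h.2 (by linarith) hf hF2 slow hS
    hfF lip dom

/-- summation over the lattice with a slowly varying field of boxes, explicit constants -/
theorem field_sum' {g : (ι → ℝ) → Matrix ι ι ℝ} (hg : ∀ i j, Measurable fun m => g m i j)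
    (hdet : ∀ m, (g m).det ≠ 0) {δ L η : ℝ} (hδ0 : 0 ≤ δ)
    (hηdef : η = (8 * Fintype.card ι + 1) * δ +
      2 ^ Fintype.card ι * Real.exp (-(Real.pi * L / 2))) (hη : η ≤ 1 / 2)
    {S : Set (ι → ℝ)} {f F1 F2 : (ι → ℝ) → ℝ} (hf : Measurable f) (hF2 : Measurable F2)
    (slow : ∀ x ∈ S, ∀ m, (qf (g m) (x - m) ≤ L ∨ qf (g x) (x - m) ≤ L) →
      ∀ v, (1 - δ) * qf (g x) v ≤ qf (g m) v ∧ qf (g m) v ≤ (1 + δ) * qf (g x) v)
    (hS : ∀ x, x ∉ S → F1 x = 0) (hfF : ∀ x, |f x| ≤ F1 x)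
    (lip : ∀ x m, qf (g m) (x - m) ≤ L → |f m - f x| ≤ δ * F1 x)
    (dom : ∀ x m, qf (g m) (x - m) ≤ L → F1 x ≤ F2 m) :
    ENNReal.ofReal |(∑' x : ι → ℤ, f (zr x)) - ∫ x, f x| ≤
      ENNReal.ofReal (6 * η) *
        (∫⁻ m, ENNReal.ofReal (F2 m) * ENNReal.ofReal (th (dl (g m)))) +
      (∫⁻ m, ENNReal.ofReal |f m| * ENNReal.ofReal (th (dl (g m)) - 1)) := by
  have hε : 0 ≤ 2 ^ Fintype.card ι * Real.exp (-(Real.pi * L / 2)) := by positivity
  have hn : (0 : ℝ) ≤ (Fintype.card ι : ℝ) := by positivity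
  have h := pow_est (Fintype.card ι) hδ0 hε (by rw [← hηdef]; exact hη)
  rw [← hηdef] at h
  have hn' : 0 ≤ 8 * (Fintype.card ι : ℝ) * δ := by positivity
  refine field_sum hg hdet hδ0 (by linarith) (by linarith) hη h.1 h.2 (by linarith) hf hF2 slow hS
    hfF lip dom

end Pool.Agent.Helper96_GN
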