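import Pool.Agent.Helper96_GN.FieldCor

/-!
# Summation over the lattice with a field of quadratic forms

The quadratic forms are sums of squares of a finite family of linear forms.
-/

set_option autoImplicit false

set_option linter.unusedSectionVars false

open MeasureTheory Filter Topology Set Function Matrix

open scoped BigOperators ENNReal

noncomputable section

namespace Pool.Agent.Helper96_GN

variable {ι : Type*} [Fintype ι] [DecidableEq ι] {J : Type*} [Fintype J]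

/-- the quadratic form of a family of linear forms -/
def ql (l : J → (ι → ℝ) →ₗ[ℝ] ℝ) (v : ι → ℝ) : ℝ := ∑ j, (l j v) ^ 2

/-- the matrix of a family of linear forms -/
def ml (l : J → (ι → ℝ) →ₗ[ℝ] ℝ) : Matrix J ι ℝ := fun j i => l j (Pi.single i 1)

theorem ml_mulVec (l : J → (ι → ℝ) →ₗ[ℝ] ℝ) (v : ι → ℝ) (j : J) : (ml l).mulVec v j = l j v := by
  have h : v = ∑ i, v i • (Pi.single i (1 : ℝ) : ι → ℝ) := by
    funext k
    rw [Finset.sum_apply]
    simp [Pi.single_apply]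
  conv_rhs => rw [h]
  rw [map_sum]
  simp only [map_smul, smul_eq_mul, Matrix.mulVec, dotProduct, ml]
  exact Finset.sum_congr rfl fun i _ => mul_comm _ _

theorem exists_square (M : Matrix J ι ℝ) : ∃ g : Matrix ι ι ℝ, gᵀ * g = Mᵀ * M := by
  have h := Matrix.posSemidef_conjTranspose_mul_self M
  obtain ⟨B, hB⟩ := by
    open scoped MatrixOrder in
    exact CStarAlgebra.nonneg_iff_eq_star_mul_self.mp h.nonneg
  refine ⟨B, ?_⟩
  rw [Matrix.star_eq_conjTranspose, Matrix.conjTranspose_eq_transpose_of_trivial,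
    Matrix.conjTranspose_eq_transpose_of_trivial] at hB
  exact hB.symm

theorem sum_sq_eq (M : Matrix J ι ℝ) (v : ι → ℝ) :
    ∑ j, (M.mulVec v j) ^ 2 = v ⬝ᵥ (Mᵀ * M).mulVec v := by
  rw [← Matrix.mulVec_mulVec, Matrix.dotProduct_mulVec, Matrix.vecMul_transpose]
  simp only [dotProduct, sq]

/-- the square root of the form -/
theorem exists_root {l : J → (ι → ℝ) →ₗ[ℝ] ℝ} (hpos : ∀ v, v ≠ 0 → 0 < ql l v) :
    ∃ g : Matrix ι ι ℝ, g.det ≠ 0 ∧ (∀ v, qf g v = ql l v) ∧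
      |g.det| = Real.sqrt ((ml l)ᵀ * (ml l)).det := by
  obtain ⟨g, hg⟩ := exists_square (ml l)
  have h1 : ∀ v, qf g v = ql l v := by
    intro v
    rw [qf, sum_sq_eq, hg, ← sum_sq_eq, ql]
    exact Finset.sum_congr rfl fun j _ => by rw [ml_mulVec]
  refine ⟨g, ?_, h1, ?_⟩
  · intro h0
    obtain ⟨v, hv, hv'⟩ := Matrix.exists_mulVec_eq_zero_iff.2 h0
    have h2 := hpos v hv
    rw [← h1, qf, hv'] at h2
    simp at h2
  · rw [← hg, Matrix.det_mul, Matrix.det_transpose, Real.sqrt_mul_self_eq_abs]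

/-- non zero integer vectors of dual norm at most `ρ` -/
def dq (q : (ι → ℝ) → ℝ) (ρ : ℝ) : Set (ι → ℤ) :=
  {k | k ≠ 0 ∧ ∀ v : ι → ℝ, (dotz k v) ^ 2 ≤ ρ ^ 2 * q v}

theorem dotz_eq {g : Matrix ι ι ℝ} (hg : g.det ≠ 0) (k : ι → ℤ) (v : ι → ℝ) :
    dotz k v = ∑ i, (dl g).mulVec (zr k) i * g.mulVec v i := by
  have h1 : ∑ i, (dl g).mulVec (zr k) i * g.mulVec v i = (dl g).mulVec (zr k) ⬝ᵥ g.mulVec v := rfl
  have h2 : dotz k v = zr k ⬝ᵥ v := rfl
  rw [h1, h2, dl, Matrix.mulVec_transpose, ← Matrix.dotProduct_mulVec,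
    Matrix.mulVec_mulVec, Matrix.nonsing_inv_mul g (isUnit_iff_ne_zero.2 hg), Matrix.one_mulVec]

theorem mem_dq_of_qf {g : Matrix ι ι ℝ} (hg : g.det ≠ 0) {k : ι → ℤ} {ρ : ℝ} (hk : k ≠ 0)
    (h : qf (dl g) (zr k) ≤ ρ ^ 2) : k ∈ dq (qf g) ρ := by
  refine ⟨hk, fun v => ?_⟩
  rw [dotz_eq hg]
  refine (Finset.sum_mul_sq_le_sq_mul_sq _ _ _).trans ?_
  exact mul_le_mul_of_nonneg_right h (qf_nonneg _ _)

theorem qf_of_mem_dq {g : Matrix ι ι ℝ} (hg : g.det ≠ 0) {k : ι → ℤ} {ρ : ℝ}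
    (h : k ∈ dq (qf g) ρ) : qf (dl g) (zr k) ≤ ρ ^ 2 := by
  have h1 := h.2 (g⁻¹.mulVec ((dl g).mulVec (zr k)))
  rw [dotz_eq hg, qf, Matrix.mulVec_mulVec, Matrix.mul_nonsing_inv g (isUnit_iff_ne_zero.2 hg),
    Matrix.one_mulVec] at h1
  have h2 : ∑ i, (dl g).mulVec (zr k) i * (dl g).mulVec (zr k) i = qf (dl g) (zr k) := by
    rw [qf]
    exact Finset.sum_congr rfl fun i _ => by ring
  rw [h2] at h1
  change (qf (dl g) (zr k)) ^ 2 ≤ ρ ^ 2 * qf (dl g) (zr k) at h1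
  rcases (qf_nonneg (dl g) (zr k)).eq_or_lt with h3 | h3
  · rw [← h3]
    positivity
  · rw [sq (qf (dl g) (zr k))] at h1
    exact le_of_mul_le_mul_right h1 h3

theorem dq_finite {g : Matrix ι ι ℝ} (hg : g.det ≠ 0) {ρ : ℝ} (hρ : 0 ≤ ρ) :
    (dq (qf g) ρ).Finite := by
  refine (nb_finite (det_dl_ne hg) 0 ρ).subset fun k hk i => ?_
  have h1 := qf_of_mem_dq hg hk
  have h2 : ((dl g).mulVec (zr k) i) ^ 2 ≤ qf (dl g) (zr k) :=
    Finset.single_le_sum (f := fun i => ((dl g).mulVec (zr k) i) ^ 2)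
      (fun _ _ => sq_nonneg _) (Finset.mem_univ i)
  simp only [Pi.zero_apply, sub_zero]
  exact abs_le_of_sq_le_sq (h2.trans h1) hρ

/-- the number of points of the dual box, by the number of dual vectors -/
theorem nb_le_dq {g : Matrix ι ι ℝ} (hg : g.det ≠ 0) {R ρ : ℝ} (hρ : 0 ≤ ρ)
    (h : Fintype.card ι * R ^ 2 ≤ ρ ^ 2) :
    ((nb (dl g) 0 R).ncard : ℝ) ≤ 1 + (dq (qf g) ρ).ncard := by
  have h1 : nb (dl g) 0 R ⊆ insert 0 (dq (qf g) ρ) := by
    intro k hk
    rw [Set.mem_insert_iff]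
    by_cases h0 : k = 0
    · exact Or.inl h0
    · refine Or.inr (mem_dq_of_qf hg h0 (le_trans ?_ h))
      rw [qf]
      calc ∑ i, ((dl g).mulVec (zr k) i) ^ 2 ≤ ∑ _i : ι, R ^ 2 := by
            refine Finset.sum_le_sum fun i _ => ?_
            have := hk i
            simp only [Pi.zero_apply, sub_zero] at this
            rw [← sq_abs]
            exact pow_le_pow_left₀ (abs_nonneg _) this 2
        _ = Fintype.card ι * R ^ 2 := by simp
  have h2 := Set.ncard_le_ncard h1 ((dq_finite hg hρ).insert 0)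
  have h3 := Set.ncard_insert_le (0 : ι → ℤ) (dq (qf g) ρ)
  have h4 : (nb (dl g) 0 R).ncard ≤ (dq (qf g) ρ).ncard + 1 := h2.trans h3
  have h5 : ((nb (dl g) 0 R).ncard : ℝ) ≤ ((dq (qf g) ρ).ncard : ℝ) + 1 := by exact_mod_cast h4
  linarith

/-- the theta series minus one: points of the box and a tail -/
theorem th_sub_one_le' {h : Matrix ι ι ℝ} (hh : h.det ≠ 0) {R : ℝ} (hR : 0 ≤ R) :
    th h - 1 ≤ (((nb h 0 R).ncard : ℝ) - 1) +
      Real.exp (-(Real.pi * R ^ 2 / 2)) * th ((Real.sqrt 2)⁻¹ • h) := by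
  classical
  obtain ⟨t, ht⟩ : ∃ t : ℝ, t = Real.sqrt 2 := ⟨_, rfl⟩
  have ht2 : t ^ 2 = 2 := by rw [ht, Real.sq_sqrt (by norm_num)]
  have ht0 : 0 < t := by rw [ht]; exact Real.sqrt_pos.2 (by norm_num)
  rw [← ht]
  have hdt : (t⁻¹ • h).det ≠ 0 := by
    rw [det_smul']
    exact mul_ne_zero (pow_ne_zero _ (inv_ne_zero ht0.ne')) hh
  obtain ⟨S, hS⟩ : ∃ S : Finset (ι → ℤ), S = (nb_finite hh 0 R).toFinset := ⟨_, rfl⟩
  have hSm : ∀ m, m ∈ S ↔ m ∈ nb h 0 R := by
    intro m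
    rw [hS, Set.Finite.mem_toFinset]
  have hc : (nb h 0 R).ncard = S.card := by
    rw [hS, Set.ncard_eq_toFinset_card _ (nb_finite hh 0 R)]
  have h0S : (0 : ι → ℤ) ∈ S := (hSm 0).2 (zero_mem_nb h hR)
  have h1 := summable_gauss_zero hh
  have h2 := (summable_gauss_zero hdt).mul_left (Real.exp (-(Real.pi * R ^ 2 / 2)))
  have h3 : ∀ m : ι → ℤ, Real.exp (-(Real.pi * qf h (zr m))) ≤ (if m ∈ S then 1 else 0) +
      Real.exp (-(Real.pi * R ^ 2 / 2)) * Real.exp (-(Real.pi * qf (t⁻¹ • h) (zr m))) := by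
    intro m
    split_ifs with hm
    · have : Real.exp (-(Real.pi * qf h (zr m))) ≤ 1 := by
        rw [Real.exp_le_one_iff]
        have := mul_nonneg Real.pi_pos.le (qf_nonneg h (zr m))
        linarith
      exact le_add_of_le_of_nonneg this (by positivity)
    · rw [zero_add, ← Real.exp_add]
      apply Real.exp_le_exp.2
      rw [hSm, mem_nb, not_forall] at hm
      obtain ⟨i, hi⟩ := hm
      rw [not_le] at hi
      simp only [Pi.zero_apply, sub_zero] at hi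
      have h4 : R ^ 2 ≤ qf h (zr m) := by
        calc R ^ 2 ≤ |h.mulVec (zr m) i| ^ 2 := pow_le_pow_left₀ hR hi.le 2
          _ = (h.mulVec (zr m) i) ^ 2 := sq_abs _
          _ ≤ qf h (zr m) := Finset.single_le_sum
              (f := fun i => (h.mulVec (zr m) i) ^ 2) (fun _ _ => sq_nonneg _) (Finset.mem_univ i)
      rw [qf_smul, inv_pow, ht2]
      nlinarith [Real.pi_pos]
  have h5 : Summable fun m : ι → ℤ => (if m ∈ S then (1 : ℝ) else 0) :=
    summable_of_ne_finset_zero (s := S) fun m hm => by rw [if_neg hm]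
  have h6 := h1.tsum_le_tsum h3 (h5.add h2)
  rw [h5.tsum_add h2, tsum_mul_left] at h6
  have h7 : ∑' m : ι → ℤ, (if m ∈ S then (1 : ℝ) else 0) = S.card := by
    rw [tsum_eq_sum (s := S) fun m hm => by rw [if_neg hm], Finset.sum_ite_mem,
      Finset.inter_self, Finset.sum_const, nsmul_eq_mul, mul_one]
  rw [h7] at h6
  rw [hc, th, th]
  linarith

theorem th_half_le {h : Matrix ι ι ℝ} (hh : h.det ≠ 0) :
    th ((Real.sqrt 2)⁻¹ • h) ≤ 12 ^ Fintype.card ι * (nb h 0 1).ncard := by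
  obtain ⟨t, ht⟩ : ∃ t : ℝ, t = Real.sqrt 2 := ⟨_, rfl⟩
  have ht2 : t ^ 2 = 2 := by rw [ht, Real.sq_sqrt (by norm_num)]
  have ht0 : 0 < t := by rw [ht]; exact Real.sqrt_pos.2 (by norm_num)
  rw [← ht]
  have hdt : (t⁻¹ • h).det ≠ 0 := by
    rw [det_smul']
    exact mul_ne_zero (pow_ne_zero _ (inv_ne_zero ht0.ne')) hh
  have e1 : nb (t⁻¹ • h) 0 1 ⊆ nb h 0 t := by
    intro m hm i
    have := hm i
    rw [Matrix.smul_mulVec, Pi.smul_apply, smul_eq_mul, Pi.zero_apply, sub_zero, abs_mul,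
      abs_of_pos (inv_pos.2 ht0), inv_mul_le_iff₀ ht0, mul_one] at this
    simpa using this
  have e2 : ((nb (t⁻¹ • h) 0 1).ncard : ℝ) ≤ (nb h 0 t).ncard := by
    exact_mod_cast Set.ncard_le_ncard e1 (nb_finite hh 0 t)
  have e3 := cover hh 0 ht0.le
  have e4 := th_le_ncard hdt
  have e5 : 2 * t + 1 ≤ 4 := by nlinarith
  calc _ ≤ 3 ^ Fintype.card ι * ((nb (t⁻¹ • h) 0 1).ncard : ℝ) := e4
    _ ≤ 3 ^ Fintype.card ι * ((2 * t + 1) ^ Fintype.card ι * (nb h 0 1).ncard) := by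
        exact mul_le_mul_of_nonneg_left (e2.trans e3) (by positivity)
    _ ≤ 3 ^ Fintype.card ι * (4 ^ Fintype.card ι * (nb h 0 1).ncard) := by
        gcongr
    _ = _ := by
        rw [← mul_assoc, ← mul_pow]
        norm_num

theorem measurable_ql {l : (ι → ℝ) → J → (ι → ℝ) →ₗ[ℝ] ℝ}
    (hl : ∀ j v, Measurable fun m => l m j v) (x : ι → ℝ) :
    Measurable fun m => ql (l m) (x - m) := by
  have h : ∀ m j, l m j (x - m) = ∑ i, l m j (Pi.single i 1) * (x i - m i) := by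
    intro m j
    rw [← ml_mulVec (l m) (x - m) j]
    simp only [Matrix.mulVec, dotProduct, ml, Pi.sub_apply]
  unfold ql
  simp only [h]
  refine Finset.measurable_sum _ fun j _ => Measurable.pow_const ?_ 2
  refine Finset.measurable_sum _ fun i _ => (hl j _).mul ?_
  exact measurable_const.sub (measurable_pi_apply i)

/-- a field of square roots -/
theorem exists_field {l : (ι → ℝ) → J → (ι → ℝ) →ₗ[ℝ] ℝ}
    (hl : ∀ j v, Measurable fun m => l m j v) (hpos : ∀ m v, v ≠ 0 → 0 < ql (l m) v) :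
    ∃ g : (ι → ℝ) → Matrix ι ι ℝ, (∀ m, (g m).det ≠ 0) ∧ (∀ m, qf (g m) = ql (l m)) ∧ MF g := by
  choose g hg1 hg2 hg3 using fun m => exists_root (hpos m)
  have hq : ∀ m, qf (g m) = ql (l m) := fun m => funext (hg2 m)
  refine ⟨g, hg1, hq, ?_, ?_, ?_⟩
  · intro x
    simp only [hq]
    exact measurable_ql hl x
  · intro v
    simp only [hq]
    unfold ql
    exact Finset.measurable_sum _ fun j _ => (hl j v).pow_const 2
  · have e : (fun m => |(g m).det|) = fun m => Real.sqrt ((ml (l m))ᵀ * (ml (l m))).det :=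
      funext hg3
    rw [e]
    refine Real.continuous_sqrt.measurable.comp ?_
    refine measurable_det (g := fun m => (ml (l m))ᵀ * (ml (l m))) fun i j => ?_
    simp only [Matrix.mul_apply, Matrix.transpose_apply, ml]
    exact Finset.measurable_sum _ fun k _ => (hl k _).mul (hl k _)

/-- THE LATTICE SUM: a slowly varying field of quadratic forms, a function which varies slowly
with respect to the field. -/
theorem lattice_sum {l : (ι → ℝ) → J → (ι → ℝ) →ₗ[ℝ] ℝ}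
    (hl : ∀ j v, Measurable fun m => l m j v) (hpos : ∀ m v, v ≠ 0 → 0 < ql (l m) v)
    {δ L R : ℝ} (hδ0 : 0 ≤ δ) (hR : 0 ≤ R)
    (hη : (8 * Fintype.card ι + 1) * δ +
      2 ^ Fintype.card ι * Real.exp (-(Real.pi * L / 2)) ≤ 1 / 2)
    {S : Set (ι → ℝ)} {f F1 F2 : (ι → ℝ) → ℝ} (hf : Measurable f) (hF2 : Measurable F2)
    (slow : ∀ x ∈ S, ∀ m, (ql (l m) (x - m) ≤ L ∨ ql (l x) (x - m) ≤ L) →
      ∀ v, (1 - δ) * ql (l x) v ≤ ql (l m) v ∧ ql (l m) v ≤ (1 + δ) * ql (l x) v)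
    (hS : ∀ x, x ∉ S → F1 x = 0) (hfF : ∀ x, |f x| ≤ F1 x)
    (lip : ∀ x m, ql (l m) (x - m) ≤ L → |f m - f x| ≤ δ * F1 x)
    (dom : ∀ x m, ql (l m) (x - m) ≤ L → F1 x ≤ F2 m) :
    ENNReal.ofReal |(∑' x : ι → ℤ, f (zr x)) - ∫ x, f x| ≤
      ENNReal.ofReal (6 * (8 * Fintype.card ι + 1) * 12 ^ Fintype.card ι *
        (δ + Real.exp (-L) + Real.exp (-R ^ 2))) *
        (∫⁻ m, ENNReal.ofReal (F2 m) *
          (1 + (dq (ql (l m)) (Real.sqrt (Fintype.card ι))).ncard)) +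
      (∫⁻ m, ENNReal.ofReal |f m| *
        (dq (ql (l m)) (Real.sqrt (Fintype.card ι) * R)).ncard) := by
  obtain ⟨g, hdet, hq, hM⟩ := exists_field hl hpos
  obtain ⟨n, hn⟩ : ∃ n : ℕ, n = Fintype.card ι := ⟨_, rfl⟩
  obtain ⟨η, hηdef⟩ : ∃ η : ℝ, η = (8 * Fintype.card ι + 1) * δ +
    2 ^ Fintype.card ι * Real.exp (-(Real.pi * L / 2)) := ⟨_, rfl⟩
  have hpi := Real.pi_gt_three
  have hL : 0 ≤ L := by
    by_contra hL
    rw [not_le] at hL
    have h1 : 1 < Real.exp (-(Real.pi * L / 2)) := by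
      rw [Real.one_lt_exp_iff]
      nlinarith
    have h2 : (1 : ℝ) ≤ 2 ^ Fintype.card ι := one_le_pow₀ (by norm_num)
    have h3 : 0 ≤ (8 * (Fintype.card ι : ℝ) + 1) * δ := by positivity
    nlinarith
  have hF10 : ∀ x, 0 ≤ F1 x := fun x => (abs_nonneg _).trans (hfF x)
  have hq0 : ∀ m : ι → ℝ, ql (l m) (m - m) ≤ L := by
    intro m
    rw [← hq]
    have : qf (g m) (m - m) = 0 := by simp [qf]
    rw [this]
    exact hL
  have hfF2 : ∀ m, |f m| ≤ F2 m := fun m => (hfF m).trans (dom m m (hq0 m))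
  have hF20 : ∀ m, 0 ≤ F2 m := fun m => (abs_nonneg _).trans (hfF2 m)
  have hmain := field_sumM' (L := L) hM hdet hδ0 hηdef (by rw [hηdef]; exact hη) hf hF2
    (by simpa only [hq] using slow) hS hfF (by simpa only [hq] using lip)
    (by simpa only [hq] using dom)
  refine hmain.trans ?_
  -- the field scaled by the square root of two
  obtain ⟨t, ht⟩ : ∃ t : ℝ, t = Real.sqrt 2 := ⟨_, rfl⟩
  have ht0 : 0 < t := by rw [ht]; exact Real.sqrt_pos.2 (by norm_num)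
  have hMt : MF fun m => t • g m := by
    refine ⟨fun x => ?_, fun v => ?_, ?_⟩
    · simp only [qf_smul]
      exact (hM.q x).const_mul _
    · simp only [qf_smul]
      exact (hM.q0 v).const_mul _
    · simp only [det_smul', abs_mul]
      exact hM.d.const_mul _
  have hdett : ∀ m, (t • g m).det ≠ 0 := fun m => by
    rw [det_smul']
    exact mul_ne_zero (pow_ne_zero _ ht0.ne') (hdet m)
  have hmeas := measurable_th_dlM hMt hdett
  have e1 : ∀ m, th (dl (t • g m)) = th (t⁻¹ • dl (g m)) := fun m => by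
    rw [dl_smul ht0.ne']
  simp only [e1] at hmeas
  obtain ⟨N, hN⟩ : ∃ N : (ι → ℝ) → ℝ, ∀ m, N m =
      ((dq (ql (l m)) (Real.sqrt (Fintype.card ι))).ncard : ℝ) := ⟨_, fun _ => rfl⟩
  have hNn : ∀ m, ((nb (dl (g m)) 0 1).ncard : ℝ) ≤ 1 + N m := by
    intro m
    have h := nb_le_dq (hdet m) (R := 1) (ρ := Real.sqrt (Fintype.card ι)) (Real.sqrt_nonneg _)
      (by rw [Real.sq_sqrt (by positivity)]; simp)
    rw [hq] at h
    rw [hN]
    exact h
  have hth1 : ∀ m, th (dl (g m)) ≤ 3 ^ n * (1 + N m) := by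
    intro m
    rw [hn]
    exact (th_le_ncard (det_dl_ne (hdet m))).trans
      (mul_le_mul_of_nonneg_left (hNn m) (by positivity))
  have hth2 : ∀ m, th (t⁻¹ • dl (g m)) ≤ 12 ^ n * (1 + N m) := by
    intro m
    rw [hn, ht]
    exact (th_half_le (det_dl_ne (hdet m))).trans
      (mul_le_mul_of_nonneg_left (hNn m) (by positivity))
  have hth3 : ∀ m, th (dl (g m)) - 1 ≤
      ((dq (ql (l m)) (Real.sqrt (Fintype.card ι) * R)).ncard : ℝ) +
        Real.exp (-(Real.pi * R ^ 2 / 2)) * th (t⁻¹ • dl (g m)) := by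
    intro m
    have h1 := th_sub_one_le' (det_dl_ne (hdet m)) hR
    have h2 := nb_le_dq (hdet m) (R := R) (ρ := Real.sqrt (Fintype.card ι) * R)
      (mul_nonneg (Real.sqrt_nonneg _) hR)
      (by rw [mul_pow, Real.sq_sqrt (by positivity)])
    rw [hq] at h2
    rw [ht]
    linarith
  have hN0 : ∀ m, 0 ≤ N m := fun m => by rw [hN]; positivity
  have hNE : ∀ m, ENNReal.ofReal (1 + N m) =
      1 + ((dq (ql (l m)) (Real.sqrt (Fintype.card ι))).ncard : ℝ≥0∞) := by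
    intro m
    rw [ENNReal.ofReal_add (by norm_num) (hN0 m), hN, ENNReal.ofReal_one, ENNReal.ofReal_natCast]
  obtain ⟨I, hI⟩ : ∃ I, I = ∫⁻ m, ENNReal.ofReal (F2 m) *
    (1 + ((dq (ql (l m)) (Real.sqrt (Fintype.card ι))).ncard : ℝ≥0∞)) := ⟨_, rfl⟩
  rw [← hI]
  have hA : ∫⁻ m, ENNReal.ofReal (F2 m) * ENNReal.ofReal (th (dl (g m))) ≤
      ENNReal.ofReal (3 ^ n) * I := by
    rw [hI, ← lintegral_const_mul' _ _ ENNReal.ofReal_ne_top]
    refine lintegral_mono fun m => ?_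
    rw [← hNE, ← ENNReal.ofReal_mul (hF20 m), ← ENNReal.ofReal_mul (hF20 m),
      ← ENNReal.ofReal_mul (by positivity)]
    apply ENNReal.ofReal_le_ofReal
    have := mul_le_mul_of_nonneg_left (hth1 m) (hF20 m)
    linarith
  have hB : ∫⁻ m, ENNReal.ofReal |f m| * ENNReal.ofReal (th (dl (g m)) - 1) ≤
      (∫⁻ m, ENNReal.ofReal |f m| *
        ((dq (ql (l m)) (Real.sqrt (Fintype.card ι) * R)).ncard : ℝ≥0∞)) +
        ENNReal.ofReal (Real.exp (-(Real.pi * R ^ 2 / 2)) * 12 ^ n) * I := by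
    have h1 : ∀ m, ENNReal.ofReal |f m| * ENNReal.ofReal (th (dl (g m)) - 1) ≤
        ENNReal.ofReal |f m| *
          ((dq (ql (l m)) (Real.sqrt (Fintype.card ι) * R)).ncard : ℝ≥0∞) +
        ENNReal.ofReal |f m| * ENNReal.ofReal (Real.exp (-(Real.pi * R ^ 2 / 2)) *
          th (t⁻¹ • dl (g m))) := by
      intro m
      rw [← mul_add]
      refine mul_le_mul' le_rfl ?_
      rw [← ENNReal.ofReal_natCast, ← ENNReal.ofReal_add (by positivity)
        (mul_nonneg (Real.exp_pos _).le (th_nonneg _))]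
      exact ENNReal.ofReal_le_ofReal (hth3 m)
    refine (lintegral_mono h1).trans ?_
    have hme : AEMeasurable (fun m => ENNReal.ofReal |f m| *
        ENNReal.ofReal (Real.exp (-(Real.pi * R ^ 2 / 2)) * th (t⁻¹ • dl (g m)))) volume := by
      have ha : Measurable fun m => |f m| := hf.abs
      exact (ha.ennreal_ofReal.mul (hmeas.const_mul _).ennreal_ofReal).aemeasurable
    rw [lintegral_add_right' _ hme]
    refine add_le_add le_rfl ?_
    rw [hI, ← lintegral_const_mul' _ _ ENNReal.ofReal_ne_top]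
    refine lintegral_mono fun m => ?_
    simp only
    rw [← hNE, ← ENNReal.ofReal_mul (abs_nonneg _), ← ENNReal.ofReal_mul (hF20 m),
      ← ENNReal.ofReal_mul (by positivity)]
    apply ENNReal.ofReal_le_ofReal
    have h2 := mul_le_mul_of_nonneg_left (hth2 m) (Real.exp_pos (-(Real.pi * R ^ 2 / 2))).le
    have h3 : 0 ≤ Real.exp (-(Real.pi * R ^ 2 / 2)) * (12 ^ n * (1 + N m)) := by
      have := hN0 m
      positivity
    have h4 := mul_le_mul (hfF2 m) h2 (mul_nonneg (Real.exp_pos _).le (th_nonneg _)) (hF20 m)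
    linarith
  have hconst : ENNReal.ofReal (6 * η) * (ENNReal.ofReal (3 ^ n) * I) +
      ENNReal.ofReal (Real.exp (-(Real.pi * R ^ 2 / 2)) * 12 ^ n) * I ≤
      ENNReal.ofReal (6 * (8 * Fintype.card ι + 1) * 12 ^ Fintype.card ι *
        (δ + Real.exp (-L) + Real.exp (-R ^ 2))) * I := by
    have hη0 : 0 ≤ η := by rw [hηdef]; positivity
    rw [← mul_assoc, ← add_mul, ← ENNReal.ofReal_mul (by positivity),
      ← ENNReal.ofReal_add (by positivity) (by positivity)]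
    refine mul_le_mul' (ENNReal.ofReal_le_ofReal ?_) le_rfl
    rw [← hn, hηdef, ← hn]
    have x1 : Real.exp (-(Real.pi * L / 2)) ≤ Real.exp (-L) := by
      apply Real.exp_le_exp.2
      nlinarith
    have x2 : Real.exp (-(Real.pi * R ^ 2 / 2)) ≤ Real.exp (-R ^ 2) := by
      apply Real.exp_le_exp.2
      nlinarith [sq_nonneg R]
    have y1 : (3 : ℝ) ^ n ≤ 12 ^ n := pow_le_pow_left₀ (by norm_num) (by norm_num) n
    have y2 : (2 : ℝ) ^ n * 3 ^ n ≤ 12 ^ n := by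
      rw [← mul_pow]
      exact pow_le_pow_left₀ (by norm_num) (by norm_num) n
    have n0 : (0 : ℝ) ≤ n := by positivity
    have z1 : 6 * ((8 * n + 1) * δ) * (3 : ℝ) ^ n ≤ 6 * (8 * n + 1) * 12 ^ n * δ := by
      have : 6 * ((8 * n + 1) * δ) * (3 : ℝ) ^ n ≤ 6 * ((8 * n + 1) * δ) * 12 ^ n :=
        mul_le_mul_of_nonneg_left y1 (by positivity)
      linarith
    have z2 : 6 * (2 ^ n * Real.exp (-(Real.pi * L / 2))) * (3 : ℝ) ^ n ≤
        6 * (8 * n + 1) * 12 ^ n * Real.exp (-L) := by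
      have h1 : 6 * (2 ^ n * Real.exp (-(Real.pi * L / 2))) * (3 : ℝ) ^ n =
          6 * (2 ^ n * 3 ^ n) * Real.exp (-(Real.pi * L / 2)) := by ring
      rw [h1]
      refine mul_le_mul ?_ x1 (Real.exp_pos _).le (by positivity)
      have : 6 * ((2 : ℝ) ^ n * 3 ^ n) ≤ 6 * 12 ^ n := by linarith
      refine this.trans ?_
      have h12 : (0 : ℝ) ≤ 12 ^ n := by positivity
      nlinarith
    have z3 : Real.exp (-(Real.pi * R ^ 2 / 2)) * (12 : ℝ) ^ n ≤
        6 * (8 * n + 1) * 12 ^ n * Real.exp (-R ^ 2) := by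
      have h12 : (0 : ℝ) ≤ 12 ^ n := by positivity
      have h1 : Real.exp (-(Real.pi * R ^ 2 / 2)) * (12 : ℝ) ^ n ≤
          Real.exp (-R ^ 2) * 12 ^ n := mul_le_mul_of_nonneg_right x2 h12
      have h2 : 0 ≤ Real.exp (-R ^ 2) * 12 ^ n := by positivity
      nlinarith
    linarith
  calc _ ≤ ENNReal.ofReal (6 * η) * (ENNReal.ofReal (3 ^ n) * I) +
        ((∫⁻ m, ENNReal.ofReal |f m| *
        ((dq (ql (l m)) (Real.sqrt (Fintype.card ι) * R)).ncard : ℝ≥0∞)) +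
        ENNReal.ofReal (Real.exp (-(Real.pi * R ^ 2 / 2)) * 12 ^ n) * I) :=
        add_le_add (mul_le_mul' le_rfl hA) hB
    _ = (ENNReal.ofReal (6 * η) * (ENNReal.ofReal (3 ^ n) * I) +
        ENNReal.ofReal (Real.exp (-(Real.pi * R ^ 2 / 2)) * 12 ^ n) * I) +
        (∫⁻ m, ENNReal.ofReal |f m| *
        ((dq (ql (l m)) (Real.sqrt (Fintype.card ι) * R)).ncard : ℝ≥0∞)) := by
        rw [add_assoc]
        congr 1
        exact add_comm _ _
    _ ≤ _ := add_le_add hconst le_rfl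

end Pool.Agent.Helper96_GN
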