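import Pool.Agent.Helper96_GN.Field

/-!
# Summation over the lattice with a slowly varying field of boxes, main theorem
-/

set_option autoImplicit false

set_option linter.unusedSectionVars false

open MeasureTheory Filter Topology Set Function Matrix

open scoped BigOperators ENNReal

noncomputable section

namespace Pool.Agent.Helper96_GN

variable {ι : Type*} [Fintype ι] [DecidableEq ι]

theorem measurable_th {g : (ι → ℝ) → Matrix ι ι ℝ} (hg : ∀ i j, Measurable fun m => g m i j)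
    (hdet : ∀ m, (g m).det ≠ 0) : Measurable fun m => th (g m) := by
  have h1 : (fun m => th (g m)) = fun m => (∑' k : ι → ℤ,
      ENNReal.ofReal (Real.exp (-(Real.pi * qf (g m) (zr k))))).toReal := by
    funext m
    rw [← ENNReal.ofReal_tsum_of_nonneg (fun _ => (Real.exp_pos _).le)
      (summable_gauss_zero (hdet m)), ENNReal.toReal_ofReal (tsum_nonneg fun _ =>
        (Real.exp_pos _).le)]
    rfl
  rw [h1]
  refine (Measurable.tsum fun k => ?_).ennreal_toReal
  refine ENNReal.measurable_ofReal.comp (Real.measurable_exp.comp ?_)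
  refine (Measurable.const_mul ?_ _).neg
  unfold qf Matrix.mulVec dotProduct
  refine Finset.measurable_sum _ fun i _ => ?_
  refine Measurable.pow_const ?_ 2
  exact Finset.measurable_sum _ fun j _ => (hg i j).mul_const _

theorem measurable_th_dl {g : (ι → ℝ) → Matrix ι ι ℝ} (hg : ∀ i j, Measurable fun m => g m i j)
    (hdet : ∀ m, (g m).det ≠ 0) : Measurable fun m => th (dl (g m)) := by
  have h1 : (fun m => th (dl (g m))) = fun m => |(g m).det| * th (g m) := by
    funext m
    rw [th_inv (hdet m), ← mul_assoc, mul_inv_cancel₀ (abs_ne_zero.2 (hdet m)), one_mul]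
  rw [h1]
  exact (measurable_det hg).abs.mul (measurable_th hg hdet)

/-- measurability of the field of forms -/
structure MF (g : (ι → ℝ) → Matrix ι ι ℝ) : Prop where
  q : ∀ x : ι → ℝ, Measurable fun m => qf (g m) (x - m)
  q0 : ∀ v : ι → ℝ, Measurable fun m => qf (g m) v
  d : Measurable fun m => |(g m).det|

theorem MF.of {g : (ι → ℝ) → Matrix ι ι ℝ} (hg : ∀ i j, Measurable fun m => g m i j) : MF g := by
  refine ⟨measurable_qf hg, fun v => ?_, (measurable_det hg).abs⟩
  unfold qf Matrix.mulVec dotProduct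
  refine Finset.measurable_sum _ fun i _ => ?_
  refine Measurable.pow_const ?_ 2
  exact Finset.measurable_sum _ fun j _ => (hg i j).mul_const _

theorem measurable_gamM {g : (ι → ℝ) → Matrix ι ι ℝ} (hg : MF g) (L : ℝ) (x : ι → ℝ) :
    Measurable fun m => gam g L x m := by
  unfold gam
  refine Measurable.ite (measurableSet_le (hg.q x) measurable_const) ?_ measurable_const
  exact hg.d.mul (Real.measurable_exp.comp ((hg.q x).const_mul _).neg)

theorem measurable_th_dlM {g : (ι → ℝ) → Matrix ι ι ℝ} (hg : MF g)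
    (hdet : ∀ m, (g m).det ≠ 0) : Measurable fun m => th (dl (g m)) := by
  have h1 : (fun m => th (dl (g m))) = fun m => |(g m).det| * (∑' k : ι → ℤ,
      ENNReal.ofReal (Real.exp (-(Real.pi * qf (g m) (zr k))))).toReal := by
    funext m
    rw [← ENNReal.ofReal_tsum_of_nonneg (fun _ => (Real.exp_pos _).le)
      (summable_gauss_zero (hdet m)), ENNReal.toReal_ofReal (tsum_nonneg fun _ =>
        (Real.exp_pos _).le)]
    have h2 := th_inv (hdet m)
    rw [th] at h2
    rw [h2, ← mul_assoc, mul_inv_cancel₀ (abs_ne_zero.2 (hdet m)), one_mul]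
  rw [h1]
  refine hg.d.mul (Measurable.tsum fun k => ?_).ennreal_toReal
  exact ENNReal.measurable_ofReal.comp (Real.measurable_exp.comp ((hg.q0 _).const_mul _).neg)

/-- summation over the lattice with a slowly varying field of boxes -/
theorem field_sumM {g : (ι → ℝ) → Matrix ι ι ℝ} (hg : MF g)
    (hdet : ∀ m, (g m).det ≠ 0) {δ L η : ℝ} (hδ0 : 0 ≤ δ) (hδ : δ ≤ 1 / 2) (hδη : δ ≤ η)
    (hη : η ≤ 1 / 2) (hη1 : ((1 + δ) / (1 - δ)) ^ Fintype.card ι ≤ 1 + η)
    (hη2 : 1 - η ≤ ((1 - δ) / (1 + δ)) ^ Fintype.card ι *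
      (1 - 2 ^ Fintype.card ι * Real.exp (-(Real.pi * L / 2))))
    (hη3 : 2 ^ Fintype.card ι * Real.exp (-(Real.pi * L / 2)) ≤ η)
    {S : Set (ι → ℝ)} {f F1 F2 : (ι → ℝ) → ℝ} (hf : Measurable f) (hF2 : Measurable F2)
    (slow : ∀ x ∈ S, ∀ m, (qf (g m) (x - m) ≤ L ∨ qf (g x) (x - m) ≤ L) →
      ∀ v, (1 - δ) * qf (g x) v ≤ qf (g m) v ∧ qf (g m) v ≤ (1 + δ) * qf (g x) v)
    (hS : ∀ x, x ∉ S → F1 x = 0) (hfF : ∀ x, |f x| ≤ F1 x)
    (lip : ∀ x m, qf (g m) (x - m) ≤ L → |f m - f x| ≤ δ * F1 x)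
    (dom : ∀ x m, qf (g m) (x - m) ≤ L → F1 x ≤ F2 m) :
    ENNReal.ofReal |(∑' x : ι → ℤ, f (zr x)) - ∫ x, f x| ≤
      ENNReal.ofReal (6 * η) *
        (∫⁻ m, ENNReal.ofReal (F2 m) * ENNReal.ofReal (th (dl (g m)))) +
      (∫⁻ m, ENNReal.ofReal |f m| * ENNReal.ofReal (th (dl (g m)) - 1)) := by
  obtain ⟨J, hJdef⟩ : ∃ J, J = ∫⁻ m, ENNReal.ofReal (F2 m) * ENNReal.ofReal (th (dl (g m))) :=
    ⟨_, rfl⟩
  have hη0 : 0 < η := lt_of_lt_of_le (by positivity) hη3
  have hL : 0 ≤ L := by
    by_contra hL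
    rw [not_le] at hL
    have h1 : 1 < Real.exp (-(Real.pi * L / 2)) := by
      rw [Real.one_lt_exp_iff]
      nlinarith [Real.pi_pos]
    have h2 : (1 : ℝ) ≤ 2 ^ Fintype.card ι := one_le_pow₀ (by norm_num)
    nlinarith
  rw [← hJdef]
  by_cases hJ : J = ∞
  · rw [hJ, ENNReal.mul_top (by simpa using hη0), top_add]
    exact le_top
  have hF10 : ∀ x, 0 ≤ F1 x := fun x => (abs_nonneg _).trans (hfF x)
  have hq0 : ∀ m : ι → ℝ, qf (g m) (m - m) ≤ L := by
    intro m
    have : qf (g m) (m - m) = 0 := by simp [qf]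
    rw [this]
    exact hL
  have hfF2 : ∀ m, |f m| ≤ F2 m := fun m => (hfF m).trans (dom m m (hq0 m))
  have hF20 : ∀ m, 0 ≤ F2 m := fun m => (abs_nonneg _).trans (hfF2 m)
  obtain ⟨B, hB⟩ : ∃ B : (ι → ℝ) → ℝ≥0∞, ∀ x, B x =
      ∫⁻ m, ENNReal.ofReal (F2 m) * ENNReal.ofReal (gam g L x m) := ⟨_, fun _ => rfl⟩
  have hgamm := fun x => measurable_gamM hg L x
  have hBsum : ∑' x : ι → ℤ, B (zr x) ≤ J := by
    have hmeas : ∀ x : ι → ℤ, AEMeasurable (fun m => ENNReal.ofReal (F2 m) *
        ENNReal.ofReal (gam g L (zr x) m)) volume := fun x =>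
      (hF2.ennreal_ofReal.mul (hgamm _).ennreal_ofReal).aemeasurable
    simp only [hB]
    rw [← lintegral_tsum hmeas, hJdef]
    refine lintegral_mono fun m => ?_
    simp only
    rw [ENNReal.tsum_mul_left, ← ENNReal.ofReal_tsum_of_nonneg (fun _ => gam_nonneg _ _ _ _)
      (summable_gam hdet L m)]
    exact mul_le_mul' le_rfl (ENNReal.ofReal_le_ofReal (tsum_gam_le hdet L m))
  have hBfin : ∀ x : ι → ℤ, B (zr x) ≠ ∞ := fun x =>
    ne_top_of_le_ne_top hJ ((ENNReal.le_tsum x).trans hBsum)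
  -- the masses
  have hmass : ∀ x ∈ S, ENNReal.ofReal (1 - η) ≤ ∫⁻ m, ENNReal.ofReal (gam g L x m) ∧
      ∫⁻ m, ENNReal.ofReal (gam g L x m) ≤ ENNReal.ofReal (1 + η) := by
    intro x hx
    constructor
    · exact (ENNReal.ofReal_le_ofReal hη2).trans
        (le_mass hdet hδ0 hδ x fun m hm => slow x hx m (Or.inr hm))
    · exact (mass_le hdet hδ0 hδ x fun m hm => slow x hx m (Or.inl hm)).trans
        (ENNReal.ofReal_le_ofReal hη1)
  have hF1B : ∀ x, ENNReal.ofReal (F1 x) ≤ 2 * B x := by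
    intro x
    by_cases hx : x ∈ S
    · have h1 : ENNReal.ofReal (F1 x) * ∫⁻ m, ENNReal.ofReal (gam g L x m) ≤ B x := by
        rw [hB, ← lintegral_const_mul' _ _ ENNReal.ofReal_ne_top]
        refine lintegral_mono fun m => ?_
        by_cases h : qf (g m) (x - m) ≤ L
        · exact mul_le_mul' (ENNReal.ofReal_le_ofReal (dom x m h)) le_rfl
        · have : gam g L x m = 0 := by rw [gam, if_neg h]
          rw [this]
          simp
      have h2 : ENNReal.ofReal (1 / 2) ≤ ∫⁻ m, ENNReal.ofReal (gam g L x m) :=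
        (ENNReal.ofReal_le_ofReal (by linarith)).trans (hmass x hx).1
      calc ENNReal.ofReal (F1 x) = 2 * (ENNReal.ofReal (F1 x) * ENNReal.ofReal (1 / 2)) := by
            rw [mul_comm (ENNReal.ofReal (F1 x)), ← mul_assoc]
            have : (2 : ℝ≥0∞) * ENNReal.ofReal (1 / 2) = 1 := by
              have e : (2 : ℝ≥0∞) = ENNReal.ofReal 2 := by norm_num
              rw [e, ← ENNReal.ofReal_mul (by norm_num)]
              norm_num
            rw [this, one_mul]
        _ ≤ 2 * (ENNReal.ofReal (F1 x) * ∫⁻ m, ENNReal.ofReal (gam g L x m)) := by gcongr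
        _ ≤ 2 * B x := by gcongr
    · rw [hS x hx]
      simp
  -- the averages
  have hfg : ∀ x : ι → ℝ, ∫⁻ m, ‖f m * gam g L x m‖ₑ ≤ B x := by
    intro x
    rw [hB]
    refine lintegral_mono fun m => ?_
    rw [← ENNReal.ofReal_mul (hF20 m), Real.enorm_eq_ofReal_abs, abs_mul,
      abs_of_nonneg (gam_nonneg _ _ _ _)]
    exact ENNReal.ofReal_le_ofReal (mul_le_mul_of_nonneg_right (hfF2 m) (gam_nonneg _ _ _ _))
  have hfgm : ∀ x : ι → ℝ, AEStronglyMeasurable (fun m => f m * gam g L x m) volume :=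
    fun x => (hf.mul (hgamm x)).aestronglyMeasurable
  have hfgi : ∀ x : ι → ℤ, Integrable fun m => f m * gam g L (zr x) m := by
    intro x
    refine ⟨hfgm _, ?_⟩
    exact lt_of_le_of_lt (hfg _) (lt_top_iff_ne_top.2 (hBfin x))
  obtain ⟨A, hA⟩ : ∃ A : (ι → ℝ) → ℝ, ∀ x, A x = ∫ m, f m * gam g L x m := ⟨_, fun _ => rfl⟩
  have hAf : ∀ x : ι → ℤ, ENNReal.ofReal |A (zr x) - f (zr x)| ≤
      ENNReal.ofReal (5 * η) * B (zr x) := by
    intro x
    obtain ⟨y, hy⟩ : ∃ y : ι → ℝ, y = zr x := ⟨_, rfl⟩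
    have hi := hfgi x
    rw [← hy] at hi ⊢
    by_cases hx : y ∈ S
    · have hm := hmass y hx
      have hgi : Integrable fun m => gam g L y m := by
        refine ⟨(hgamm y).aestronglyMeasurable, ?_⟩
        have e : ∀ m, ‖gam g L y m‖ₑ = ENNReal.ofReal (gam g L y m) := by
          intro m
          rw [Real.enorm_eq_ofReal_abs, abs_of_nonneg (gam_nonneg _ _ _ _)]
        rw [HasFiniteIntegral]
        simp only [e]
        exact lt_of_le_of_lt hm.2 ENNReal.ofReal_lt_top
      have hI := ofReal_integral_eq_lintegral_ofReal hgi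
        (Eventually.of_forall fun m => gam_nonneg g L y m)
      obtain ⟨I, hIdef⟩ : ∃ I, I = ∫ m, gam g L y m := ⟨_, rfl⟩
      rw [← hIdef] at hI
      rw [← hI] at hm
      have hI0 : 0 ≤ I := by
        rw [hIdef]
        exact integral_nonneg fun m => gam_nonneg _ _ _ _
      have hI1 : 1 - η ≤ I := (ENNReal.ofReal_le_ofReal_iff hI0).1 hm.1
      have hI2 : I ≤ 1 + η := (ENNReal.ofReal_le_ofReal_iff (by linarith)).1 hm.2
      have e1 : A y - f y = (∫ m, (f m - f y) * gam g L y m) + f y * (I - 1) := by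
        have e2 : ∀ m, (f m - f y) * gam g L y m = f m * gam g L y m - f y * gam g L y m := by
          intro m
          ring
        simp only [e2]
        rw [integral_sub hi (hgi.const_mul _), integral_const_mul, ← hIdef, ← hA]
        ring
      have e3 : |∫ m, (f m - f y) * gam g L y m| ≤ δ * F1 y * I := by
        rw [hIdef, ← integral_const_mul, ← Real.norm_eq_abs]
        refine norm_integral_le_of_norm_le (hgi.const_mul _) (Eventually.of_forall fun m => ?_)
        rw [norm_mul, Real.norm_eq_abs, Real.norm_of_nonneg (gam_nonneg _ _ _ _)]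
        by_cases h : qf (g m) (y - m) ≤ L
        · exact mul_le_mul_of_nonneg_right (lip y m h) (gam_nonneg _ _ _ _)
        · have : gam g L y m = 0 := by rw [gam, if_neg h]
          rw [this, mul_zero, mul_zero]
      have e4 : |f y * (I - 1)| ≤ F1 y * η := by
        rw [abs_mul]
        refine mul_le_mul (hfF y) ?_ (abs_nonneg _) (hF10 y)
        rw [abs_le]
        constructor <;> linarith
      have e5 : |A y - f y| ≤ 5 / 2 * η * F1 y := by
        rw [e1]
        refine (abs_add_le _ _).trans ?_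
        have h0 := hF10 y
        have h1 : δ * F1 y * I ≤ η * F1 y * (3 / 2) := by
          refine mul_le_mul (mul_le_mul_of_nonneg_right hδη h0) (by linarith) hI0 (by positivity)
        linarith
      calc ENNReal.ofReal |A y - f y| ≤ ENNReal.ofReal (5 / 2 * η * F1 y) :=
            ENNReal.ofReal_le_ofReal e5
        _ = ENNReal.ofReal (5 / 2 * η) * ENNReal.ofReal (F1 y) :=
            ENNReal.ofReal_mul (by positivity)
        _ ≤ ENNReal.ofReal (5 / 2 * η) * (2 * B y) := mul_le_mul' le_rfl (hF1B y)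
        _ = ENNReal.ofReal (5 * η) * B y := by
            rw [← mul_assoc]
            have e : (2 : ℝ≥0∞) = ENNReal.ofReal 2 := by norm_num
            rw [e, ← ENNReal.ofReal_mul (by positivity)]
            congr 2
            ring
    · have h0 := hS y hx
      have hf0 : f y = 0 := by
        have := hfF y
        rw [h0] at this
        exact abs_nonpos_iff.1 this
      have hA0 : A y = 0 := by
        rw [hA]
        have : ∀ m, f m * gam g L y m = 0 := by
          intro m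
          by_cases h : qf (g m) (y - m) ≤ L
          · have h1 := lip y m h
            rw [h0, hf0, mul_zero, sub_zero] at h1
            rw [abs_nonpos_iff.1 h1, zero_mul]
          · rw [gam, if_neg h, mul_zero]
        simp only [this, integral_zero]
      rw [hA0, hf0]
      simp
  -- summability
  have hsum_of : ∀ h : (ι → ℤ) → ℝ, (∑' x, ENNReal.ofReal |h x|) ≠ ∞ → Summable h := by
    intro h hh
    have h1 := ENNReal.summable_toReal hh
    refine Summable.of_norm (h1.congr fun x => ?_)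
    rw [ENNReal.toReal_ofReal (abs_nonneg _), Real.norm_eq_abs]
  have hBfin' : ∑' x : ι → ℤ, B (zr x) ≠ ∞ := ne_top_of_le_ne_top hJ hBsum
  have hsA : Summable fun x : ι → ℤ => A (zr x) := by
    refine hsum_of _ (ne_top_of_le_ne_top hBfin' (ENNReal.tsum_le_tsum fun x => ?_))
    rw [hA, ← Real.enorm_eq_ofReal_abs]
    exact (enorm_integral_le_lintegral_enorm _).trans (hfg _)
  have hdiff : ∑' x : ι → ℤ, ENNReal.ofReal |A (zr x) - f (zr x)| ≤
      ENNReal.ofReal (5 * η) * J := by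
    calc _ ≤ ∑' x : ι → ℤ, ENNReal.ofReal (5 * η) * B (zr x) := ENNReal.tsum_le_tsum hAf
      _ = ENNReal.ofReal (5 * η) * ∑' x : ι → ℤ, B (zr x) := ENNReal.tsum_mul_left
      _ ≤ _ := mul_le_mul' le_rfl hBsum
  have hsAf : Summable fun x : ι → ℤ => A (zr x) - f (zr x) :=
    hsum_of _ (ne_top_of_le_ne_top (ENNReal.mul_ne_top ENNReal.ofReal_ne_top hJ) hdiff)
  have hsf : Summable fun x : ι → ℤ => f (zr x) := by
    refine (hsA.sub hsAf).congr fun x => ?_
    ring
  -- the integral of the sum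
  have hswap : ∑' x : ι → ℤ, A (zr x) = ∫ m, f m * ∑' x : ι → ℤ, gam g L (zr x) m := by
    have h1 := integral_tsum (μ := (volume : Measure (ι → ℝ)))
      (f := fun (x : ι → ℤ) m => f m * gam g L (zr x) m) (fun x => hfgm _)
      (ne_top_of_le_ne_top hBfin' (ENNReal.tsum_le_tsum fun x => hfg _))
    simp only [hA]
    rw [← h1]
    refine integral_congr_ae (Eventually.of_forall fun m => ?_)
    simp only
    rw [tsum_mul_left]
  have hTh1 : ∀ m, 1 ≤ th (dl (g m)) := fun m => one_le_th (det_dl_ne (hdet m))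
  have hfTh : ∫⁻ m, ENNReal.ofReal |f m| * ENNReal.ofReal (th (dl (g m))) ≤ J := by
    rw [hJdef]
    exact lintegral_mono fun m => mul_le_mul' (ENNReal.ofReal_le_ofReal (hfF2 m)) le_rfl
  have hfi : Integrable f := by
    refine ⟨hf.aestronglyMeasurable, ?_⟩
    refine lt_of_le_of_lt ?_ (lt_top_iff_ne_top.2 hJ)
    refine le_trans (lintegral_mono fun m => ?_) hfTh
    rw [Real.enorm_eq_ofReal_abs]
    exact le_mul_of_one_le_right bot_le (by
      rw [ENNReal.one_le_ofReal]
      exact hTh1 m)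
  have hGm : Measurable fun m => ∑' x : ι → ℤ, gam g L (zr x) m := by
    have e : (fun m => ∑' x : ι → ℤ, gam g L (zr x) m) = fun m =>
        (∑' x : ι → ℤ, ENNReal.ofReal (gam g L (zr x) m)).toReal := by
      funext m
      rw [← ENNReal.ofReal_tsum_of_nonneg (fun _ => gam_nonneg _ _ _ _) (summable_gam hdet L m),
        ENNReal.toReal_ofReal (tsum_nonneg fun _ => gam_nonneg _ _ _ _)]
    rw [e]
    exact (Measurable.tsum fun x => ENNReal.measurable_ofReal.comp
      (hgamm _)).ennreal_toReal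
  have hGi : Integrable fun m => f m * ∑' x : ι → ℤ, gam g L (zr x) m := by
    refine ⟨(hf.mul hGm).aestronglyMeasurable, ?_⟩
    refine lt_of_le_of_lt ?_ (lt_top_iff_ne_top.2 hJ)
    refine le_trans (lintegral_mono fun m => ?_) hfTh
    rw [Real.enorm_eq_ofReal_abs, abs_mul, ← ENNReal.ofReal_mul (abs_nonneg _)]
    refine ENNReal.ofReal_le_ofReal (mul_le_mul_of_nonneg_left ?_ (abs_nonneg _))
    rw [abs_of_nonneg (tsum_nonneg fun _ => gam_nonneg _ _ _ _)]
    exact tsum_gam_le hdet L m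
  have e1 : (∑' x : ι → ℤ, f (zr x)) - ∫ x, f x =
      -(∑' x : ι → ℤ, (A (zr x) - f (zr x))) +
        ∫ m, f m * ((∑' x : ι → ℤ, gam g L (zr x) m) - 1) := by
    have e2 : ∀ m, f m * ((∑' x : ι → ℤ, gam g L (zr x) m) - 1) =
        f m * (∑' x : ι → ℤ, gam g L (zr x) m) - f m := by
      intro m
      ring
    simp only [e2]
    rw [integral_sub hGi hfi, ← hswap, hsA.tsum_sub hsf]
    ring
  have e3 : ENNReal.ofReal |∑' x : ι → ℤ, (A (zr x) - f (zr x))| ≤
      ENNReal.ofReal (5 * η) * J := by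
    refine le_trans ?_ hdiff
    rw [← ENNReal.ofReal_tsum_of_nonneg (fun _ => abs_nonneg _) hsAf.abs]
    apply ENNReal.ofReal_le_ofReal
    have := norm_tsum_le_tsum_norm hsAf.norm
    simpa only [Real.norm_eq_abs] using this
  have e4 : ENNReal.ofReal |∫ m, f m * ((∑' x : ι → ℤ, gam g L (zr x) m) - 1)| ≤
      (∫⁻ m, ENNReal.ofReal |f m| * ENNReal.ofReal (th (dl (g m)) - 1)) +
        ENNReal.ofReal η * J := by
    rw [← Real.enorm_eq_ofReal_abs]
    refine (enorm_integral_le_lintegral_enorm _).trans ?_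
    have h1 : ∀ m, ‖f m * ((∑' x : ι → ℤ, gam g L (zr x) m) - 1)‖ₑ ≤
        ENNReal.ofReal |f m| * ENNReal.ofReal (th (dl (g m)) - 1) +
        ENNReal.ofReal η * (ENNReal.ofReal |f m| * ENNReal.ofReal (th (dl (g m)))) := by
      intro m
      have h0 := hTh1 m
      rw [Real.enorm_eq_ofReal_abs, abs_mul, ← ENNReal.ofReal_mul (abs_nonneg _),
        ← ENNReal.ofReal_mul (abs_nonneg _), ← ENNReal.ofReal_mul hη0.le,
        ← ENNReal.ofReal_add (mul_nonneg (abs_nonneg _) (by linarith)) (by positivity)]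
      apply ENNReal.ofReal_le_ofReal
      have h2 := abs_tsum_gam hdet L m
      have h3 := mul_le_mul_of_nonneg_left h2 (abs_nonneg (f m))
      refine h3.trans ?_
      have h4 : 2 ^ Fintype.card ι * Real.exp (-(Real.pi * L / 2)) * th (dl (g m)) ≤
          η * th (dl (g m)) := mul_le_mul_of_nonneg_right hη3 (by linarith)
      have h5 := mul_le_mul_of_nonneg_left h4 (abs_nonneg (f m))
      linarith
    refine (lintegral_mono h1).trans ?_
    rw [lintegral_add_left' (by
      refine Measurable.aemeasurable ?_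
      exact (ENNReal.measurable_ofReal.comp hf.abs).mul
        (ENNReal.measurable_ofReal.comp ((measurable_th_dlM hg hdet).sub_const 1))),
      lintegral_const_mul' _ _ ENNReal.ofReal_ne_top]
    exact add_le_add le_rfl (mul_le_mul' le_rfl hfTh)
  rw [e1]
  calc ENNReal.ofReal |-(∑' x : ι → ℤ, (A (zr x) - f (zr x))) +
        ∫ m, f m * ((∑' x : ι → ℤ, gam g L (zr x) m) - 1)|
      ≤ ENNReal.ofReal (|∑' x : ι → ℤ, (A (zr x) - f (zr x))| +
        |∫ m, f m * ((∑' x : ι → ℤ, gam g L (zr x) m) - 1)|) := by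
        apply ENNReal.ofReal_le_ofReal
        refine (abs_add_le _ _).trans ?_
        rw [abs_neg]
    _ = ENNReal.ofReal |∑' x : ι → ℤ, (A (zr x) - f (zr x))| +
        ENNReal.ofReal |∫ m, f m * ((∑' x : ι → ℤ, gam g L (zr x) m) - 1)| :=
        ENNReal.ofReal_add (abs_nonneg _) (abs_nonneg _)
    _ ≤ ENNReal.ofReal (5 * η) * J +
        ((∫⁻ m, ENNReal.ofReal |f m| * ENNReal.ofReal (th (dl (g m)) - 1)) +
          ENNReal.ofReal η * J) := add_le_add e3 e4
    _ = _ := by
        have e5 : ENNReal.ofReal (6 * η) = ENNReal.ofReal (5 * η) + ENNReal.ofReal η := by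
          rw [← ENNReal.ofReal_add (by positivity) hη0.le]
          congr 1
          ring
        rw [e5]
        ring

/-- summation over the lattice with a slowly varying field of boxes -/
theorem field_sum {g : (ι → ℝ) → Matrix ι ι ℝ} (hg : ∀ i j, Measurable fun m => g m i j)
    (hdet : ∀ m, (g m).det ≠ 0) {δ L η : ℝ} (hδ0 : 0 ≤ δ) (hδ : δ ≤ 1 / 2) (hδη : δ ≤ η)
    (hη : η ≤ 1 / 2) (hη1 : ((1 + δ) / (1 - δ)) ^ Fintype.card ι ≤ 1 + η)
    (hη2 : 1 - η ≤ ((1 - δ) / (1 + δ)) ^ Fintype.card ι *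
      (1 - 2 ^ Fintype.card ι * Real.exp (-(Real.pi * L / 2))))
    (hη3 : 2 ^ Fintype.card ι * Real.exp (-(Real.pi * L / 2)) ≤ η)
    {S : Set (ι → ℝ)} {f F1 F2 : (ι → ℝ) → ℝ} (hf : Measurable f) (hF2 : Measurable F2)
    (slow : ∀ x ∈ S, ∀ m, (qf (g m) (x - m) ≤ L ∨ qf (g x) (x - m) ≤ L) →
      ∀ v, (1 - δ) * qf (g x) v ≤ qf (g m) v ∧ qf (g m) v ≤ (1 + δ) * qf (g x) v)
    (hS : ∀ x, x ∉ S → F1 x = 0) (hfF : ∀ x, |f x| ≤ F1 x)
    (lip : ∀ x m, qf (g m) (x - m) ≤ L → |f m - f x| ≤ δ * F1 x)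
    (dom : ∀ x m, qf (g m) (x - m) ≤ L → F1 x ≤ F2 m) :
    ENNReal.ofReal |(∑' x : ι → ℤ, f (zr x)) - ∫ x, f x| ≤
      ENNReal.ofReal (6 * η) *
        (∫⁻ m, ENNReal.ofReal (F2 m) * ENNReal.ofReal (th (dl (g m)))) +
      (∫⁻ m, ENNReal.ofReal |f m| * ENNReal.ofReal (th (dl (g m)) - 1)) :=
  field_sumM (MF.of hg) hdet hδ0 hδ hδη hη hη1 hη2 hη3 hf hF2 slow hS hfF lip dom

end Pool.Agent.Helper96_GN
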