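import Pool.Agent.Helper96_GN.Poisson

/-!
# Theta series in several variables: the inversion formula
-/

set_option autoImplicit false

set_option linter.unusedSectionVars false

open MeasureTheory Filter Topology Set Function Matrix

open scoped BigOperators ENNReal

noncomputable section

namespace Pool.Agent.Helper96_GN

variable {ι : Type*} [Fintype ι] [DecidableEq ι]

/-- the quadratic form `|g v|²` -/
def qf (g : Matrix ι ι ℝ) (v : ι → ℝ) : ℝ := ∑ i, (g.mulVec v i) ^ 2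

/-- the dual matrix -/
def dl (g : Matrix ι ι ℝ) : Matrix ι ι ℝ := (g⁻¹)ᵀ

theorem qf_nonneg (g : Matrix ι ι ℝ) (v : ι → ℝ) : 0 ≤ qf g v :=
  Finset.sum_nonneg fun _ _ => sq_nonneg _

theorem continuous_qf (g : Matrix ι ι ℝ) : Continuous (qf g) := by
  unfold qf Matrix.mulVec dotProduct
  fun_prop

theorem qf_smul (g : Matrix ι ι ℝ) (c : ℝ) (v : ι → ℝ) : qf (c • g) v = c ^ 2 * qf g v := by
  simp only [qf, Matrix.smul_mulVec, Pi.smul_apply, smul_eq_mul, mul_pow, Finset.mul_sum]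

theorem qf_neg (g : Matrix ι ι ℝ) (v : ι → ℝ) : qf g (-v) = qf g v := by
  simp only [qf, Matrix.mulVec_neg, Pi.neg_apply, neg_sq]

/-- the Cauchy inequality for a matrix -/
theorem sum_sq_mulVec_le (h : Matrix ι ι ℝ) (w : ι → ℝ) :
    ∑ i, (h.mulVec w i) ^ 2 ≤ (∑ i, ∑ j, h i j ^ 2) * ∑ j, w j ^ 2 := by
  rw [Finset.sum_mul]
  refine Finset.sum_le_sum fun i _ => ?_
  simp only [Matrix.mulVec, dotProduct]
  exact Finset.sum_mul_sq_le_sq_mul_sq _ _ _

theorem qf_lower {g : Matrix ι ι ℝ} (hg : g.det ≠ 0) :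
    ∃ c : ℝ, 0 < c ∧ ∀ v : ι → ℝ, c * ∑ i, v i ^ 2 ≤ qf g v := by
  obtain ⟨K, hK⟩ : ∃ K : ℝ, K = ∑ i, ∑ j, g⁻¹ i j ^ 2 := ⟨_, rfl⟩
  have hK0 : 0 ≤ K := by
    rw [hK]
    exact Finset.sum_nonneg fun _ _ => Finset.sum_nonneg fun _ _ => sq_nonneg _
  refine ⟨(K + 1)⁻¹, by positivity, fun v => ?_⟩
  have h1 := sum_sq_mulVec_le g⁻¹ (g.mulVec v)
  rw [Matrix.mulVec_mulVec, Matrix.nonsing_inv_mul g (isUnit_iff_ne_zero.2 hg),
    Matrix.one_mulVec, ← hK] at h1
  have h2 : (∑ i, v i ^ 2) ≤ (K + 1) * qf g v := by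
    refine h1.trans ?_
    have := qf_nonneg g v
    rw [qf] at *
    nlinarith
  rw [inv_mul_le_iff₀ (by positivity)]
  exact h2

/-- products of summable families -/
theorem summable_pi {a : ι → ℤ → ℝ} (h0 : ∀ i z, 0 ≤ a i z) (h : ∀ i, Summable (a i)) :
    Summable fun m : ι → ℤ => ∏ i, a i (m i) := by
  refine summable_of_sum_le (c := ∏ i, ∑' z, a i z)
    (fun m => Finset.prod_nonneg fun i _ => h0 i _) fun s => ?_
  calc ∑ m ∈ s, ∏ i, a i (m i)
      ≤ ∑ m ∈ Fintype.piFinset (fun i => s.image fun m => m i), ∏ i, a i (m i) := by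
        refine Finset.sum_le_sum_of_subset_of_nonneg ?_
          fun m _ _ => Finset.prod_nonneg fun i _ => h0 i _
        intro m hm
        rw [Fintype.mem_piFinset]
        exact fun i => Finset.mem_image_of_mem _ hm
    _ = ∏ i, ∑ z ∈ s.image (fun m => m i), a i z := (Finset.prod_univ_sum _ _).symm
    _ ≤ _ := Finset.prod_le_prod (fun i _ => Finset.sum_nonneg fun z _ => h0 i z)
        fun i _ => (h i).sum_le_tsum _ fun z _ => h0 i z

theorem tsum_pi_le (a : ι → ℤ → ℝ≥0∞) :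
    ∑' m : ι → ℤ, ∏ i, a i (m i) ≤ ∏ i, ∑' z, a i z := by
  rw [ENNReal.tsum_eq_iSup_sum]
  refine iSup_le fun s => ?_
  calc ∑ m ∈ s, ∏ i, a i (m i)
      ≤ ∑ m ∈ Fintype.piFinset (fun i => s.image fun m => m i), ∏ i, a i (m i) := by
        refine Finset.sum_le_sum_of_subset_of_nonneg ?_ fun m _ _ => bot_le
        intro m hm
        rw [Fintype.mem_piFinset]
        exact fun i => Finset.mem_image_of_mem _ hm
    _ = ∏ i, ∑ z ∈ s.image (fun m => m i), a i z := (Finset.prod_univ_sum _ _).symm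
    _ ≤ _ := Finset.prod_le_prod' fun i _ => ENNReal.sum_le_tsum _

theorem summable_gauss_one {a : ℝ} (ha : 0 < a) :
    Summable fun z : ℤ => Real.exp (-(a * (z : ℝ) ^ 2)) := by
  have h1 : Summable fun n : ℕ => Real.exp (-(a * (n : ℝ) ^ 2)) := by
    have h2 : Summable fun n : ℕ => (Real.exp (-a)) ^ n := by
      refine summable_geometric_of_lt_one (Real.exp_pos _).le ?_
      rw [Real.exp_lt_one_iff]
      linarith
    refine Summable.of_nonneg_of_le (fun n => (Real.exp_pos _).le) (fun n => ?_) h2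
    rw [← Real.exp_nat_mul]
    apply Real.exp_le_exp.2
    have h3 : (n : ℝ) ≤ (n : ℝ) ^ 2 := by
      have : n ≤ n ^ 2 := Nat.le_self_pow two_ne_zero n
      exact_mod_cast this
    nlinarith
  rw [summable_int_iff_summable_nat_and_neg]
  refine ⟨by simpa using h1, ?_⟩
  simpa using h1

/-- the bound for the Gaussian on the translates of the unit cube -/
theorem dom_gauss {g : Matrix ι ι ℝ} (hg : g.det ≠ 0) (u : ι → ℝ) :
    ∃ b : (ι → ℤ) → ℝ, Dom (fun x => ((Real.exp (-(Real.pi * qf g (x - u))) : ℝ) : ℂ)) b := by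
  obtain ⟨c, hc, h⟩ := qf_lower hg
  have hpi := Real.pi_pos
  refine ⟨fun m => ∏ i, (Real.exp (-(Real.pi * c / 2 * (m i : ℝ) ^ 2)) *
    Real.exp (Real.pi * c * (1 + |u i|) ^ 2)), ?_, ?_⟩
  · refine summable_pi (a := fun i z => (Real.exp (-(Real.pi * c / 2 * (z : ℝ) ^ 2)) *
      Real.exp (Real.pi * c * (1 + |u i|) ^ 2))) (fun i z => by positivity) fun i => ?_
    exact (summable_gauss_one (by positivity)).mul_right _
  · intro m x hx
    rw [Complex.norm_real, Real.norm_of_nonneg (Real.exp_pos _).le]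
    simp only [← Real.exp_add]
    rw [← Real.exp_sum]
    apply Real.exp_le_exp.2
    have h1 := h (x + zr m - u)
    have h2 : ∀ i, (m i : ℝ) ^ 2 / 2 - (1 + |u i|) ^ 2 ≤ (x + zr m - u) i ^ 2 := by
      intro i
      simp only [Pi.sub_apply, Pi.add_apply, zr_apply]
      have h3 : (x i - u i) ^ 2 ≤ (1 + |u i|) ^ 2 := by
        have e1 := neg_abs_le (u i)
        have e2 := le_abs_self (u i)
        have e3 := (hx i).1
        have e4 := (hx i).2
        exact sq_le_sq' (by linarith) (by linarith)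
      nlinarith [sq_nonneg ((m i : ℝ) + 2 * (x i - u i))]
    have h4 : ∑ i, ((m i : ℝ) ^ 2 / 2 - (1 + |u i|) ^ 2) ≤ ∑ i, (x + zr m - u) i ^ 2 :=
      Finset.sum_le_sum fun i _ => h2 i
    have h5 : Real.pi * (c * ∑ i, ((m i : ℝ) ^ 2 / 2 - (1 + |u i|) ^ 2)) ≤
        Real.pi * qf g (x + zr m - u) := by
      refine mul_le_mul_of_nonneg_left ?_ hpi.le
      exact (mul_le_mul_of_nonneg_left h4 hc.le).trans h1
    calc -(Real.pi * qf g (x + zr m - u))
        ≤ -(Real.pi * (c * ∑ i, ((m i : ℝ) ^ 2 / 2 - (1 + |u i|) ^ 2))) := by linarith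
      _ = ∑ i, (-(Real.pi * c / 2 * (m i : ℝ) ^ 2) + Real.pi * c * (1 + |u i|) ^ 2) := by
        rw [← mul_assoc, Finset.mul_sum, ← Finset.sum_neg_distrib]
        refine Finset.sum_congr rfl fun i _ => ?_
        ring

/-- linear substitution -/
theorem integral_comp_mulVec {E : Type*} [NormedAddCommGroup E] [NormedSpace ℝ E]
    {g : Matrix ι ι ℝ} (hg : g.det ≠ 0) (F : (ι → ℝ) → E) :
    ∫ x : ι → ℝ, F (g.mulVec x) = |g.det|⁻¹ • ∫ y : ι → ℝ, F y := by
  have h1 := Real.map_matrix_volume_pi_eq_smul_volume_pi hg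
  have h2 : MeasurableEmbedding (Matrix.toLin' g) := by
    refine Continuous.measurableEmbedding (LinearMap.continuous_of_finiteDimensional _) ?_
    intro x y hxy
    have h4 : g.mulVec x = g.mulVec y := by
      simpa only [Matrix.toLin'_apply] using hxy
    have h5 := congrArg (g⁻¹.mulVec) h4
    simpa only [Matrix.mulVec_mulVec, Matrix.nonsing_inv_mul g (isUnit_iff_ne_zero.2 hg),
      Matrix.one_mulVec] using h5
  have h3 := h2.integral_map (μ := (volume : Measure (ι → ℝ))) F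
  rw [h1, integral_smul_measure, ENNReal.toReal_ofReal (abs_nonneg _), abs_inv] at h3
  rw [h3]
  rfl

/-- the Fourier transform of a Gaussian -/
theorem ftz_gauss {g : Matrix ι ι ℝ} (hg : g.det ≠ 0) (u : ι → ℝ) (k : ι → ℤ) :
    ftz (fun x => ((Real.exp (-(Real.pi * qf g (x - u))) : ℝ) : ℂ)) k =
      ((|g.det|⁻¹ * Real.exp (-(Real.pi * qf (dl g) (zr k))) : ℝ) : ℂ) * chr (-k) u := by
  have hu := isUnit_iff_ne_zero.2 hg
  obtain ⟨w, hw⟩ : ∃ w : ι → ℝ, w = (dl g).mulVec (zr k) := ⟨_, rfl⟩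
  -- the scalar product
  have hdot : ∀ x : ι → ℝ, dotz k x = ∑ i, w i * g.mulVec x i := by
    intro x
    have h1 : ∑ i, w i * g.mulVec x i = w ⬝ᵥ g.mulVec x := rfl
    have h2 : dotz k x = zr k ⬝ᵥ x := rfl
    rw [h1, h2, hw, dl, Matrix.mulVec_transpose, ← Matrix.dotProduct_mulVec,
      Matrix.mulVec_mulVec, Matrix.nonsing_inv_mul g hu, Matrix.one_mulVec]
  have h1 : ftz (fun x => ((Real.exp (-(Real.pi * qf g (x - u))) : ℝ) : ℂ)) k =
      ∫ x : ι → ℝ, chr (-k) (x + u) * ((Real.exp (-(Real.pi * qf g x)) : ℝ) : ℂ) := by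
    rw [ftz, ← integral_add_right_eq_self _ u]
    refine integral_congr_ae (Eventually.of_forall fun x => ?_)
    simp only [add_sub_cancel_right]
  obtain ⟨F, hF⟩ : ∃ F : (ι → ℝ) → ℂ, F = fun y : ι → ℝ =>
      Complex.exp (-(Real.pi : ℂ) * ∑ i, (y i : ℂ) ^ 2 +
        ∑ i, (-(2 * Real.pi * Complex.I * w i)) * y i) := ⟨_, rfl⟩
  have h2 : ∀ x : ι → ℝ, chr (-k) (x + u) * ((Real.exp (-(Real.pi * qf g x)) : ℝ) : ℂ) =
      chr (-k) u * F (g.mulVec x) := by
    intro x
    have h3 : chr (-k) x * ((Real.exp (-(Real.pi * qf g x)) : ℝ) : ℂ) =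
        Complex.exp (-(Real.pi : ℂ) * ∑ i, (g.mulVec x i : ℂ) ^ 2 +
        ∑ i, (-(2 * Real.pi * Complex.I * w i)) * g.mulVec x i) := by
      rw [chr, dotz_neg, hdot, Complex.ofReal_exp, ← Complex.exp_add, qf]
      congr 1
      push_cast
      rw [Finset.mul_sum, Finset.mul_sum]
      have e : (2 * (Real.pi : ℂ) * Complex.I * -∑ i, (w i : ℂ) * (g.mulVec x i : ℂ)) =
          ∑ i, (-(2 * Real.pi * Complex.I * w i)) * (g.mulVec x i : ℂ) := by
        rw [mul_neg, Finset.mul_sum, ← Finset.sum_neg_distrib]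
        refine Finset.sum_congr rfl fun i _ => ?_
        ring
      rw [e, ← Finset.sum_neg_distrib]
      simp only [neg_mul]
      ring
    rw [hF]
    simp only
    rw [← h3, chr_add]
    ring
  rw [h1]
  simp only [h2]
  rw [integral_const_mul, integral_comp_mulVec hg, hF,
    GaussianFourier.integral_cexp_neg_mul_sum_add (by simpa using Real.pi_pos)]
  have hpi : (Real.pi : ℂ) ≠ 0 := by exact_mod_cast Real.pi_ne_zero
  rw [div_self hpi, Complex.one_cpow, one_mul]
  have h4 : ((∑ i, (-(2 * (Real.pi : ℂ) * Complex.I * w i)) ^ 2) / (4 * (Real.pi : ℂ))) =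
      ((-(Real.pi * qf (dl g) (zr k)) : ℝ) : ℂ) := by
    rw [qf, ← hw]
    push_cast
    rw [div_eq_iff (by simp [hpi]), Finset.mul_sum, ← Finset.sum_neg_distrib, Finset.sum_mul]
    refine Finset.sum_congr rfl fun i _ => ?_
    have hI : Complex.I ^ 2 = -1 := Complex.I_sq
    linear_combination (4 * (Real.pi : ℂ) ^ 2 * (w i : ℂ) ^ 2) * hI
  rw [h4, ← Complex.ofReal_exp]
  rw [Complex.real_smul]
  push_cast
  ring

theorem det_dl (g : Matrix ι ι ℝ) : (dl g).det = (g.det)⁻¹ := by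
  rw [dl, Matrix.det_transpose, Matrix.det_nonsing_inv, Ring.inverse_eq_inv']

theorem dl_dl {g : Matrix ι ι ℝ} (hg : g.det ≠ 0) : dl (dl g) = g := by
  rw [dl, dl, ← Matrix.transpose_nonsing_inv, Matrix.transpose_transpose,
    Matrix.nonsing_inv_nonsing_inv g (isUnit_iff_ne_zero.2 hg)]

theorem det_dl_ne {g : Matrix ι ι ℝ} (hg : g.det ≠ 0) : (dl g).det ≠ 0 := by
  rw [det_dl]
  exact inv_ne_zero hg

theorem summable_gauss {g : Matrix ι ι ℝ} (hg : g.det ≠ 0) (u : ι → ℝ) :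
    Summable fun m : ι → ℤ => Real.exp (-(Real.pi * qf g (zr m - u))) := by
  obtain ⟨b, hb⟩ := dom_gauss hg u
  have h := hb.summable 0
  simp only [zero_add] at h
  exact_mod_cast h

theorem summable_gauss_zero {g : Matrix ι ι ℝ} (hg : g.det ≠ 0) :
    Summable fun m : ι → ℤ => Real.exp (-(Real.pi * qf g (zr m))) := by
  have h := summable_gauss hg 0
  simpa only [sub_zero] using h

/-- theta inversion -/
theorem hasSum_theta {g : Matrix ι ι ℝ} (hg : g.det ≠ 0) (u : ι → ℝ) :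
    HasSum (fun k : ι → ℤ => |g.det|⁻¹ * Real.exp (-(Real.pi * qf (dl g) (zr k))) *
      Real.cos (2 * Real.pi * dotz k u))
      (∑' m : ι → ℤ, Real.exp (-(Real.pi * qf g (zr m - u)))) := by
  obtain ⟨b, hb⟩ := dom_gauss hg u
  have hc : Continuous fun x : ι → ℝ => ((Real.exp (-(Real.pi * qf g (x - u))) : ℝ) : ℂ) := by
    have := continuous_qf g
    fun_prop
  have hs : Summable (ftz fun x : ι → ℝ =>
      ((Real.exp (-(Real.pi * qf g (x - u))) : ℝ) : ℂ)) := by
    refine Summable.of_norm_bounded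
      (g := fun k : ι → ℤ => |g.det|⁻¹ * Real.exp (-(Real.pi * qf (dl g) (zr k))))
      ((summable_gauss_zero (det_dl_ne hg)).mul_left _) fun k => ?_
    rw [ftz_gauss hg, norm_mul, norm_chr, mul_one, Complex.norm_real,
      Real.norm_of_nonneg (by positivity)]
  have h1 := poisson hc hb hs 0
  have h2 := Complex.hasSum_re h1
  have h3 : (fun k : ι → ℤ => (ftz (fun x : ι → ℝ =>
      ((Real.exp (-(Real.pi * qf g (x - u))) : ℝ) : ℂ)) k * chr k 0).re) =
      fun k : ι → ℤ => |g.det|⁻¹ * Real.exp (-(Real.pi * qf (dl g) (zr k))) *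
      Real.cos (2 * Real.pi * dotz k u) := by
    funext k
    have e0 : chr k 0 = 1 := by
      have := chr_zr k 0
      rwa [zr_zero] at this
    have e1 : (2 * (Real.pi : ℂ) * Complex.I * (dotz (-k) u : ℂ)) =
        ((-(2 * Real.pi * dotz k u) : ℝ) : ℂ) * Complex.I := by
      rw [dotz_neg]
      push_cast
      ring
    rw [e0, mul_one, ftz_gauss hg, Complex.re_ofReal_mul, chr, e1,
      Complex.exp_ofReal_mul_I_re, Real.cos_neg]
  rw [h3] at h2
  have h4 : (∑' m : ι → ℤ, ((Real.exp (-(Real.pi * qf g (0 + zr m - u))) : ℝ) : ℂ)).re =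
      ∑' m : ι → ℤ, Real.exp (-(Real.pi * qf g (zr m - u))) := by
    simp only [zero_add]
    rw [← Complex.ofReal_tsum, Complex.ofReal_re]
  rw [h4] at h2
  exact h2

/-- the theta series -/
def th (g : Matrix ι ι ℝ) : ℝ := ∑' m : ι → ℤ, Real.exp (-(Real.pi * qf g (zr m)))

theorem th_inv {g : Matrix ι ι ℝ} (hg : g.det ≠ 0) : th g = |g.det|⁻¹ * th (dl g) := by
  have h := (hasSum_theta hg 0).tsum_eq
  have e : ∀ k : ι → ℤ, dotz k (0 : ι → ℝ) = 0 := fun k => by simp [dotz]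
  simp only [e, mul_zero, Real.cos_zero, mul_one, sub_zero] at h
  rw [th, ← h, th, tsum_mul_left]

/-- the deviation of a shifted theta series from the volume -/
theorem theta_sub_le {g : Matrix ι ι ℝ} (hg : g.det ≠ 0) (u : ι → ℝ) :
    |(∑' m : ι → ℤ, Real.exp (-(Real.pi * qf g (zr m - u)))) - |g.det|⁻¹| ≤
      |g.det|⁻¹ * (th (dl g) - 1) := by
  have h := hasSum_theta hg u
  have hs := (summable_gauss_zero (det_dl_ne hg)).mul_left (|g.det|⁻¹)
  have e0 : qf (dl g) (zr (0 : ι → ℤ)) = 0 := by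
    rw [zr_zero]
    simp [qf]
  have h1 := h.summable.tsum_eq_add_tsum_ite (0 : ι → ℤ)
  have h2 := hs.tsum_eq_add_tsum_ite (0 : ι → ℤ)
  have e1 : dotz (0 : ι → ℤ) u = 0 := by simp [dotz]
  rw [h.tsum_eq, e0, e1, mul_zero, neg_zero, Real.exp_zero, mul_one, mul_zero, Real.cos_zero,
    mul_one] at h1
  rw [tsum_mul_left, e0, mul_zero, neg_zero, Real.exp_zero, mul_one] at h2
  have h3 : |g.det|⁻¹ * (th (dl g) - 1) = ∑' m : ι → ℤ, (if m = 0 then 0 else
      |g.det|⁻¹ * Real.exp (-(Real.pi * qf (dl g) (zr m)))) := by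
    rw [th]
    linarith
  rw [h1, h3, add_sub_cancel_left]
  have hs' : Summable fun m : ι → ℤ => (if m = 0 then 0 else
      |g.det|⁻¹ * Real.exp (-(Real.pi * qf (dl g) (zr m)))) := by
    refine Summable.of_nonneg_of_le (fun m => ?_) (fun m => ?_) hs
    · split_ifs <;> positivity
    · split_ifs
      · positivity
      · exact le_rfl
  have h5 : ∀ m : ι → ℤ, ‖(if m = 0 then 0 else
      |g.det|⁻¹ * Real.exp (-(Real.pi * qf (dl g) (zr m))) *
      Real.cos (2 * Real.pi * dotz m u))‖ ≤ (if m = 0 then 0 else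
      |g.det|⁻¹ * Real.exp (-(Real.pi * qf (dl g) (zr m)))) := by
    intro m
    split_ifs
    · simp
    · rw [norm_mul, Real.norm_of_nonneg (by positivity)]
      exact mul_le_of_le_one_right (by positivity) (Real.abs_cos_le_one _)
  rw [← Real.norm_eq_abs]
  exact tsum_of_norm_bounded hs'.hasSum h5

theorem theta_shift_le {g : Matrix ι ι ℝ} (hg : g.det ≠ 0) (u : ι → ℝ) :
    ∑' m : ι → ℤ, Real.exp (-(Real.pi * qf g (zr m - u))) ≤ th g := by
  have h := theta_sub_le hg u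
  rw [th_inv hg]
  have h1 := (abs_le.1 h).2
  linarith

end Pool.Agent.Helper96_GN
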