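import Mathlib

/-!
# Poisson summation in several variables

`poisson`: for a continuous function `f` on `ι → ℝ` whose translates are summable, uniformly on
the unit cube, and whose Fourier transform is summable on the integer points,
`∑ f (x + m) = ∑ 𝓕 f (k) e(k x)`.
-/

set_option autoImplicit false

set_option linter.unusedSectionVars false

open MeasureTheory Filter Topology UnitAddTorus Set Function

open scoped BigOperators

noncomputable section

namespace Pool.Agent.Helper96_GN

variable {ι : Type*} [Fintype ι]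

/-- integer points as real points -/
def zr (m : ι → ℤ) : ι → ℝ := fun i => (m i : ℝ)

@[simp] theorem zr_apply (m : ι → ℤ) (i : ι) : zr m i = (m i : ℝ) := rfl

theorem zr_add (m k : ι → ℤ) : zr (m + k) = zr m + zr k := by
  funext i
  simp [zr]

theorem zr_neg (m : ι → ℤ) : zr (-m) = -zr m := by
  funext i
  simp [zr]

theorem zr_sub (m k : ι → ℤ) : zr (m - k) = zr m - zr k := by
  funext i
  simp [zr]

theorem zr_zero : zr (0 : ι → ℤ) = 0 := by
  funext i
  simp [zr]

theorem zr_injective : Function.Injective (zr : (ι → ℤ) → ι → ℝ) := by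
  intro m k h
  funext i
  have h1 := congrFun h i
  simp only [zr_apply] at h1
  exact_mod_cast h1

/-- the scalar product of an integer vector and a real vector -/
def dotz (k : ι → ℤ) (x : ι → ℝ) : ℝ := ∑ i, (k i : ℝ) * x i

/-- the character `e(k x)` -/
def chr (k : ι → ℤ) (x : ι → ℝ) : ℂ := Complex.exp (2 * Real.pi * Complex.I * dotz k x)

theorem dotz_add (k : ι → ℤ) (x y : ι → ℝ) : dotz k (x + y) = dotz k x + dotz k y := by
  simp only [dotz, Pi.add_apply, mul_add, Finset.sum_add_distrib]

theorem dotz_neg (k : ι → ℤ) (x : ι → ℝ) : dotz (-k) x = -dotz k x := by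
  simp only [dotz, Pi.neg_apply, Int.cast_neg, neg_mul, Finset.sum_neg_distrib]

theorem dotz_zr (k m : ι → ℤ) : dotz k (zr m) = ((∑ i, k i * m i : ℤ) : ℝ) := by
  simp [dotz, zr]

theorem chr_add (k : ι → ℤ) (x y : ι → ℝ) : chr k (x + y) = chr k x * chr k y := by
  rw [chr, chr, chr, ← Complex.exp_add, dotz_add]
  congr 1
  push_cast
  ring

theorem chr_zr (k m : ι → ℤ) : chr k (zr m) = 1 := by
  rw [chr, dotz_zr]
  have h : (2 * Real.pi * Complex.I * (((∑ i, k i * m i : ℤ) : ℝ) : ℂ)) =
      ((∑ i, k i * m i : ℤ) : ℂ) * (2 * Real.pi * Complex.I) := by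
    push_cast
    ring
  rw [h]
  exact Complex.exp_int_mul_two_pi_mul_I _

theorem norm_chr (k : ι → ℤ) (x : ι → ℝ) : ‖chr k x‖ = 1 := by
  rw [chr]
  have h : (2 * Real.pi * Complex.I * (dotz k x : ℂ)) =
      ((2 * Real.pi * dotz k x : ℝ) : ℂ) * Complex.I := by
    push_cast
    ring
  rw [h]
  exact Complex.norm_exp_ofReal_mul_I _

theorem continuous_chr (k : ι → ℤ) : Continuous (chr k) := by
  unfold chr dotz
  fun_prop

theorem mFourier_coe (k : ι → ℤ) (x : ι → ℝ) :
    mFourier k (fun i => (x i : UnitAddCircle)) = chr k x := by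
  simp only [mFourier, ContinuousMap.coe_mk, fourier_coe_apply, chr, dotz]
  rw [← Complex.exp_sum]
  congr 1
  push_cast
  rw [Finset.mul_sum]
  refine Finset.sum_congr rfl fun i _ => ?_
  ring

/-- the Fourier transform at an integer point -/
def ftz (f : (ι → ℝ) → ℂ) (k : ι → ℤ) : ℂ := ∫ x : ι → ℝ, chr (-k) x * f x

/-- the unit cube about `m` -/
def cube (m : ι → ℤ) : Set (ι → ℝ) := {x | ∀ i, x i ∈ Ioc (m i : ℝ) (m i + 1)}

theorem measurableSet_cube (m : ι → ℤ) : MeasurableSet (cube m) :=
  MeasurableSet.univ_pi' (fun _ => measurableSet_Ioc)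

theorem iUnion_cube : (⋃ m : ι → ℤ, cube m) = Set.univ := by
  refine Set.eq_univ_of_forall fun x => ?_
  rw [Set.mem_iUnion]
  refine ⟨fun i => ⌈x i⌉ - 1, fun i => ?_⟩
  have h1 := Int.le_ceil (x i)
  have h2 := Int.ceil_lt_add_one (x i)
  rw [Set.mem_Ioc]
  push_cast
  constructor <;> linarith

theorem disjoint_cube : Pairwise (Disjoint on (cube : (ι → ℤ) → Set (ι → ℝ))) := by
  intro m k hmk
  rw [Function.onFun, Set.disjoint_left]
  intro x hx hx'
  refine hmk (funext fun i => ?_)
  have h1 := Set.mem_Ioc.1 (hx i)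
  have h2 := Set.mem_Ioc.1 (hx' i)
  have h3 : (m i : ℝ) < k i + 1 := by linarith
  have h4 : (k i : ℝ) < m i + 1 := by linarith
  have h5 : m i < k i + 1 := by exact_mod_cast h3
  have h6 : k i < m i + 1 := by exact_mod_cast h4
  omega

theorem mem_cube_iff (m : ι → ℤ) (x : ι → ℝ) : x + zr m ∈ cube m ↔ x ∈ cube (0 : ι → ℤ) := by
  constructor
  · intro h i
    have := Set.mem_Ioc.1 (h i)
    simp only [Pi.add_apply, zr_apply] at this
    rw [Set.mem_Ioc]
    simp only [Pi.zero_apply, Int.cast_zero]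
    constructor <;> linarith
  · intro h i
    have := Set.mem_Ioc.1 (h i)
    simp only [Pi.zero_apply, Int.cast_zero] at this
    rw [Set.mem_Ioc]
    simp only [Pi.add_apply, zr_apply]
    constructor <;> linarith

theorem setIntegral_cube {E : Type*} [NormedAddCommGroup E] [NormedSpace ℝ E]
    (g : (ι → ℝ) → E) (m : ι → ℤ) :
    ∫ x in cube m, g x = ∫ x in cube (0 : ι → ℤ), g (x + zr m) := by
  rw [← integral_indicator (measurableSet_cube m),
    ← integral_indicator (measurableSet_cube (0 : ι → ℤ)),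
    ← integral_add_right_eq_self _ (zr m)]
  refine integral_congr_ae (Eventually.of_forall fun x => ?_)
  by_cases h : x ∈ cube (0 : ι → ℤ)
  · simp only [Set.indicator_of_mem h, Set.indicator_of_mem ((mem_cube_iff m x).2 h)]
  · simp only [Set.indicator_of_notMem h,
      Set.indicator_of_notMem (fun h' => h ((mem_cube_iff m x).1 h'))]

theorem volume_cube (m : ι → ℤ) : volume (cube m) = 1 := by
  have h : cube m = Set.pi Set.univ fun i => Ioc (m i : ℝ) (m i + 1) := by
    ext x
    simp [cube]
  rw [h, Real.volume_pi_Ioc]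
  simp

/-- the translates are dominated -/
def Dom (f : (ι → ℝ) → ℂ) (b : (ι → ℤ) → ℝ) : Prop :=
  Summable b ∧ ∀ (m : ι → ℤ) (x : ι → ℝ), (∀ i, 0 ≤ x i ∧ x i ≤ 1) → ‖f (x + zr m)‖ ≤ b m

theorem Dom.integrable {f : (ι → ℝ) → ℂ} {b : (ι → ℤ) → ℝ} (hf : Continuous f)
    (h : Dom f b) : Integrable f := by
  obtain ⟨h1, h2⟩ := h
  have h3 : ∀ m : ι → ℤ, ∀ x ∈ cube m, ‖f x‖ ≤ b m := by
    intro m x hx
    have h4 : (x - zr m) + zr m = x := by abel
    have h5 : x - zr m ∈ cube (0 : ι → ℤ) := by
      rw [← mem_cube_iff m, h4]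
      exact hx
    have h6 := h2 m (x - zr m) fun i => by
      have := Set.mem_Ioc.1 (h5 i)
      simp only [Pi.zero_apply, Int.cast_zero, zero_add] at this
      exact ⟨this.1.le, this.2⟩
    rwa [h4] at h6
  have h4 : ∀ m : ι → ℤ, IntegrableOn f (cube m) := by
    intro m
    refine Measure.integrableOn_of_bounded (M := b m) ?_ hf.aestronglyMeasurable ?_
    · rw [volume_cube]
      simp
    · exact (ae_restrict_iff' (measurableSet_cube m)).2 (Eventually.of_forall (h3 m))
  have h5 := integrableOn_iUnion_of_summable_integral_norm h4 (by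
    refine Summable.of_nonneg_of_le (fun m => integral_nonneg fun x => norm_nonneg _)
      (fun m => ?_) h1
    have h6 : ∫ x in cube m, ‖f x‖ ≤ ∫ x in cube m, b m := by
      refine setIntegral_mono_on (h4 m).norm (integrableOn_const (by rw [volume_cube]; simp))
        (measurableSet_cube m) (h3 m)
    refine h6.trans (le_of_eq ?_)
    rw [setIntegral_const, Measure.real, volume_cube]
    simp)
  rw [iUnion_cube, integrableOn_univ] at h5
  exact h5

theorem Dom.bound {f : (ι → ℝ) → ℂ} {b : (ι → ℤ) → ℝ} (h : Dom f b) (m : ι → ℤ) :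
    0 ≤ b m := by
  refine le_trans (norm_nonneg _) (h.2 m 0 fun i => ?_)
  simp

/-- periodization, summable -/
theorem Dom.summable {f : (ι → ℝ) → ℂ} {b : (ι → ℤ) → ℝ} (h : Dom f b) (x : ι → ℝ) :
    Summable fun m : ι → ℤ => f (x + zr m) := by
  obtain ⟨h1, h2⟩ := h
  have h3 : ∀ m : ι → ℤ, ‖f (x + zr m)‖ ≤ b (m + fun i => ⌊x i⌋) := by
    intro m
    have h4 : x + zr m = (fun i => Int.fract (x i)) + zr (m + fun i => ⌊x i⌋) := by
      funext i
      simp only [Pi.add_apply, zr_apply, Int.cast_add]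
      have := Int.fract_add_floor (x i)
      linarith
    rw [h4]
    exact h2 _ _ fun i => ⟨Int.fract_nonneg _, (Int.fract_lt_one _).le⟩
  refine Summable.of_norm_bounded ?_ h3
  exact (Equiv.addRight (fun i => ⌊x i⌋)).summable_iff.2 h1

/-- the periodization -/
def per (f : (ι → ℝ) → ℂ) (x : ι → ℝ) : ℂ := ∑' m : ι → ℤ, f (x + zr m)

theorem per_add (f : (ι → ℝ) → ℂ) (x : ι → ℝ) (k : ι → ℤ) : per f (x + zr k) = per f x := by
  rw [per, per, ← (Equiv.addRight k).tsum_eq fun m => f (x + zr m)]
  refine tsum_congr fun m => ?_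
  congr 1
  rw [Equiv.coe_addRight, zr_add]
  abel

theorem continuous_per {f : (ι → ℝ) → ℂ} {b : (ι → ℤ) → ℝ} (hf : Continuous f)
    (h : Dom f b) : Continuous (per f) := by
  classical
  obtain ⟨h1, h2⟩ := h
  -- on a neighbourhood of each point
  rw [continuous_iff_continuousAt]
  intro x₀
  -- the half-open cube is not a neighbourhood: use four translates in each direction
  obtain ⟨z, hz⟩ : ∃ z : ι → ℤ, ∀ i, z i = ⌊x₀ i⌋ := ⟨fun i => ⌊x₀ i⌋, fun _ => rfl⟩
  obtain ⟨B, hB⟩ : ∃ B : (ι → ℤ) → ℝ, ∀ m, B m = ∑ e : ι → Fin 3, b (m + z + fun i =>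
    ((e i : ℕ) : ℤ) - 1) := ⟨_, fun _ => rfl⟩
  have hBs : Summable B := by
    have : B = fun m => ∑ e : ι → Fin 3, b (m + z + fun i => ((e i : ℕ) : ℤ) - 1) :=
      funext hB
    rw [this]
    refine summable_sum fun e _ => ?_
    have h3 := (Equiv.addRight (z + fun i => (((e i : ℕ) : ℤ) - 1 : ℤ))).summable_iff.2 h1
    refine h3.congr fun m => ?_
    simp only [Function.comp, Equiv.coe_addRight, add_assoc]
  have hb0 : ∀ m, 0 ≤ b m := fun m => Dom.bound ⟨h1, h2⟩ m
  have hU : {x : ι → ℝ | ∀ i, x₀ i - 1 < x i ∧ x i < x₀ i + 1} ∈ 𝓝 x₀ := by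
    refine IsOpen.mem_nhds ?_ ?_
    · have : {x : ι → ℝ | ∀ i, x₀ i - 1 < x i ∧ x i < x₀ i + 1} =
          Set.pi Set.univ fun i => Ioo (x₀ i - 1) (x₀ i + 1) := by
        ext x
        simp
      rw [this]
      exact isOpen_set_pi Set.finite_univ fun i _ => isOpen_Ioo
    · intro i
      constructor <;> linarith
  have hc : ContinuousOn (per f) {x : ι → ℝ | ∀ i, x₀ i - 1 < x i ∧ x i < x₀ i + 1} := by
    refine continuousOn_tsum (u := B) (fun m => ?_) hBs ?_
    · exact (hf.comp (continuous_id.add continuous_const)).continuousOn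
    · intro m x hx
      obtain ⟨e, he⟩ : ∃ e : ι → Fin 3, ∀ i, ⌊x i⌋ = z i + (((e i : ℕ) : ℤ) - 1) := by
        have : ∀ i, ∃ e : Fin 3, ⌊x i⌋ = z i + (((e : ℕ) : ℤ) - 1) := by
          intro i
          have h3 := hx i
          have h4 : z i - 1 ≤ ⌊x i⌋ := by
            rw [Int.le_floor, hz]
            push_cast
            linarith [Int.floor_le (x₀ i)]
          have h5 : ⌊x i⌋ ≤ z i + 1 := by
            have : ⌊x i⌋ < z i + 2 := by
              rw [Int.floor_lt, hz]
              push_cast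
              linarith [Int.lt_floor_add_one (x₀ i)]
            omega
          refine ⟨⟨(⌊x i⌋ - z i + 1).toNat, by omega⟩, ?_⟩
          simp only
          omega
        choose e he using this
        exact ⟨e, he⟩
      have h4 : x + zr m = (fun i => Int.fract (x i)) + zr (m + z + fun i =>
          ((e i : ℕ) : ℤ) - 1) := by
        funext i
        have h5 := Int.fract_add_floor (x i)
        have h6 : (⌊x i⌋ : ℝ) = z i + (((e i : ℕ) : ℝ) - 1) := by
          rw [he i]
          push_cast
          ring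
        simp only [Pi.add_apply, zr_apply, Int.cast_add, Int.cast_sub, Int.cast_natCast,
          Int.cast_one]
        linarith
      rw [h4, hB]
      refine (h2 _ _ fun i => ⟨Int.fract_nonneg _, (Int.fract_lt_one _).le⟩).trans ?_
      exact Finset.single_le_sum (f := fun e : ι → Fin 3 => b (m + z + fun i =>
        ((e i : ℕ) : ℤ) - 1)) (fun e _ => hb0 _) (Finset.mem_univ e)
  exact hc.continuousAt hU

/-- the projection to the torus -/
def toT (x : ι → ℝ) : UnitAddTorus ι := fun i => (x i : UnitAddCircle)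

theorem isQ_toT : IsOpenQuotientMap (toT : (ι → ℝ) → UnitAddTorus ι) :=
  IsOpenQuotientMap.piMap fun _ => QuotientAddGroup.isOpenQuotientMap_mk

theorem toT_eq {x y : ι → ℝ} (h : toT x = toT y) : ∃ k : ι → ℤ, y = x + zr k := by
  have h1 : ∀ i, ∃ k : ℤ, y i = x i + k := by
    intro i
    have h2 : ((x i : ℝ) : UnitAddCircle) = ((y i : ℝ) : UnitAddCircle) := congrFun h i
    rw [QuotientAddGroup.eq, AddSubgroup.mem_zmultiples_iff] at h2
    obtain ⟨k, hk⟩ := h2
    refine ⟨k, ?_⟩
    rw [zsmul_eq_mul, mul_one] at hk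
    linarith
  choose k hk using h1
  exact ⟨k, funext hk⟩

/-- the periodization on the torus -/
theorem exists_lift {f : (ι → ℝ) → ℂ} {b : (ι → ℤ) → ℝ} (hf : Continuous f) (h : Dom f b) :
    ∃ F : C(UnitAddTorus ι, ℂ), ∀ x, F (toT x) = per f x := by
  have hq : Topology.IsQuotientMap (toT : (ι → ℝ) → UnitAddTorus ι) := isQ_toT.isQuotientMap
  have h1 : ∀ x y : ι → ℝ, toT x = toT y → per f x = per f y := by
    intro x y hxy
    obtain ⟨k, rfl⟩ := toT_eq hxy
    rw [per_add]
  refine ⟨⟨fun t => per f (Function.surjInv hq.surjective t), ?_⟩, fun x => ?_⟩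
  · rw [hq.continuous_iff]
    have : (fun t => per f (Function.surjInv hq.surjective t)) ∘ toT = per f := by
      funext x
      exact h1 _ _ (Function.surjInv_eq hq.surjective (toT x))
    rw [this]
    exact continuous_per hf h
  · exact h1 _ _ (Function.surjInv_eq hq.surjective (toT x))

/-- the Fourier coefficients of the periodization -/
theorem coeff_per {f : (ι → ℝ) → ℂ} {b : (ι → ℤ) → ℝ} (hf : Continuous f) (h : Dom f b)
    (k : ι → ℤ) : ∫ x in cube (0 : ι → ℤ), chr (-k) x * per f x = ftz f k := by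
  have hint : Integrable fun x : ι → ℝ => chr (-k) x * f x := by
    refine (h.integrable hf).norm.mono' (((continuous_chr _).mul hf).aestronglyMeasurable) ?_
    refine Eventually.of_forall fun x => ?_
    rw [norm_mul, norm_chr, one_mul]
  have h1 : ftz f k = ∑' m : ι → ℤ, ∫ x in cube m, chr (-k) x * f x := by
    rw [ftz, ← setIntegral_univ, ← iUnion_cube]
    exact integral_iUnion measurableSet_cube disjoint_cube (by
      rw [iUnion_cube, integrableOn_univ]
      exact hint)
  have h2 : ∀ m : ι → ℤ, ∫ x in cube m, chr (-k) x * f x =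
      ∫ x in cube (0 : ι → ℤ), chr (-k) x * f (x + zr m) := by
    intro m
    rw [setIntegral_cube]
    refine integral_congr_ae (Eventually.of_forall fun x => ?_)
    simp only
    rw [chr_add, chr_zr, mul_one]
  have h3 : ∀ m : ι → ℤ, ∀ x ∈ cube (0 : ι → ℤ), ‖chr (-k) x * f (x + zr m)‖ ≤ b m := by
    intro m x hx
    rw [norm_mul, norm_chr, one_mul]
    refine h.2 m x fun i => ?_
    have := Set.mem_Ioc.1 (hx i)
    simp only [Pi.zero_apply, Int.cast_zero, zero_add] at this
    exact ⟨this.1.le, this.2⟩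
  have h4 : ∀ m : ι → ℤ, IntegrableOn (fun x => chr (-k) x * f (x + zr m))
      (cube (0 : ι → ℤ)) := by
    intro m
    refine Measure.integrableOn_of_bounded (M := b m) ?_ ?_ ?_
    · rw [volume_cube]
      simp
    · exact ((continuous_chr _).mul (hf.comp (continuous_id.add
        continuous_const))).aestronglyMeasurable
    · exact (ae_restrict_iff' (measurableSet_cube _)).2 (Eventually.of_forall (h3 m))
  rw [h1, tsum_congr h2, integral_tsum_of_summable_integral_norm h4 ?_]
  · refine integral_congr_ae (Eventually.of_forall fun x => ?_)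
    simp only
    rw [per, tsum_mul_left]
  · refine Summable.of_nonneg_of_le (fun m => integral_nonneg fun x => norm_nonneg _)
      (fun m => ?_) h.1
    have h6 : ∫ x in cube (0 : ι → ℤ), ‖chr (-k) x * f (x + zr m)‖ ≤
        ∫ x in cube (0 : ι → ℤ), b m := by
      refine setIntegral_mono_on (h4 m).norm (integrableOn_const (by rw [volume_cube]; simp))
        (measurableSet_cube _) (h3 m)
    refine h6.trans (le_of_eq ?_)
    rw [setIntegral_const, Measure.real, volume_cube]
    simp

/-- Poisson summation -/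
theorem poisson {f : (ι → ℝ) → ℂ} {b : (ι → ℤ) → ℝ} (hf : Continuous f) (h : Dom f b)
    (hs : Summable (ftz f)) (x : ι → ℝ) :
    HasSum (fun k : ι → ℤ => ftz f k * chr k x) (∑' m : ι → ℤ, f (x + zr m)) := by
  obtain ⟨F, hF⟩ := exists_lift hf h
  have h1 : mFourierCoeff F = ftz f := by
    funext k
    rw [mFourierCoeff_eq_integral F k 0, ← coeff_per hf h k]
    have e : {x : ι → ℝ | ∀ i, x i ∈ Ioc ((0 : ι → ℝ) i) ((0 : ι → ℝ) i + 1)} =
        cube (0 : ι → ℤ) := by
      ext x
      simp [cube]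
    rw [e]
    refine integral_congr_ae (Eventually.of_forall fun x => ?_)
    simp only
    rw [mFourier_coe, smul_eq_mul]
    congr 1
    exact hF x
  have h2 := hasSum_mFourier_series_apply_of_summable (f := F) (by rw [h1]; exact hs) (toT x)
  rw [hF x, h1] at h2
  have h3 : (fun k : ι → ℤ => ftz f k * chr k x) = fun k => ftz f k • mFourier k (toT x) := by
    funext k
    rw [smul_eq_mul, ← mFourier_coe]
    rfl
  rw [h3]
  exact h2

end Pool.Agent.Helper96_GN
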